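import Pool.Agent.Lib_MP_2c424f_lc2.A05

/-!
# LC2 A06: tiling the torus by reflected copies of the box

`N ξ P` = number of proper `F` on the box with `F = ξ` on the boundary and `P F`.  For a family `(F_T)` of such `F` (one `ξ`) the
function `f (un T u) = F_T u` is well defined (`un_glue`, `un_bdy`, `un_mem`), it is proper (`un_edge`), and
`f ∘ un T = F_T`; so `∑_ξ (N ξ P)^M ≤ #{f ∈ prps : ∀ T, P (f ∘ un T)}`, `M` = number of tiles, `ξ` over the functions on the boundary
(`q^|bdy|` of them).  Power mean (`inner_mul_le..`; Mathlib `pow_sum_div_card_le_sum_pow` or `Real.pow_sum_div_card_le_sum_pow`):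
`(∑_ξ N ξ P)^M ≤ (q^|bdy|)^(M-1) ∑_ξ (N ξ P)^M`.  (Here: the largest `N ξ P` is enough.)
-/

set_option autoImplicit false

open Finset Filter

namespace Pool.Agent.LC

open Pool.Agent.LO Pool.Agent.LIN Pool.Agent.THR Pool.Agent.COR

open scoped Classical in
private theorem A06_pig {A B : Type} [Fintype B] [Nonempty B] (S : Finset A) (ρ : A → B) :
    ∃ (b : B) (S' : Finset A), S' ⊆ S ∧ (∀ a ∈ S', ρ a = b) ∧ S.card ≤ Fintype.card B * S'.card := by
  obtain ⟨b, -, hb⟩ := Finset.exists_max_image (univ : Finset B)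
    (fun b => (S.filter fun a => ρ a = b).card) univ_nonempty
  refine ⟨b, S.filter fun a => ρ a = b, Finset.filter_subset _ _, fun a ha => (Finset.mem_filter.mp ha).2, ?_⟩
  rw [Finset.card_eq_sum_card_fiberwise (f := ρ) (s := S) (t := (univ : Finset B)) fun F _ => by simp]
  refine (Finset.sum_le_card_nsmul _ _ _ hb).trans ?_
  rw [smul_eq_mul, Finset.card_univ]

private theorem A06_card (d l q : ℕ) :
    Fintype.card ({u // u ∈ bdy d l} → Fin q) = q ^ (bdy d l).card := by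
  rw [Fintype.card_fun, Fintype.card_coe, Fintype.card_fin]

private theorem A06_pi {A B : Type} [Fintype A] [DecidableEq A] (S : Finset B) :
    S.card ^ Fintype.card A = (Fintype.piFinset fun _ : A => S).card := by
  rw [Fintype.card_piFinset, Finset.prod_const, Finset.card_univ]

private theorem A06_fin {a b r n m q : ℕ} (h1 : a ≤ q ^ m * b) (h2 : b ^ n ≤ r) :
    (a : ℝ) ^ n ≤ ((q : ℝ) ^ m) ^ n * (r : ℝ) := by
  have h3 : a ^ n ≤ (q ^ m) ^ n * r := by
    refine (Nat.pow_le_pow_left h1 n).trans ?_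
    rw [mul_pow]
    exact Nat.mul_le_mul_left _ h2
  exact_mod_cast h3

open scoped Classical in
private theorem A06_glue {d k s q : ℕ} (hs : 1 ≤ s) (hk : s ≤ k) (P : (BxV d (2 ^ s) → Fin q) → Prop)
    (S : Finset (BxV d (2 ^ s) → Fin q)) (hS : ∀ F ∈ S, PrG (bG d (2 ^ s)) F ∧ P F)
    (ξ : {u // u ∈ bdy d (2 ^ s)} → Fin q)
    (hξ : ∀ F ∈ S, (fun u : {u // u ∈ bdy d (2 ^ s)} => F u.1) = ξ) :
    S.card ^ Fintype.card (Fin d → Fin (2 ^ (k + 1 - s))) ≤
      ((prps d (k + 1) q).filter fun f => ∀ T : Fin d → Fin (2 ^ (k + 1 - s)), P fun u => f (un T u)).card := by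
  choose Tx ux hx using fun x : Site d (k + 1) => un_mem (d := d) (k := k) (s := s) hs hk x
  have key : ∀ F : (Fin d → Fin (2 ^ (k + 1 - s))) → (BxV d (2 ^ s) → Fin q), (∀ T, F T ∈ S) →
      ∀ T u, F (Tx (un T u)) (ux (un T u)) = F T u := by
    intro F hF T u
    have h1 := hx (un T u)
    have h2 : ux (un T u) = u := un_glue hs hk _ _ _ _ h1
    rw [h2] at h1 ⊢
    rcases un_bdy hs hk _ _ _ _ h1 with h3 | h3
    · rw [h3]
    · have h4 := congrFun (hξ _ (hF (Tx (un T u)))) ⟨u, h3⟩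
      have h5 := congrFun (hξ _ (hF T)) ⟨u, h3⟩
      exact h4.trans h5.symm
  have hcard : S.card ^ Fintype.card (Fin d → Fin (2 ^ (k + 1 - s))) =
      (Fintype.piFinset fun _ : Fin d → Fin (2 ^ (k + 1 - s)) => S).card := A06_pi S
  rw [hcard]
  refine Finset.card_le_card_of_injOn (fun F x => F (Tx x) (ux x)) ?_ ?_
  · intro F hF
    have hF' : ∀ T, F T ∈ S := fun T => Fintype.mem_piFinset.mp (Finset.mem_coe.mp hF) T
    refine Finset.mem_coe.mpr (Finset.mem_filter.mpr ⟨?_, ?_⟩)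
    · refine Finset.mem_filter.mpr ⟨Finset.mem_univ _, ?_⟩
      intro x σ
      obtain ⟨T, u, u', h1, h2, h3⟩ := un_edge (s := s) hs hk x σ
      show F (Tx (x + sv σ)) (ux (x + sv σ)) ≠ F (Tx x) (ux x)
      rw [← h2, ← h1, key F hF', key F hF']
      exact ((hS _ (hF' T)).1 u u' h3).symm
    · intro T
      have h1 : (fun u => F (Tx (un T u)) (ux (un T u))) = F T := by
        funext u
        exact key F hF' T u
      show P fun u => F (Tx (un T u)) (ux (un T u))
      rw [h1]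
      exact (hS _ (hF' T)).2
  · intro F hF G hG hFG
    have hF' : ∀ T, F T ∈ S := fun T => Fintype.mem_piFinset.mp (Finset.mem_coe.mp hF) T
    have hG' : ∀ T, G T ∈ S := fun T => Fintype.mem_piFinset.mp (Finset.mem_coe.mp hG) T
    funext T u
    rw [← key F hF' T u, ← key G hG' T u]
    exact congrFun hFG (un T u)

open scoped Classical in
theorem tile_lower {d k s q : ℕ} (hs : 1 ≤ s) (hk : s ≤ k) (hq : 1 ≤ q) (P : (BxV d (2 ^ s) → Fin q) → Prop) :
    (cG (bG d (2 ^ s)) P) ^ Fintype.card (Fin d → Fin (2 ^ (k + 1 - s))) ≤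
      ((q : ℝ) ^ (bdy d (2 ^ s)).card) ^ Fintype.card (Fin d → Fin (2 ^ (k + 1 - s))) *
        (((prps d (k + 1) q).filter fun f => ∀ T : Fin d → Fin (2 ^ (k + 1 - s)), P fun u => f (un T u)).card : ℝ) := by
  have hne : Nonempty (Fin q) := ⟨⟨0, hq⟩⟩
  obtain ⟨ξ, S', hS', hξ, hξ0⟩ := A06_pig
    (univ.filter fun f : BxV d (2 ^ s) → Fin q => PrG (bG d (2 ^ s)) f ∧ P f)
    (fun F => fun u : {u // u ∈ bdy d (2 ^ s)} => F u.1)
  rw [A06_card] at hξ0
  exact A06_fin hξ0 (A06_glue (k := k) hs hk P S' (fun F hF => (Finset.mem_filter.mp (hS' hF)).2) ξ hξ)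

end Pool.Agent.LC
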