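import Pool.Agent.Lib_MP_2c424f_lc2.A05

/-!
# LC2 A07: upper bound of the number of colourings of the torus by those of the tiles

`f ↦ (f ∘ un T)_T` is injective on `prps` (`un_mem`), every `f ∘ un T` is proper on the box (`un_adj`).
-/

set_option autoImplicit false

open Finset Filter

namespace Pool.Agent.LC

open Pool.Agent.LO Pool.Agent.LIN Pool.Agent.THR Pool.Agent.COR

theorem tile_upper {d k s q : ℕ} (hs : 1 ≤ s) (hk : s ≤ k) :
    ZZ d (k + 1) q ≤ (cG (bG d (2 ^ s)) (fun _ : BxV d (2 ^ s) → Fin q => True)) ^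
      Fintype.card (Fin d → Fin (2 ^ (k + 1 - s))) := by
  classical
  set B : Finset (BxV d (2 ^ s) → Fin q) :=
    univ.filter fun g : BxV d (2 ^ s) → Fin q => PrG (bG d (2 ^ s)) g ∧ True with hB
  have hcG : cG (bG d (2 ^ s)) (fun _ : BxV d (2 ^ s) → Fin q => True) = (B.card : ℝ) := by
    unfold cG
    rw [hB]
    congr
  rw [hcG]
  unfold ZZ
  have h1 : (prps d (k + 1) q).card ≤
      (Fintype.piFinset fun _ : Fin d → Fin (2 ^ (k + 1 - s)) => B).card := by
    refine Finset.card_le_card_of_injOn
      (fun f => fun T u => f (un T u)) ?_ ?_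
    · intro f hf
      have hp : Prp f := by
        unfold prps at hf
        simpa using hf
      rw [Finset.mem_coe, Fintype.mem_piFinset]
      intro T
      rw [hB, Finset.mem_filter]
      refine ⟨mem_univ _, ?_, trivial⟩
      intro u u' huu
      have h2 := (un_adj hs hk T u u').2 huu
      obtain ⟨σ, hσ⟩ := h2.2.2.2.1
      show f (un T u) ≠ f (un T u')
      rw [hσ]
      exact (hp _ σ).symm
    · intro f _ f' _ hff
      funext x
      obtain ⟨T, u, rfl⟩ := un_mem hs hk x
      exact congrFun (congrFun hff T) u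
  rw [Fintype.card_piFinset, Finset.prod_const, Finset.card_univ] at h1
  calc (((prps d (k + 1) q).card : ℕ) : ℝ)
      ≤ ((B.card ^ Fintype.card (Fin d → Fin (2 ^ (k + 1 - s))) : ℕ) : ℝ) := by
        exact_mod_cast h1
    _ = (B.card : ℝ) ^ Fintype.card (Fin d → Fin (2 ^ (k + 1 - s))) := by push_cast; rfl

end Pool.Agent.LC
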