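import Pool.Agent.Lib_MP_2c424f_lc2.Defs
import Pool.Agent.Lib_MP_2c424f_cor.V01

/-!
# LC2 A05: the charts of the tiles

Coordinatewise.  `n = 2^(k+1)` is the side of the torus, `2^s` the side of the tiles, `1 ≤ s ≤ k` (so the number `2^(k+1-s)` of the
tiles in a direction is even and `n ≥ 2 · 2^s`).  If `T i` is even the coordinate of `un T u` is `2^s T i + u i`, otherwise
`2^s (T i + 1) - u i` (value `n ≡ 0` is possible).
* `un_bpt`: `2^s (T i + 1) - (2 t i + a + b) = 2 (2^s/2 (T i + 1) - 1 - t i) + (1 - a) + (1 - b)`.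
* `un_glue`: if `un T u = un T' u'` then `u = u'` (fold map).
* `un_mem`: every site is `un T u` for some `T`, `u`.
* `un_adj`: neighbours in the box are neighbours on the torus; `un_nbr`: for `u` at distance `≥ 1` from the boundary all
  neighbours on the torus are in the tile.
-/

set_option autoImplicit false

open Finset Filter

namespace Pool.Agent.LC

open Pool.Agent.LO Pool.Agent.LIN Pool.Agent.THR Pool.Agent.COR

/-! ### one coordinate -/

/-- the chart in one coordinate -/
private def A05_c (L T u : ℕ) : ℕ := if T % 2 = 1 then L * (T + 1) - u else L * T + u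

private theorem A05_lo (L T u : ℕ) (hu : u ≤ L) : L * T ≤ A05_c L T u := by
  unfold A05_c
  split_ifs
  · rw [Nat.mul_add]; omega
  · omega

private theorem A05_hi (L T u : ℕ) (hu : u ≤ L) : A05_c L T u ≤ L * T + L := by
  unfold A05_c
  split_ifs
  · rw [Nat.mul_add]; omega
  · omega

private theorem A05_fold (L T u : ℕ) (hL : 1 ≤ L) (hu : u ≤ L) :
    (if A05_c L T u % (2 * L) ≤ L then A05_c L T u % (2 * L) else 2 * L - A05_c L T u % (2 * L)) = u := by
  rcases Nat.even_or_odd' T with ⟨t, ht | ht⟩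
  · have h1 : A05_c L T u = 2 * L * t + u := by
      unfold A05_c
      rw [if_neg (by omega), ht]
      ring
    rw [h1, Nat.mul_add_mod, Nat.mod_eq_of_lt (by omega : u < 2 * L), if_pos hu]
  · rcases Nat.eq_zero_or_pos u with h0 | h0
    · have h1 : A05_c L T u = 2 * L * (t + 1) := by
        unfold A05_c
        rw [if_pos (by omega), ht, h0, Nat.sub_zero]
        ring
      rw [h1, Nat.mul_mod_right, if_pos (Nat.zero_le _), h0]
    · have h1 : A05_c L T u = 2 * L * t + (2 * L - u) := by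
        unfold A05_c
        rw [if_pos (by omega), ht]
        have h2 : L * (2 * t + 1 + 1) = 2 * L * t + 2 * L := by ring
        rw [h2]
        omega
      rw [h1, Nat.mul_add_mod, Nat.mod_eq_of_lt (by omega : 2 * L - u < 2 * L)]
      split_ifs <;> omega

private theorem A05_glue (L m T T' u u' : ℕ) (hL : 1 ≤ L) (hu : u ≤ L) (hu' : u' ≤ L)
    (h : A05_c L T u ≡ A05_c L T' u' [MOD L * (2 * m)]) : u = u' := by
  have h1 : A05_c L T u ≡ A05_c L T' u' [MOD 2 * L] := h.of_dvd ⟨m, by ring⟩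
  have h2 := A05_fold L T u hL hu
  have h3 := A05_fold L T' u' hL hu'
  rw [show A05_c L T u % (2 * L) = A05_c L T' u' % (2 * L) from h1, h3] at h2
  exact h2.symm

private theorem A05_tile (L M T T' u : ℕ) (h0 : 0 < u) (hu : u < L) (hT : T < M) (hT' : T' < M)
    (h : A05_c L T u ≡ A05_c L T' u [MOD L * M]) : T = T' := by
  have e1 : ∀ S, L * S < A05_c L S u ∧ A05_c L S u < L * S + L := by
    intro S
    unfold A05_c
    split_ifs
    · rw [Nat.mul_add]; omega
    · omega
  have e2 : ∀ S, S < M → A05_c L S u < L * M := by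
    intro S hS
    have := Nat.mul_le_mul_left L (show S + 1 ≤ M from hS)
    rw [Nat.mul_add] at this
    have := (e1 S).2
    omega
  have h1 := Nat.ModEq.eq_of_lt_of_lt h (e2 T hT) (e2 T' hT')
  rcases Nat.lt_trichotomy T T' with h2 | h2 | h2
  · have h3 := Nat.mul_le_mul_left L (show T + 1 ≤ T' from h2)
    rw [Nat.mul_add] at h3
    have h4 := (e1 T).2
    have h5 := (e1 T').1
    omega
  · exact h2
  · have h3 := Nat.mul_le_mul_left L (show T' + 1 ≤ T from h2)
    rw [Nat.mul_add] at h3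
    have h4 := (e1 T').2
    have h5 := (e1 T).1
    omega

private theorem A05_step (L m T u u' : ℕ) (hL : 2 ≤ L) (hm : 1 ≤ m) (hu : u ≤ L) (hu' : u' ≤ L)
    (h : A05_c L T u' ≡ A05_c L T u + 1 [MOD L * (2 * m)]) : u' = u + 1 ∨ u = u' + 1 := by
  have hn : 2 * L ≤ L * (2 * m) := by nlinarith
  have a1 := A05_lo L T u hu
  have a2 := A05_hi L T u hu
  have a3 := A05_lo L T u' hu'
  have a4 := A05_hi L T u' hu'
  have key : A05_c L T u' = A05_c L T u + 1 := by
    rcases Nat.le_total (A05_c L T u + 1) (A05_c L T u') with h1 | h1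
    · have h2 := (Nat.modEq_iff_dvd' h1).1 h.symm
      rcases Nat.eq_zero_or_pos (A05_c L T u' - (A05_c L T u + 1)) with h3 | h3
      · omega
      · have := Nat.le_of_dvd h3 h2
        omega
    · have h2 := (Nat.modEq_iff_dvd' h1).1 h
      rcases Nat.eq_zero_or_pos (A05_c L T u + 1 - A05_c L T u') with h3 | h3
      · omega
      · have := Nat.le_of_dvd h3 h2
        omega
  unfold A05_c at key
  split_ifs at key
  · rw [Nat.mul_add] at key
    omega
  · omega

/-- moving by one inside a tile -/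
private theorem A05_mv (L T u u' : ℕ) (hu : u ≤ L) (hu' : u' ≤ L) (h : u' = u + 1 ∨ u = u' + 1) :
    A05_c L T u' = A05_c L T u + 1 ∨ A05_c L T u = A05_c L T u' + 1 := by
  unfold A05_c
  split_ifs
  · rw [Nat.mul_add]
    omega
  · omega

private theorem A05_nb (L T u : ℕ) (h1 : 1 ≤ u) (h2 : u + 1 ≤ L) (e : Bool) : ∃ v, v ≤ L ∧
    ((e = true → A05_c L T v = A05_c L T u + 1) ∧ (e = false → A05_c L T v + 1 = A05_c L T u)) := by
  by_cases hp : T % 2 = 1
  · cases e
    · refine ⟨u + 1, h2, fun h => Bool.noConfusion h, fun _ => ?_⟩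
      unfold A05_c
      rw [if_pos hp, if_pos hp, Nat.mul_add]
      omega
    · refine ⟨u - 1, by omega, fun _ => ?_, fun h => Bool.noConfusion h⟩
      unfold A05_c
      rw [if_pos hp, if_pos hp, Nat.mul_add]
      omega
  · cases e
    · refine ⟨u - 1, by omega, fun h => Bool.noConfusion h, fun _ => ?_⟩
      unfold A05_c
      rw [if_neg hp, if_neg hp]
      omega
    · refine ⟨u + 1, h2, fun _ => ?_, fun h => Bool.noConfusion h⟩
      unfold A05_c
      rw [if_neg hp, if_neg hp]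
      omega

private theorem A05_par (h T u : ℕ) (hu : u ≤ 2 * h) : A05_c (2 * h) T u % 2 = u % 2 := by
  unfold A05_c
  split_ifs
  · have h1 : 2 * h * (T + 1) = 2 * (h * T) + 2 * h := by ring
    rw [h1]
    omega
  · have h1 : 2 * h * T = 2 * (h * T) := by ring
    rw [h1]
    omega

/-- the powers of two -/
private theorem A05_pow {k s : ℕ} (hs : 1 ≤ s) (hk : s ≤ k) : ∃ h m : ℕ, 2 ^ s = 2 * h ∧ 2 ^ (k + 1 - s) = 2 * m ∧
    2 ^ (k + 1) = 2 ^ s * (2 * m) ∧ 2 ^ k = h * (2 * m) ∧ 1 ≤ h ∧ 1 ≤ m ∧ 2 ^ s / 2 = h := by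
  obtain ⟨a, rfl⟩ : ∃ a, s = a + 1 := ⟨s - 1, by omega⟩
  obtain ⟨b, rfl⟩ : ∃ b, k = a + 1 + b := ⟨k - (a + 1), by omega⟩
  refine ⟨2 ^ a, 2 ^ b, by ring, ?_, by ring, by ring, Nat.one_le_two_pow, Nat.one_le_two_pow, ?_⟩
  · rw [show a + 1 + b + 1 - (a + 1) = b + 1 by omega]
    ring
  · rw [pow_succ]
    omega

private theorem A05_un {d k s : ℕ} (T : Fin d → Fin (2 ^ (k + 1 - s))) (u : BxV d (2 ^ s)) (i : Fin d) :
    un (k := k) T u i = ((A05_c (2 ^ s) (T i).val (u i).val : ℕ) : ZMod (2 ^ (k + 1))) := by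
  rfl

private theorem A05_le {d s : ℕ} (u : BxV d (2 ^ s)) (i : Fin d) : (u i).val ≤ 2 ^ s := by
  have := (u i).isLt
  omega

private theorem A05_sur {k s : ℕ} (hs : 1 ≤ s) (hk : s ≤ k) (x : ZMod (2 ^ (k + 1))) :
    ∃ (T : Fin (2 ^ (k + 1 - s))) (u u' : Fin (2 ^ s + 1)),
      ((A05_c (2 ^ s) T.val u.val : ℕ) : ZMod (2 ^ (k + 1))) = x ∧
      ((A05_c (2 ^ s) T.val u'.val : ℕ) : ZMod (2 ^ (k + 1))) = x + 1 ∧
      (u.val + 1 = u'.val ∨ u'.val + 1 = u.val) := by
  obtain ⟨h, m, e1, e2, e3, e4, e5, e6, e7⟩ := A05_pow hs hk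
  have hpos : 0 < 2 ^ s := by positivity
  have hv : x.val < 2 ^ s * (2 * m) := by
    rw [← e3]
    exact ZMod.val_lt x
  have hT : x.val / 2 ^ s < 2 ^ (k + 1 - s) := by
    rw [e2]
    exact Nat.div_lt_of_lt_mul hv
  have hdm : 2 ^ s * (x.val / 2 ^ s) + x.val % 2 ^ s = x.val := Nat.div_add_mod _ _
  have hr : x.val % 2 ^ s < 2 ^ s := Nat.mod_lt _ hpos
  have hx : ((x.val : ℕ) : ZMod (2 ^ (k + 1))) = x := ZMod.natCast_zmod_val x
  by_cases hp : (x.val / 2 ^ s) % 2 = 1
  · refine ⟨⟨x.val / 2 ^ s, hT⟩, ⟨2 ^ s - x.val % 2 ^ s, by omega⟩, ⟨2 ^ s - x.val % 2 ^ s - 1, by omega⟩, ?_, ?_, ?_⟩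
    · have h1 : A05_c (2 ^ s) (x.val / 2 ^ s) (2 ^ s - x.val % 2 ^ s) = x.val := by
        unfold A05_c
        rw [if_pos hp, Nat.mul_add]
        omega
      rw [h1, hx]
    · have h1 : A05_c (2 ^ s) (x.val / 2 ^ s) (2 ^ s - x.val % 2 ^ s - 1) = x.val + 1 := by
        unfold A05_c
        rw [if_pos hp, Nat.mul_add]
        omega
      rw [h1, Nat.cast_add, hx, Nat.cast_one]
    · right
      show 2 ^ s - x.val % 2 ^ s - 1 + 1 = 2 ^ s - x.val % 2 ^ s
      omega
  · refine ⟨⟨x.val / 2 ^ s, hT⟩, ⟨x.val % 2 ^ s, by omega⟩, ⟨x.val % 2 ^ s + 1, by omega⟩, ?_, ?_, ?_⟩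
    · have h1 : A05_c (2 ^ s) (x.val / 2 ^ s) (x.val % 2 ^ s) = x.val := by
        unfold A05_c
        rw [if_neg hp]
        omega
      rw [h1, hx]
    · have h1 : A05_c (2 ^ s) (x.val / 2 ^ s) (x.val % 2 ^ s + 1) = x.val + 1 := by
        unfold A05_c
        rw [if_neg hp]
        omega
      rw [h1, Nat.cast_add, hx, Nat.cast_one]
    · left
      rfl

/-! ### the statements -/

theorem un_bpt {d k s : ℕ} (hs : 1 ≤ s) (hk : s ≤ k) (T : Fin d → Fin (2 ^ (k + 1 - s)))
    (t : Fin d → Fin (2 ^ s / 2)) (a b : Bt d) : un T (bpt t a b) = pt (unB T t) (xr (tb T) a) (xr (tb T) b) := by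
  obtain ⟨h, m, e1, e2, e3, e4, e5, e6, e7⟩ := A05_pow hs hk
  funext i
  have ht : (t i).val < h := by
    have := (t i).isLt
    omega
  have hT : (T i).val < 2 * m := by
    have := (T i).isLt
    omega
  have hT2 : h * (T i).val + h ≤ 2 ^ k := by
    rw [e4]
    have := Nat.mul_le_mul_left h (show (T i).val + 1 ≤ 2 * m from hT)
    rw [Nat.mul_add] at this
    omega
  have hval : ((unB (k := k) T t i).val : ℕ) =
      (if (T i).val % 2 = 1 then h * ((T i).val + 1) - 1 - (t i).val else h * (T i).val + (t i).val) := by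
    unfold unB
    generalize (t i).val = r at ht
    rw [e7]
    apply ZMod.val_natCast_of_lt
    split_ifs
    · rw [Nat.mul_add]
      omega
    · omega
  have hb : ∀ c : Bool, b01 c ≤ 1 := by
    intro c
    cases c <;> simp [b01]
  rw [A05_un]
  show _ = bas (unB T t) i + bv (xr (tb T) a) i + bv (xr (tb T) b) i
  unfold bas bv
  rw [hval]
  have hbp : ((bpt t a b i).val : ℕ) = 2 * (t i).val + b01 (a i) + b01 (b i) := rfl
  have h3 : 2 ^ s * (T i).val = 2 * (h * (T i).val) := by
    rw [e1]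
    ring
  rw [hbp]
  by_cases hp : (T i).val % 2 = 1
  · rw [if_pos hp]
    have hx : ∀ c : Bt d, (if xr (tb T) c i = true then (1 : ZMod (2 ^ (k + 1))) else 0) =
        ((1 - b01 (c i) : ℕ) : ZMod (2 ^ (k + 1))) := by
      intro c
      unfold xr tb b01
      cases c i <;> simp [hp]
    rw [hx a, hx b, ← Nat.cast_add, ← Nat.cast_add]
    congr 1
    unfold A05_c
    rw [if_pos hp]
    rw [Nat.mul_add, Nat.mul_add, h3]
    have := hb (a i)
    have := hb (b i)
    omega
  · rw [if_neg hp]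
    have hx : ∀ c : Bt d, (if xr (tb T) c i = true then (1 : ZMod (2 ^ (k + 1))) else 0) =
        ((b01 (c i) : ℕ) : ZMod (2 ^ (k + 1))) := by
      intro c
      unfold xr tb b01
      cases c i <;> simp [hp]
    rw [hx a, hx b, ← Nat.cast_add, ← Nat.cast_add]
    congr 1
    unfold A05_c
    rw [if_neg hp, h3]
    omega

theorem un_glue {d k s : ℕ} (hs : 1 ≤ s) (hk : s ≤ k) (T T' : Fin d → Fin (2 ^ (k + 1 - s))) (u u' : BxV d (2 ^ s))
    (h : un (k := k) T u = un T' u') : u = u' := by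
  obtain ⟨h', m, e1, e2, e3, e4, e5, e6, e7⟩ := A05_pow hs hk
  funext i
  have h1 := congrFun h i
  rw [A05_un, A05_un, ZMod.natCast_eq_natCast_iff, e3] at h1
  exact Fin.ext (A05_glue _ m _ _ _ _ (by omega) (A05_le u i) (A05_le u' i) h1)

theorem un_bdy {d k s : ℕ} (hs : 1 ≤ s) (hk : s ≤ k) (T T' : Fin d → Fin (2 ^ (k + 1 - s))) (u u' : BxV d (2 ^ s))
    (h : un (k := k) T u = un T' u') : T = T' ∨ u ∈ bdy d (2 ^ s) := by
  obtain ⟨h', m, e1, e2, e3, e4, e5, e6, e7⟩ := A05_pow hs hk
  have hu := un_glue hs hk T T' u u' h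
  subst hu
  by_cases hb : u ∈ bdy d (2 ^ s)
  · exact Or.inr hb
  · left
    funext i
    have hi : ¬ ((u i).val = 0 ∨ (u i).val = 2 ^ s) := by
      intro h0
      exact hb (by unfold bdy; rw [Finset.mem_filter]; exact ⟨Finset.mem_univ _, i, h0⟩)
    have h1 := congrFun h i
    rw [A05_un, A05_un, ZMod.natCast_eq_natCast_iff, e3] at h1
    have hle := A05_le u i
    have hT := (T i).isLt
    have hT' := (T' i).isLt
    exact Fin.ext (A05_tile (2 ^ s) (2 * m) _ _ (u i).val (by omega) (by omega) (by omega) (by omega) h1)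

theorem un_mem {d k s : ℕ} (hs : 1 ≤ s) (hk : s ≤ k) (x : Site d (k + 1)) :
    ∃ (T : Fin d → Fin (2 ^ (k + 1 - s))) (u : BxV d (2 ^ s)), un T u = x := by
  choose T u u' h1 _ _ using fun i => A05_sur hs hk (x i)
  exact ⟨T, u, funext fun i => (A05_un T u i).trans (h1 i)⟩

/-- edges in the direction `+` -/
private theorem A05_edge {d k s : ℕ} (hs : 1 ≤ s) (hk : s ≤ k) (x : Site d (k + 1)) (j : Fin d) :
    ∃ (T : Fin d → Fin (2 ^ (k + 1 - s))) (u u' : BxV d (2 ^ s)), un T u = x ∧ un T u' = x + sv (j, true) ∧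
      (bG d (2 ^ s)).Adj u u' := by
  choose T u u' h1 h2 h3 using fun i => A05_sur hs hk (x i)
  refine ⟨T, u, Function.update u j (u' j), funext fun i => (A05_un T u i).trans (h1 i), ?_, ?_⟩
  · funext i
    rw [A05_un]
    by_cases hij : i = j
    · subst hij
      rw [Function.update_self, h2]
      simp [sv]
    · rw [Function.update_of_ne hij, h1]
      simp [sv, hij]
  · refine ⟨j, fun i hi => ?_, ?_⟩
    · rw [Function.update_of_ne hi]
    · rw [Function.update_self]
      exact h3 j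

/-- an edge of the torus lies in a tile -/
theorem un_edge {d k s : ℕ} (hs : 1 ≤ s) (hk : s ≤ k) (x : Site d (k + 1)) (σ : Stp d) :
    ∃ (T : Fin d → Fin (2 ^ (k + 1 - s))) (u u' : BxV d (2 ^ s)), un T u = x ∧ un T u' = x + sv σ ∧
      (bG d (2 ^ s)).Adj u u' := by
  obtain ⟨j, e⟩ := σ
  cases e
  · obtain ⟨T, u, u', h1, h2, h3⟩ := A05_edge hs hk (x + sv (j, false)) j
    refine ⟨T, u', u, ?_, h1, h3.symm⟩
    rw [h2]
    funext i
    by_cases hij : i = j
    · subst hij
      simp [sv]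
    · simp [sv, hij]
  · exact A05_edge hs hk x j

/-- the step of the torus belonging to a step of the box -/
private theorem A05_box {d k s : ℕ} (hk : s ≤ k) (T : Fin d → Fin (2 ^ (k + 1 - s))) (u u' : BxV d (2 ^ s))
    (i : Fin d) (h : ∀ j, j ≠ i → u j = u' j) (h' : (u i).val + 1 = (u' i).val ∨ (u' i).val + 1 = (u i).val) :
    ∃ e : Bool, un (k := k) T u' = un T u + sv (i, e) := by
  have hm := A05_mv (2 ^ s) (T i).val (u i).val (u' i).val (A05_le u i) (A05_le u' i)
    (by rcases h' with h' | h'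
        · exact Or.inl h'.symm
        · exact Or.inr h'.symm)
  have ho : ∀ (e : Bool) (j : Fin d), j ≠ i → un (k := k) T u' j = (un T u + sv (i, e) : Site d (k + 1)) j := by
    intro e j hj
    rw [A05_un, Pi.add_apply, A05_un, h j hj]
    simp [sv, hj]
  rcases hm with hm | hm
  · refine ⟨true, funext fun j => ?_⟩
    by_cases hj : j = i
    · subst hj
      rw [A05_un, Pi.add_apply, A05_un, hm, Nat.cast_add, Nat.cast_one]
      simp [sv]
    · exact ho true j hj
  · refine ⟨false, funext fun j => ?_⟩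
    by_cases hj : j = i
    · subst hj
      rw [A05_un, Pi.add_apply, A05_un, hm, Nat.cast_add, Nat.cast_one]
      simp [sv]
    · exact ho false j hj

theorem un_adj {d k s : ℕ} (hs : 1 ≤ s) (hk : s ≤ k) (T : Fin d → Fin (2 ^ (k + 1 - s))) (u u' : BxV d (2 ^ s)) :
    (tG d (k + 1)).Adj (un T u) (un T u') ↔ (bG d (2 ^ s)).Adj u u' := by
  obtain ⟨h', m, e1, e2, e3, e4, e5, e6, e7⟩ := A05_pow hs hk
  constructor
  · intro h
    obtain ⟨σ, hσ⟩ := h.2.2.2.1
    refine ⟨σ.1, fun j hj => ?_, ?_⟩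
    · have h1 := congrFun hσ j
      rw [Pi.add_apply, show (sv σ : Site d (k + 1)) j = 0 by simp [sv, hj], add_zero, A05_un, A05_un,
        ZMod.natCast_eq_natCast_iff, e3] at h1
      exact (Fin.ext (A05_glue _ m _ _ _ _ (by omega) (A05_le u' j) (A05_le u j) h1)).symm
    · have h1 := congrFun hσ σ.1
      rw [Pi.add_apply, A05_un, A05_un] at h1
      obtain ⟨i, e⟩ := σ
      cases e
      · have h2 : ((A05_c (2 ^ s) (T i).val (u i).val : ℕ) : ZMod (2 ^ (k + 1))) =
            ((A05_c (2 ^ s) (T i).val (u' i).val + 1 : ℕ) : ZMod (2 ^ (k + 1))) := by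
          have h3 : (sv (i, false) : Site d (k + 1)) i = -1 := by simp [sv]
          rw [h3] at h1
          rw [Nat.cast_add, Nat.cast_one, h1]
          ring
        rw [ZMod.natCast_eq_natCast_iff, e3] at h2
        rcases A05_step (2 ^ s) m (T i).val (u' i).val (u i).val (by omega) e6 (A05_le u' i) (A05_le u i) h2 with h4 | h4
        · exact Or.inr h4.symm
        · exact Or.inl h4.symm
      · have h2 : ((A05_c (2 ^ s) (T i).val (u' i).val : ℕ) : ZMod (2 ^ (k + 1))) =
            ((A05_c (2 ^ s) (T i).val (u i).val + 1 : ℕ) : ZMod (2 ^ (k + 1))) := by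
          have h3 : (sv (i, true) : Site d (k + 1)) i = 1 := by simp [sv]
          rw [h3] at h1
          rw [Nat.cast_add, Nat.cast_one, h1]
        rw [ZMod.natCast_eq_natCast_iff, e3] at h2
        rcases A05_step (2 ^ s) m (T i).val (u i).val (u' i).val (by omega) e6 (A05_le u i) (A05_le u' i) h2 with h4 | h4
        · exact Or.inl h4.symm
        · exact Or.inr h4.symm
  · rintro ⟨i, h, h1⟩
    obtain ⟨e, he⟩ := A05_box hk T u u' i h h1
    rw [he]
    exact (gV_adj (by omega : 1 ≤ k + 1) univ (un T u) (i, e)).2 ⟨Finset.mem_univ _, Finset.mem_univ _⟩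

theorem un_nbr {d k s : ℕ} (hs : 1 ≤ s) (hk : s ≤ k) (T : Fin d → Fin (2 ^ (k + 1 - s))) (u : BxV d (2 ^ s))
    (hu : inn 1 u) (x : Site d (k + 1)) (hx : (tG d (k + 1)).Adj (un T u) x) : ∃ u', x = un T u' := by
  obtain ⟨⟨i, e⟩, hσ⟩ := hx.2.2.2.1
  obtain ⟨v, hv, h1⟩ := A05_nb (2 ^ s) (T i).val (u i).val (hu i).1 (hu i).2 e
  refine ⟨Function.update u i ⟨v, by omega⟩, hσ.trans (funext fun j => ?_)⟩
  rw [A05_un, Pi.add_apply, A05_un]
  by_cases hj : j = i
  · subst hj
    rw [Function.update_self]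
    cases e
    · rw [← h1.2 rfl, Nat.cast_add, Nat.cast_one]
      simp [sv]
    · rw [h1.1 rfl, Nat.cast_add, Nat.cast_one]
      simp [sv]
  · rw [Function.update_of_ne hj]
    simp [sv, hj]

theorem un_evn {d k s : ℕ} (hs : 1 ≤ s) (hk : s ≤ k) (T : Fin d → Fin (2 ^ (k + 1 - s))) (u : BxV d (2 ^ s)) :
    evn (un (k := k) T u) ↔ bev u := by
  obtain ⟨h, m, e1, e2, e3, e4, e5, e6, e7⟩ := A05_pow hs hk
  have hi : ∀ i, (un (k := k) T u i).val % 2 = (u i).val % 2 := by
    intro i
    have hle := A05_le u i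
    rw [A05_un, ZMod.val_natCast]
    generalize (u i).val = v at hle
    rw [e3, show 2 ^ s * (2 * m) = 2 * (2 ^ s * m) by ring, Nat.mod_mul_right_mod, e1]
    rw [e1] at hle
    exact A05_par h _ _ hle
  unfold evn bev
  rw [Nat.even_iff, Nat.even_iff, Finset.sum_nat_mod, Finset.sum_nat_mod univ 2 fun i => (u i).val]
  simp only [hi]

/-- the blocks of the tiles -/
theorem unB_bij {d k s : ℕ} (hs : 1 ≤ s) (hk : s ≤ k) : Function.Bijective
    (fun p : (Fin d → Fin (2 ^ (k + 1 - s))) × (Fin d → Fin (2 ^ s / 2)) => (unB p.1 p.2 : Blk d k)) := by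
  obtain ⟨h, m, e1, e2, e3, e4, e5, e6, e7⟩ := A05_pow hs hk
  have hT : ∀ T : Fin (2 ^ (k + 1 - s)), h * T.val + h ≤ 2 ^ k := by
    intro T
    have h1 := T.isLt
    rw [e4]
    have := Nat.mul_le_mul_left h (show T.val + 1 ≤ 2 * m by omega)
    rw [Nat.mul_add] at this
    omega
  have hval : ∀ (T : Fin d → Fin (2 ^ (k + 1 - s))) (t : Fin d → Fin (2 ^ s / 2)) (i : Fin d),
      ((unB (k := k) T t i).val : ℕ) =
      (if (T i).val % 2 = 1 then h * ((T i).val + 1) - 1 - (t i).val else h * (T i).val + (t i).val) := by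
    intro T t i
    have ht := (t i).isLt
    have hT := hT (T i)
    unfold unB
    generalize (t i).val = r at ht
    rw [e7] at ht ⊢
    apply ZMod.val_natCast_of_lt
    split_ifs
    · rw [Nat.mul_add]
      omega
    · omega
  constructor
  · rintro ⟨T, t⟩ ⟨T', t'⟩ he
    have he' : ∀ i, T i = T' i ∧ t i = t' i := by
      intro i
      have h1 := congrArg ZMod.val (congrFun he i)
      simp only at h1
      rw [hval, hval] at h1
      have ht := (t i).isLt
      have ht' := (t' i).isLt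
      have key : (T i).val = (T' i).val := by
        rcases Nat.lt_trichotomy (T i).val (T' i).val with h2 | h2 | h2
        · have h3 := Nat.mul_le_mul_left h (show (T i).val + 1 ≤ (T' i).val from h2)
          rw [Nat.mul_add] at h3
          split_ifs at h1 <;> (try simp only [Nat.mul_add] at h1) <;> omega
        · exact h2
        · have h3 := Nat.mul_le_mul_left h (show (T' i).val + 1 ≤ (T i).val from h2)
          rw [Nat.mul_add] at h3
          split_ifs at h1 <;> (try simp only [Nat.mul_add] at h1) <;> omega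
      refine ⟨Fin.ext key, Fin.ext ?_⟩
      rw [key] at h1
      split_ifs at h1 <;> (try simp only [Nat.mul_add] at h1) <;> omega
    exact Prod.ext (funext fun i => (he' i).1) (funext fun i => (he' i).2)
  · intro b
    have hh : 0 < h := e5
    have hT' : ∀ i, (b i).val / h < 2 ^ (k + 1 - s) := by
      intro i
      rw [e2]
      apply Nat.div_lt_of_lt_mul
      rw [← e4]
      exact ZMod.val_lt _
    have hr : ∀ i, (b i).val % h < h := fun i => Nat.mod_lt _ hh
    have ht' : ∀ i, (if (b i).val / h % 2 = 1 then h - 1 - (b i).val % h else (b i).val % h) < 2 ^ s / 2 := by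
      intro i
      have := hr i
      split_ifs <;> omega
    refine ⟨(fun i => ⟨(b i).val / h, hT' i⟩, fun i => ⟨_, ht' i⟩), funext fun i => ?_⟩
    apply ZMod.val_injective
    simp only
    rw [hval]
    simp only
    have hdm := Nat.div_add_mod (b i).val h
    have := hr i
    split_ifs
    · rw [Nat.mul_add]
      omega
    · omega

theorem card_bdy (d l : ℕ) (hl : 1 ≤ l) : (bdy d l).card = (l + 1) ^ d - (l - 1) ^ d := by
  classical
  have h1 : (bdy d l) = univ \ (Fintype.piFinset fun _ : Fin d => univ.filter fun a : Fin (l + 1) => a.val ≠ 0 ∧ a.val ≠ l) := by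
    ext u
    simp only [bdy, Finset.mem_filter, Finset.mem_univ, true_and, Finset.mem_sdiff, Fintype.mem_piFinset, not_forall,
      not_and_or, ne_eq, not_not]
  have h2 : (univ.filter fun a : Fin (l + 1) => a.val ≠ 0 ∧ a.val ≠ l).card = l - 1 := by
    have h3 : (univ.filter fun a : Fin (l + 1) => a.val ≠ 0 ∧ a.val ≠ l) = univ \ {0, Fin.last l} := by
      ext a
      simp only [Finset.mem_filter, Finset.mem_univ, true_and, Finset.mem_sdiff, Finset.mem_insert, Finset.mem_singleton,
        Fin.ext_iff, Fin.val_zero, Fin.val_last, not_or, ne_eq]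
    rw [h3, Finset.card_sdiff_of_subset (Finset.subset_univ _), Finset.card_univ, Fintype.card_fin,
      Finset.card_pair]
    · omega
    · intro h4
      have := congrArg Fin.val h4
      simp at this
      omega
  rw [h1, Finset.card_sdiff_of_subset (Finset.subset_univ _), Finset.card_univ, Fintype.card_piFinset]
  simp only [h2, Finset.prod_const, Finset.card_univ, Fintype.card_fin, Fintype.card_fun]

end Pool.Agent.LC
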