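import Pool.Agent.Lib_MP_2c424f_lc2.Defs

/-!
# LC2 A08: typicality is local

`κ` injective; near `u` the neighbours of `κ x` are the images of the neighbours of `x` (`x = u` and all neighbours `x` of `u`).
Then `nb X (κ x)` is the image of `nb H x`, `Rv`, `Rc`, `nv`, `nc` agree at these `x` (with `F ∘ κ`), so `TyO`, `TyE` agree.
-/

set_option autoImplicit false

open Finset Filter

namespace Pool.Agent.LC

open Pool.Agent.LO Pool.Agent.LIN Pool.Agent.THR Pool.Agent.COR

private theorem nb_map {V W : Type} [Fintype V] [Fintype W] (H : SimpleGraph W) (X : SimpleGraph V)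
    (κ : W → V) (hinj : Function.Injective κ) (x : W)
    (hx : ∀ v, X.Adj (κ x) v ↔ ∃ y, v = κ y ∧ H.Adj x y) :
    nb X (κ x) = (nb H x).map ⟨κ, hinj⟩ := by
  classical
  ext v
  simp only [nb, mem_filter, mem_univ, true_and, Finset.mem_map, Function.Embedding.coeFn_mk]
  rw [hx v]
  constructor
  · rintro ⟨y, rfl, hy⟩
    exact ⟨y, hy, rfl⟩
  · rintro ⟨y, hy, rfl⟩
    exact ⟨y, rfl, hy⟩

private theorem Rv_map {V W : Type} [Fintype V] [Fintype W] {q : ℕ} (H : SimpleGraph W) (X : SimpleGraph V)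
    (κ : W → V) (F : V → Fin q) (x : W)
    (hx : ∀ v, X.Adj (κ x) v ↔ ∃ y, v = κ y ∧ H.Adj x y) :
    Rv X F (κ x) = Rv H (fun w => F (κ w)) x := by
  classical
  ext c
  simp only [Rv, mem_filter, mem_univ, true_and]
  constructor
  · intro h y hy
    exact h (κ y) ((hx (κ y)).2 ⟨y, rfl, hy⟩)
  · intro h v hv
    obtain ⟨y, rfl, hy⟩ := (hx v).1 hv
    exact h y hy

private theorem Rc_map {V W : Type} [Fintype V] [Fintype W] {q : ℕ} (H : SimpleGraph W) (X : SimpleGraph V)
    (κ : W → V) (hinj : Function.Injective κ) (F : V → Fin q) (x u : W)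
    (hx : ∀ v, X.Adj (κ x) v ↔ ∃ y, v = κ y ∧ H.Adj x y) :
    Rc X F (κ x) (κ u) = Rc H (fun w => F (κ w)) x u := by
  classical
  ext c
  simp only [Rc, mem_filter, mem_univ, true_and]
  constructor
  · intro h y hy hyu
    exact h (κ y) ((hx (κ y)).2 ⟨y, rfl, hy⟩) (fun e => hyu (hinj e))
  · intro h v hv hvu
    obtain ⟨y, rfl, hy⟩ := (hx v).1 hv
    exact h y hy (fun e => hvu (by rw [e]))

private theorem nv_map {V W : Type} [Fintype V] [Fintype W] {q : ℕ} (H : SimpleGraph W) (X : SimpleGraph V)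
    (κ : W → V) (hinj : Function.Injective κ) (F : V → Fin q) (x : W) (c : Fin q)
    (hx : ∀ v, X.Adj (κ x) v ↔ ∃ y, v = κ y ∧ H.Adj x y) :
    nv X F (κ x) c = nv H (fun w => F (κ w)) x c := by
  classical
  unfold nv
  rw [← card_map (⟨κ, hinj⟩ : W ↪ V)]
  congr 1
  ext v
  simp only [mem_filter, mem_univ, true_and, Finset.mem_map, Function.Embedding.coeFn_mk]
  constructor
  · rintro ⟨hv, hc⟩
    obtain ⟨y, rfl, hy⟩ := (hx v).1 hv
    exact ⟨y, ⟨hy, hc⟩, rfl⟩
  · rintro ⟨y, ⟨hy, hc⟩, rfl⟩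
    exact ⟨(hx _).2 ⟨y, rfl, hy⟩, hc⟩

private theorem nc_map {V W : Type} [Fintype V] [Fintype W] {q : ℕ} (H : SimpleGraph W) (X : SimpleGraph V)
    (κ : W → V) (hinj : Function.Injective κ) (F : V → Fin q) (x u : W) (c : Fin q)
    (hx : ∀ v, X.Adj (κ x) v ↔ ∃ y, v = κ y ∧ H.Adj x y) :
    nc X F (κ x) (κ u) c = nc H (fun w => F (κ w)) x u c := by
  classical
  unfold nc
  rw [← card_map (⟨κ, hinj⟩ : W ↪ V)]
  congr 1
  ext v
  simp only [mem_filter, mem_univ, true_and, Finset.mem_map, Function.Embedding.coeFn_mk]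
  constructor
  · rintro ⟨hv, hvu, hc⟩
    obtain ⟨y, rfl, hy⟩ := (hx v).1 hv
    exact ⟨y, ⟨hy, fun e => hvu (by rw [e]), hc⟩, rfl⟩
  · rintro ⟨y, ⟨hy, hyu, hc⟩, rfl⟩
    exact ⟨(hx _).2 ⟨y, rfl, hy⟩, fun e => hyu (hinj e), hc⟩

theorem Ty_map {V W : Type} [Fintype V] [Fintype W] {d q : ℕ} (H : SimpleGraph W) (X : SimpleGraph V) (ev : V → Prop)
    (evW : W → Prop) (κ : W → V) (hinj : Function.Injective κ) (hpar : ∀ x, ev (κ x) ↔ evW x) (A : Finset (Fin q))
    (F : V → Fin q) (u : W)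
    (hu : ∀ v, X.Adj (κ u) v ↔ ∃ x, v = κ x ∧ H.Adj u x)
    (hx : ∀ x, H.Adj u x → ∀ v, X.Adj (κ x) v ↔ ∃ y, v = κ y ∧ H.Adj x y) :
    Ty d X ev A F (κ u) ↔ Ty d H evW A (fun w => F (κ w)) u := by
  classical
  have htS : ∀ c, tS ev A (κ u) c ↔ tS evW A u c := by
    intro c
    unfold tS
    rw [hpar u]
  have hnb : nb X (κ u) = (nb H u).map ⟨κ, hinj⟩ := nb_map H X κ hinj u hu
  have hRv : Rv X F (κ u) = Rv H (fun w => F (κ w)) u := Rv_map H X κ F u hu
  have hnv : ∀ c, nv X F (κ u) c = nv H (fun w => F (κ w)) u c := fun c => nv_map H X κ hinj F u c hu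
  have hadj : ∀ x, x ∈ nb H u → H.Adj u x := by
    intro x hxm
    simpa [nb] using hxm
  have hO : TyO d X ev A F (κ u) ↔ TyO d H evW A (fun w => F (κ w)) u := by
    have h1 : ∀ c, (((nb X (κ u)).filter fun x => c ∈ Rc X F x (κ u)).card : ℝ) =
        (((nb H u).filter fun x => c ∈ Rc H (fun w => F (κ w)) x u).card : ℝ) := by
      intro c
      congr 1
      rw [hnb, filter_map, card_map]
      congr 1
      apply filter_congr
      intro x hxm
      simp only [Function.comp, Function.Embedding.coeFn_mk]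
      rw [Rc_map H X κ hinj F x u (hx x (hadj x hxm))]
    have h2 : ∀ (φ : ℕ → ℝ) (c : Fin q), ∑ x ∈ nb X (κ u), φ (nc X F x (κ u) c) =
        ∑ x ∈ nb H u, φ (nc H (fun w => F (κ w)) x u c) := by
      intro φ c
      rw [hnb, sum_map]
      apply sum_congr rfl
      intro x hxm
      simp only [Function.Embedding.coeFn_mk]
      rw [nc_map H X κ hinj F x u c (hx x (hadj x hxm))]
    constructor
    · intro h
      refine ⟨?_, ?_, ?_⟩
      · intro c hc
        rw [← h1 c]
        exact h.o1 c ((htS c).2 hc)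
      · intro c
        rw [← h2 (fun n => (n : ℝ) ^ 2) c]
        exact h.o2 c
      · intro c hc
        rw [← h2 (fun n => (n : ℝ)) c]
        exact h.o3 c (fun e => hc ((htS c).1 e))
    · intro h
      refine ⟨?_, ?_, ?_⟩
      · intro c hc
        rw [h1 c]
        exact h.o1 c ((htS c).1 hc)
      · intro c
        rw [h2 (fun n => (n : ℝ) ^ 2) c]
        exact h.o2 c
      · intro c hc
        rw [h2 (fun n => (n : ℝ)) c]
        exact h.o3 c (fun e => hc ((htS c).2 e))
  have hE : TyE d X ev A F (κ u) ↔ TyE d H evW A (fun w => F (κ w)) u := by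
    have h2 : (Rv X F (κ u)).filter (fun c => ¬ tS ev A (κ u) c) =
        (Rv H (fun w => F (κ w)) u).filter (fun c => ¬ tS evW A u c) := by
      rw [hRv]
      apply filter_congr
      intro c _
      rw [htS c]
    have h4 : univ.filter (fun c => tS ev A (κ u) c) = univ.filter (fun c => tS evW A u c) := by
      apply filter_congr
      intro c _
      rw [htS c]
    constructor
    · intro h
      refine ⟨?_, ?_, ?_, ?_⟩
      · rw [← hRv]
        exact h.e1
      · rw [← h2]
        exact h.e2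
      · simp only [← hnv]
        exact h.e3
      · rw [← h4]
        simp only [← hnv]
        exact h.e4
    · intro h
      refine ⟨?_, ?_, ?_, ?_⟩
      · rw [hRv]
        exact h.e1
      · rw [h2]
        exact h.e2
      · simp only [hnv]
        exact h.e3
      · rw [h4]
        simp only [hnv]
        exact h.e4
  unfold Ty
  rw [hO, hE]

end Pool.Agent.LC
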