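import Pool.Agent.Lib_MP_2c424f_lc2.A01
import Pool.Agent.Lib_MP_2c424f_lc2.A05
import Pool.Agent.Lib_MP_2c424f_lc2.A08

/-!
# LC2 A09: the box event in all tiles

`M` tiles, `n' = 2^s / 2` blocks per direction in a tile, `M n'^d = (2^k)^d`.  For every tile the first or the second alternative of
`EvB` holds; so one of the two holds in at least half of the tiles.
* first: the pattern of the block `t` of the tile `T` is `rP (tb T) (pat f (unB T t))` (`un_bpt`, `xr_xr`), so `GDP` is the same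
  (`GDP_rP`); sum over the tiles with `unB_bij`.
* second: the same for `G0P`, `ALP`; at points with `inn 3` `Ty_map` applies with `κ = un T` (`un_glue`, `un_adj`, `un_nbr`: all
  points within distance 2 are at distance `≥ 1` from the boundary; `un_evn`), and `un T (bpt t a b) = pt (unB T t) (xr ..) (xr ..)`; the
  map `(T, t, a, b) ↦ (unB T t, xr (tb T) a, xr (tb T) b)` is injective.
`2 / d^(K+1) ≤ 1 / d^K` for `d ≥ 2`.
-/

set_option autoImplicit false

open Finset Filter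

namespace Pool.Agent.LC

open Pool.Agent.LO Pool.Agent.LIN Pool.Agent.THR Pool.Agent.COR

private theorem A09_sum {ι : Type*} [Fintype ι] {x : ℝ} {g : ι → ℝ} {S : Finset ι} (hS : S.Nonempty)
    (h : ∀ T ∈ S, x < g T) (h0 : ∀ T, 0 ≤ g T) : (S.card : ℝ) * x < ∑ T, g T := by
  have h1 : (S.card : ℝ) * x = ∑ _T ∈ S, x := by
    rw [Finset.sum_const, nsmul_eq_mul]
  have h2 : ∑ _T ∈ S, x < ∑ T ∈ S, g T := Finset.sum_lt_sum_of_nonempty hS h
  have h3 : ∑ T ∈ S, g T ≤ ∑ T, g T :=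
    Finset.sum_le_sum_of_subset_of_nonneg (Finset.subset_univ S) fun T _ _ => h0 T
  linarith

private theorem A09_arith {d k s K : ℕ} (hd : 2 ≤ d) (hs : 1 ≤ s) (hk : s ≤ k) {c : ℝ}
    (hc : ((2 : ℝ) ^ (k + 1 - s)) ^ d ≤ 2 * c) {w : ℝ} (hw : 0 ≤ w) :
    w * (2 ^ k) ^ d / (d : ℝ) ^ (K + 1) ≤ c * (w * ((2 ^ s / 2 : ℕ) : ℝ) ^ d / (d : ℝ) ^ K) := by
  obtain ⟨r, rfl⟩ : ∃ r, s = r + 1 := ⟨s - 1, by omega⟩
  have e1 : (2 ^ (r + 1) / 2 : ℕ) = 2 ^ r := by
    rw [pow_succ]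
    omega
  rw [e1]
  push_cast
  have e2 : ((2 : ℝ) ^ k) ^ d = ((2 : ℝ) ^ (k + 1 - (r + 1))) ^ d * ((2 : ℝ) ^ r) ^ d := by
    rw [← mul_pow, ← pow_add]
    congr 2
    omega
  have hd0 : (0 : ℝ) < d := by
    have : 0 < d := by omega
    exact_mod_cast this
  have hd2 : (2 : ℝ) ≤ d := by exact_mod_cast hd
  have hK : (0 : ℝ) < (d : ℝ) ^ K := pow_pos hd0 K
  have hr : (0 : ℝ) < ((2 : ℝ) ^ r) ^ d := by positivity
  rw [e2, pow_succ (d : ℝ) K, div_le_iff₀ (by positivity)]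
  have e3 : c * (w * ((2 : ℝ) ^ r) ^ d / (d : ℝ) ^ K) * ((d : ℝ) ^ K * d) =
      c * w * ((2 : ℝ) ^ r) ^ d * d := by
    field_simp
  rw [e3]
  have hc0 : 0 ≤ c := by
    have : (0 : ℝ) < ((2 : ℝ) ^ (k + 1 - (r + 1))) ^ d := by positivity
    linarith
  have h1 : 2 * c ≤ d * c := mul_le_mul_of_nonneg_right hd2 hc0
  have h2 : ((2 : ℝ) ^ (k + 1 - (r + 1))) ^ d ≤ d * c := hc.trans h1
  calc w * (((2 : ℝ) ^ (k + 1 - (r + 1))) ^ d * ((2 : ℝ) ^ r) ^ d)
      = (w * ((2 : ℝ) ^ r) ^ d) * ((2 : ℝ) ^ (k + 1 - (r + 1))) ^ d := by ring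
    _ ≤ (w * ((2 : ℝ) ^ r) ^ d) * (d * c) := mul_le_mul_of_nonneg_left h2 (by positivity)
    _ = c * w * ((2 : ℝ) ^ r) ^ d * d := by ring

private theorem A09_pat {d k s q : ℕ} (hs : 1 ≤ s) (hk : s ≤ k) (f : Site d (k + 1) → Fin q)
    (T : Fin d → Fin (2 ^ (k + 1 - s))) (t : Fin d → Fin (2 ^ s / 2)) :
    (fun a b => f (un T (bpt t a b))) = rP (tb T) (pat f (unB T t)) := by
  funext a b
  rw [un_bpt hs hk]
  rfl

private theorem A09_Ty {d k s q : ℕ} (hs : 1 ≤ s) (hk : s ≤ k) (f : Site d (k + 1) → Fin q)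
    (T : Fin d → Fin (2 ^ (k + 1 - s))) (A : Finset (Fin q)) (u : BxV d (2 ^ s)) (hu : inn 3 u) :
    Ty d (tG d (k + 1)) evn A f (un T u) ↔ Ty d (bG d (2 ^ s)) bev A (fun w => f (un T w)) u := by
  have hinn : ∀ x, (bG d (2 ^ s)).Adj u x → inn 1 x := by
    rintro x ⟨i, hj, hi⟩ j
    by_cases hji : j = i
    · subst hji
      have := hu j
      rcases hi with hi | hi <;> constructor <;> omega
    · have := hu j
      rw [← hj j hji]
      constructor <;> omega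
  have hu1 : inn 1 u := fun j => ⟨by have := (hu j).1; omega, by have := (hu j).2; omega⟩
  have key : ∀ x, inn 1 x → ∀ v, (tG d (k + 1)).Adj (un T x) v ↔
      ∃ y, v = un T y ∧ (bG d (2 ^ s)).Adj x y := by
    intro x hx v
    constructor
    · intro hv
      obtain ⟨y, rfl⟩ := un_nbr hs hk T x hx v hv
      exact ⟨y, rfl, (un_adj hs hk T x y).1 hv⟩
    · rintro ⟨y, rfl, hy⟩
      exact (un_adj hs hk T x y).2 hy
  exact Ty_map (bG d (2 ^ s)) (tG d (k + 1)) evn bev (un T)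
    (fun x y hxy => un_glue hs hk T T x y hxy) (un_evn hs hk T) A f u (key u hu1)
    fun x hx => key x (hinn x hx)

open scoped Classical in
private theorem A09_first {d k s q : ℕ} (hs : 1 ≤ s) (hk : s ≤ k) (f : Site d (k + 1) → Fin q) :
    ∑ T : Fin d → Fin (2 ^ (k + 1 - s)), ((univ.filter fun t : Fin d → Fin (2 ^ s / 2) =>
      ¬ GDP (fun a b => f (un T (bpt t a b)))).card : ℝ) =
      ((univ.filter fun t : Blk d k => ¬ GDP (pat f t)).card : ℝ) := by
  rw [← Nat.cast_sum, Nat.cast_inj, ← Finset.card_sigma]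
  refine Finset.card_bij (fun p _ => (unB p.1 p.2 : Blk d k)) ?_ ?_ ?_
  · rintro ⟨T, t⟩ hp
    simp only [Finset.mem_sigma, Finset.mem_univ, true_and, Finset.mem_filter] at hp
    simp only [Finset.mem_filter, Finset.mem_univ, true_and]
    rwa [A09_pat hs hk, GDP_rP] at hp
  · rintro ⟨T, t⟩ _ ⟨T', t'⟩ _ h
    have := (unB_bij (d := d) hs hk).1 (a₁ := (T, t)) (a₂ := (T', t')) h
    simp only [Prod.mk.injEq] at this
    obtain ⟨rfl, rfl⟩ := this
    rfl
  · intro b hb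
    obtain ⟨⟨T, t⟩, rfl⟩ := (unB_bij (d := d) hs hk).2 b
    refine ⟨⟨T, t⟩, ?_, rfl⟩
    simp only [Finset.mem_filter, Finset.mem_univ, true_and] at hb
    simp only [Finset.mem_sigma, Finset.mem_univ, true_and, Finset.mem_filter]
    rwa [A09_pat hs hk, GDP_rP]

open scoped Classical in
private theorem A09_second {d k s q : ℕ} (hs : 1 ≤ s) (hk : s ≤ k) (f : Site d (k + 1) → Fin q) :
    ∑ T : Fin d → Fin (2 ^ (k + 1 - s)),
      ((univ.filter fun p : (Fin d → Fin (2 ^ s / 2)) × Bt d × Bt d => inn 3 (bpt p.1 p.2.1 p.2.2) ∧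
        G0P (fun a b => f (un T (bpt p.1 a b))) ∧
        ¬ Ty d (bG d (2 ^ s)) bev (ALP (fun a b => f (un T (bpt p.1 a b)))) (fun u => f (un T u))
          (bpt p.1 p.2.1 p.2.2)).card : ℝ) ≤ (nAt f : ℝ) := by
  rw [← Nat.cast_sum, Nat.cast_le, ← Finset.card_sigma]
  unfold nAt
  refine Finset.card_le_card_of_injOn
    (fun p => ((unB p.1 p.2.1 : Blk d k), xr (tb p.1) p.2.2.1, xr (tb p.1) p.2.2.2)) ?_ ?_
  · rintro ⟨T, t, a, b⟩ hp
    simp only [Finset.coe_sigma, Set.mem_sigma_iff, Finset.coe_univ, Set.mem_univ, true_and,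
      Finset.coe_filter, Finset.mem_univ, Set.mem_setOf_eq] at hp
    simp only [Finset.coe_filter, Finset.mem_univ, true_and, Set.mem_setOf_eq]
    obtain ⟨h1, h2, h3⟩ := hp
    rw [A09_pat hs hk, G0P_rP] at h2
    rw [A09_pat hs hk, ALP_rP, ← A09_Ty hs hk f T _ _ h1, un_bpt hs hk] at h3
    exact ⟨h2, h3⟩
  · rintro ⟨T, t, a, b⟩ _ ⟨T', t', a', b'⟩ _ h
    simp only [Prod.mk.injEq] at h
    obtain ⟨h1, h2, h3⟩ := h
    have := (unB_bij (d := d) hs hk).1 (a₁ := (T, t)) (a₂ := (T', t')) h1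
    simp only [Prod.mk.injEq] at this
    obtain ⟨rfl, rfl⟩ := this
    have h4 := congrArg (xr (tb T)) h2
    have h5 := congrArg (xr (tb T)) h3
    rw [xr_xr, xr_xr] at h4 h5
    rw [h4, h5]

open scoped Classical in
theorem EvB_torus {d k s q : ℕ} (hd : 2 ≤ d) (hs : 1 ≤ s) (hk : s ≤ k) (K : ℕ) (f : Site d (k + 1) → Fin q)
    (h : ∀ T : Fin d → Fin (2 ^ (k + 1 - s)), EvB K fun u : BxV d (2 ^ s) => f (un T u)) :
    ((2 : ℝ) ^ k) ^ d / (d : ℝ) ^ (K + 1) < ((univ.filter fun t : Blk d k => ¬ GDP (pat f t)).card : ℝ) ∨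
      (4 : ℝ) ^ d * (2 ^ k) ^ d / (d : ℝ) ^ (K + 1) < (nAt f : ℝ) := by
  set P : (Fin d → Fin (2 ^ (k + 1 - s))) → Prop := fun T =>
    (((2 ^ s / 2 : ℕ) : ℝ) ^ d / (d : ℝ) ^ K <
      ((univ.filter fun t : Fin d → Fin (2 ^ s / 2) => ¬ GDP (fun a b => f (un T (bpt t a b)))).card : ℝ))
    with hP
  have hcard : (Fintype.card (Fin d → Fin (2 ^ (k + 1 - s))) : ℝ) = ((2 : ℝ) ^ (k + 1 - s)) ^ d := by
    rw [Fintype.card_fun, Fintype.card_fin, Fintype.card_fin]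
    push_cast
    rfl
  have hsum : ((univ.filter P).card : ℝ) + ((univ.filter fun T => ¬ P T).card : ℝ) =
      ((2 : ℝ) ^ (k + 1 - s)) ^ d := by
    rw [← hcard, ← Nat.cast_add, Finset.card_filter_add_card_filter_not, Finset.card_univ]
  have hpos : (0 : ℝ) < ((2 : ℝ) ^ (k + 1 - s)) ^ d := by positivity
  by_cases hc : ((2 : ℝ) ^ (k + 1 - s)) ^ d ≤ 2 * ((univ.filter P).card : ℝ)
  · left
    have hne : (univ.filter P).Nonempty := by
      rw [← Finset.card_pos]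
      have : (0 : ℝ) < ((univ.filter P).card : ℝ) := by linarith
      exact_mod_cast this
    have h1 := A09_sum hne (fun T hT => (Finset.mem_filter.1 hT).2) fun T => Nat.cast_nonneg _
    rw [A09_first hs hk] at h1
    have h2 := A09_arith (K := K) hd hs hk hc (w := 1) zero_le_one
    rw [one_mul, one_mul] at h2
    exact h2.trans_lt h1
  · right
    rw [not_le] at hc
    have hc' : ((2 : ℝ) ^ (k + 1 - s)) ^ d ≤ 2 * ((univ.filter fun T => ¬ P T).card : ℝ) := by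
      linarith
    have hne : (univ.filter fun T => ¬ P T).Nonempty := by
      rw [← Finset.card_pos]
      have : (0 : ℝ) < ((univ.filter fun T => ¬ P T).card : ℝ) := by linarith
      exact_mod_cast this
    have h1 := A09_sum (x := 4 ^ d * ((2 ^ s / 2 : ℕ) : ℝ) ^ d / (d : ℝ) ^ K)
      (g := fun T => ((univ.filter fun p : (Fin d → Fin (2 ^ s / 2)) × Bt d × Bt d =>
        inn 3 (bpt p.1 p.2.1 p.2.2) ∧ G0P (fun a b => f (un T (bpt p.1 a b))) ∧
        ¬ Ty d (bG d (2 ^ s)) bev (ALP (fun a b => f (un T (bpt p.1 a b)))) (fun u => f (un T u))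
          (bpt p.1 p.2.1 p.2.2)).card : ℝ)) hne (fun T hT => by
        rcases h T with h1 | h1
        · exact absurd h1 (Finset.mem_filter.1 hT).2
        · exact h1) fun T => Nat.cast_nonneg _
    have h2 := A09_arith (K := K) hd hs hk hc' (w := 4 ^ d) (by positivity)
    exact h2.trans_lt (h1.trans_le (A09_second hs hk f))

end Pool.Agent.LC
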