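import Pool.Agent.Lib_MP_2c424f_lc2.A04
import Pool.Agent.Lib_MP_2c424f_lc2.A06
import Pool.Agent.Lib_MP_2c424f_lc2.A07
import Pool.Agent.Lib_MP_2c424f_lc2.A09

/-!
# LC2 A10: the box event is rare

Fix `d`, `q`, `s` and take `k` large.  By `EvB_torus`, `few_bad (K+1)` and `typ (K+1)` the set `{∀ T, EvB K (f ∘ un T)}` has at most
`2 Z exp (-N/d^C) ≤ Z exp (-N/d^(C+1))` elements (`N = (2^(k+1))^d` is huge), so with `tile_lower`, `tile_upper` (`M` tiles, `N = M (2^s)^d`):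
`(cG E)^M ≤ (q^|bdy| cG True exp (-(2^s)^d/d^(C+1)))^M`; take the `M`-th root (`pow_le_pow_left` / `lt_of_pow_lt_pow_left`); `card_bdy`.
-/

set_option autoImplicit false

open Finset Filter

namespace Pool.Agent.LC

open Pool.Agent.LO Pool.Agent.LIN Pool.Agent.THR Pool.Agent.COR

private theorem A10_mono {C C' d k q : ℕ} (hd : 1 ≤ d) (h : C ≤ C') {P : (Site d k → Fin q) → Prop}
    (hP : Rar C d k q P) : Rar C' d k q P := by
  unfold Rar at hP ⊢
  refine hP.trans ?_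
  have hd' : (1 : ℝ) ≤ d := by exact_mod_cast hd
  have hZ : 0 ≤ ZZ d k q := by
    unfold ZZ
    positivity
  refine mul_le_mul_of_nonneg_left ?_ hZ
  rw [Real.exp_le_exp, neg_le_neg_iff]
  have hN : 0 ≤ NN d k := by
    unfold NN
    positivity
  have h1 : (d : ℝ) ^ C ≤ (d : ℝ) ^ C' := pow_le_pow_right₀ hd' h
  have h2 : 0 < (d : ℝ) ^ C := by positivity
  exact div_le_div_of_nonneg_left hN h2 h1

open scoped Classical in
/-- the colourings all of whose tiles have the box event -/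
private theorem A10_torus {d k s q K C : ℕ} (hd : 2 ≤ d) (hs : 1 ≤ s) (hk : s ≤ k)
    (h1 : Rar C d (k + 1) q fun f =>
      ((2 : ℝ) ^ k) ^ d / (d : ℝ) ^ (K + 1) < ((univ.filter fun t : Blk d k => ¬ GDP (pat f t)).card : ℝ))
    (h2 : Rar C d (k + 1) q fun f =>
      (4 : ℝ) ^ d * (2 ^ k) ^ d / (d : ℝ) ^ (K + 1) < (nAt f : ℝ))
    (hbig : 2 * d ^ C ≤ k) :
    (((prps d (k + 1) q).filter fun f => ∀ T : Fin d → Fin (2 ^ (k + 1 - s)),
      EvB K fun u : BxV d (2 ^ s) => f (un T u)).card : ℝ) ≤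
      ZZ d (k + 1) q * Real.exp (-(NN d (k + 1) / (d : ℝ) ^ (C + 1))) := by
  unfold Rar at h1 h2
  have hsub : ((prps d (k + 1) q).filter fun f => ∀ T : Fin d → Fin (2 ^ (k + 1 - s)),
      EvB K fun u : BxV d (2 ^ s) => f (un T u)) ⊆
      ((prps d (k + 1) q).filter fun f =>
        ((2 : ℝ) ^ k) ^ d / (d : ℝ) ^ (K + 1) < ((univ.filter fun t : Blk d k => ¬ GDP (pat f t)).card : ℝ)) ∪
      ((prps d (k + 1) q).filter fun f =>
        (4 : ℝ) ^ d * (2 ^ k) ^ d / (d : ℝ) ^ (K + 1) < (nAt f : ℝ)) := by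
    intro f hf
    rw [mem_filter] at hf
    rw [mem_union, mem_filter, mem_filter]
    rcases EvB_torus hd hs hk K f hf.2 with h | h
    · exact Or.inl ⟨hf.1, h⟩
    · exact Or.inr ⟨hf.1, h⟩
  have hcard : (((prps d (k + 1) q).filter fun f => ∀ T : Fin d → Fin (2 ^ (k + 1 - s)),
      EvB K fun u : BxV d (2 ^ s) => f (un T u)).card : ℝ) ≤
      (((prps d (k + 1) q).filter fun f =>
        ((2 : ℝ) ^ k) ^ d / (d : ℝ) ^ (K + 1) < ((univ.filter fun t : Blk d k => ¬ GDP (pat f t)).card : ℝ)).card : ℝ) +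
      (((prps d (k + 1) q).filter fun f =>
        (4 : ℝ) ^ d * (2 ^ k) ^ d / (d : ℝ) ^ (K + 1) < (nAt f : ℝ)).card : ℝ) := by
    have := (card_le_card hsub).trans (card_union_le _ _)
    exact_mod_cast this
  refine hcard.trans ((add_le_add h1 h2).trans ?_)
  have hZ : 0 ≤ ZZ d (k + 1) q := by
    unfold ZZ
    positivity
  rw [← mul_add]
  refine mul_le_mul_of_nonneg_left ?_ hZ
  have hd' : (2 : ℝ) ≤ d := by exact_mod_cast hd
  have hN : (2 : ℝ) * (d : ℝ) ^ C ≤ NN d (k + 1) := by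
    have u1 : ((2 * d ^ C : ℕ) : ℝ) ≤ (k : ℝ) := by exact_mod_cast hbig
    have u2 : (k : ℝ) ≤ (2 : ℝ) ^ (k + 1) := by
      have : k ≤ 2 ^ (k + 1) := (Nat.le_succ k).trans (Nat.lt_two_pow_self).le
      exact_mod_cast this
    have u3 : (2 : ℝ) ^ (k + 1) ≤ NN d (k + 1) := by
      unfold NN
      exact le_self_pow₀ (one_le_pow₀ (by norm_num)) (by omega)
    push_cast at u1
    linarith
  have hdC : 0 < (d : ℝ) ^ C := by positivity
  have e1 : 1 ≤ NN d (k + 1) / (d : ℝ) ^ C - NN d (k + 1) / (d : ℝ) ^ (C + 1) := by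
    have v1 : NN d (k + 1) / (d : ℝ) ^ (C + 1) = NN d (k + 1) / (d : ℝ) ^ C / d := by
      rw [pow_succ, div_div]
    have v2 : 2 ≤ NN d (k + 1) / (d : ℝ) ^ C := by
      rw [le_div_iff₀ hdC]
      exact hN
    have v3 : NN d (k + 1) / (d : ℝ) ^ C / d ≤ NN d (k + 1) / (d : ℝ) ^ C / 2 :=
      div_le_div_of_nonneg_left (by linarith) (by norm_num) hd'
    rw [v1]
    linarith
  have e2 : (2 : ℝ) ≤ Real.exp 1 := by
    have := Real.add_one_le_exp (1 : ℝ)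
    linarith
  have e3 : Real.exp 1 * Real.exp (-(NN d (k + 1) / (d : ℝ) ^ C)) ≤
      Real.exp (-(NN d (k + 1) / (d : ℝ) ^ (C + 1))) := by
    rw [← Real.exp_add, Real.exp_le_exp]
    linarith
  have e4 : 2 * Real.exp (-(NN d (k + 1) / (d : ℝ) ^ C)) ≤
      Real.exp 1 * Real.exp (-(NN d (k + 1) / (d : ℝ) ^ C)) :=
    mul_le_mul_of_nonneg_right e2 (Real.exp_pos _).le
  linarith

private theorem A10_card {d k s : ℕ} :
    Fintype.card (Fin d → Fin (2 ^ (k + 1 - s))) = (2 ^ (k + 1 - s)) ^ d := by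
  simp

private theorem A10_NN {d k s : ℕ} (hk : s ≤ k) :
    NN d (k + 1) = ((Fintype.card (Fin d → Fin (2 ^ (k + 1 - s))) : ℕ) : ℝ) * ((2 : ℝ) ^ s) ^ d := by
  rw [A10_card]
  push_cast
  unfold NN
  rw [← mul_pow, ← pow_add]
  congr 2
  omega

theorem box_rare' (K : ℕ) : ∃ C d₀ : ℕ, ∀ d q : ℕ, d₀ ≤ d → Rg d q → ∀ s : ℕ, 1 ≤ s →
    cG (bG d (2 ^ s)) (fun F : BxV d (2 ^ s) → Fin q => EvB K F) ≤
      cG (bG d (2 ^ s)) (fun _ : BxV d (2 ^ s) → Fin q => True) * (q : ℝ) ^ ((2 ^ s + 1) ^ d - (2 ^ s - 1) ^ d) *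
        Real.exp (-((2 : ℝ) ^ s) ^ d / (d : ℝ) ^ C) := by
  obtain ⟨C₁, d₁, hF⟩ := few_bad (K + 1)
  obtain ⟨C₂, d₂, hT⟩ := typ (K + 1)
  refine ⟨max C₁ C₂ + 1, max (max d₁ d₂) 2, ?_⟩
  intro d q hd hRg s hs
  have hd1 : d₁ ≤ d := (le_max_left _ _).trans ((le_max_left _ _).trans hd)
  have hd2 : d₂ ≤ d := (le_max_right _ _).trans ((le_max_left _ _).trans hd)
  have hd3 : 2 ≤ d := (le_max_right _ _).trans hd
  set C := max C₁ C₂ with hC
  have hq : 1 ≤ q := by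
    have := hRg.2.2
    omega
  obtain ⟨k, ⟨hk1, hk2⟩, hk3, hk4⟩ := (((hF d q hd1 hRg).and (hT d q hd2 hRg)).and
    ((eventually_ge_atTop s).and (eventually_ge_atTop (2 * d ^ C)))).exists
  have r1 := A10_mono (by omega : 1 ≤ d) (le_max_left C₁ C₂) hk1
  have r2 := A10_mono (by omega : 1 ≤ d) (le_max_right C₁ C₂) hk2
  rw [← hC] at r1 r2
  have t1 := A10_torus hd3 hs hk3 r1 r2 hk4
  have t2 := tile_lower (d := d) (k := k) (s := s) (q := q) hs hk3 hq (EvB K)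
  have t3 := tile_upper (d := d) (k := k) (s := s) (q := q) hs hk3
  have t4 := A10_NN (d := d) (k := k) (s := s) hk3
  have t5 : Fintype.card (Fin d → Fin (2 ^ (k + 1 - s))) ≠ 0 := by
    rw [A10_card]
    positivity
  set M := Fintype.card (Fin d → Fin (2 ^ (k + 1 - s))) with hM
  rw [card_bdy d (2 ^ s) Nat.one_le_two_pow] at t2
  set X := cG (bG d (2 ^ s)) (fun F : BxV d (2 ^ s) → Fin q => EvB K F) with hX
  set Y := cG (bG d (2 ^ s)) (fun _ : BxV d (2 ^ s) → Fin q => True) with hY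
  set B := (q : ℝ) ^ ((2 ^ s + 1) ^ d - (2 ^ s - 1) ^ d) with hB
  set E := Real.exp (-((2 : ℝ) ^ s) ^ d / (d : ℝ) ^ (C + 1)) with hE
  have hY0 : 0 ≤ Y := by
    rw [hY]
    unfold cG
    positivity
  have hB0 : 0 ≤ B := by positivity
  have hE0 : 0 < E := Real.exp_pos _
  have hEM : Real.exp (-(NN d (k + 1) / (d : ℝ) ^ (C + 1))) = E ^ M := by
    rw [hE, ← Real.exp_nat_mul, t4]
    congr 1
    ring
  rw [hEM] at t1
  have main : X ^ M ≤ (Y * B * E) ^ M := by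
    calc X ^ M ≤ B ^ M * _ := t2
      _ ≤ B ^ M * (ZZ d (k + 1) q * E ^ M) := mul_le_mul_of_nonneg_left t1 (by positivity)
      _ ≤ B ^ M * (Y ^ M * E ^ M) :=
        mul_le_mul_of_nonneg_left (mul_le_mul_of_nonneg_right t3 (by positivity)) (by positivity)
      _ = (Y * B * E) ^ M := by
        rw [mul_pow, mul_pow]
        ring
  exact le_of_pow_le_pow_left₀ t5 (by positivity) main

end Pool.Agent.LC
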