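import Pool.Agent.Lib_MP_2c424f_lc2.Defs
import Pool.Agent.Lib_MP_2c424f_cor.V03

/-!
# LC2 A11: product formula for isolated boxes

`COR.indep` with `W = V`, `F = Fin q`, the index set `Option ι` (finset `insertNone S`), the disjoint sets of vertices: images of the
boxes (`some j`) and the complement of their union (`none`); `E (some j) f`: `f` is proper on the edges inside the image of `κ j`
and `P j (f ∘ κ j)`; `E none f`: `f` is proper on the edges inside the complement.  There are no other edges (`hcl`).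
`#{E (some j)} = cG (H j) (P j) · q^(|V| - |W j|)` (restriction to the image; `κ j` is injective), the same for `P = True`; divide.
(All sums are finite; `1 ≤ q`.)
-/

set_option autoImplicit false

open Finset Filter

namespace Pool.Agent.LC

open Pool.Agent.LO Pool.Agent.LIN Pool.Agent.THR Pool.Agent.COR

private theorem ext_pr_A11 {V W : Type} [Fintype V] [DecidableEq V] [Fintype W] [DecidableEq W]
    {q : ℕ} (X : SimpleGraph V) (H : SimpleGraph W) (κ : W → V) (hinj : Function.Injective κ)
    (hadj : ∀ u u', X.Adj (κ u) (κ u') ↔ H.Adj u u')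
    (hcl : ∀ u v, X.Adj (κ u) v → ∃ u', v = κ u') (F : V → Fin q) (g : W → Fin q)
    (hF : PrG X F) (hg : PrG H g) : PrG X (Function.extend κ g F) := by
  intro x y hxy
  by_cases hx : ∃ u, κ u = x
  · obtain ⟨u, rfl⟩ := hx
    obtain ⟨u', rfl⟩ := hcl u y hxy
    rw [hinj.extend_apply, hinj.extend_apply]
    exact hg _ _ ((hadj _ _).1 hxy)
  · by_cases hy : ∃ u, κ u = y
    · obtain ⟨u, rfl⟩ := hy
      obtain ⟨u', hu'⟩ := hcl u x hxy.symm
      exact absurd ⟨u', hu'.symm⟩ hx
    · rw [Function.extend_apply' _ _ _ hx, Function.extend_apply' _ _ _ hy]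
      exact hF _ _ hxy

private theorem res_pr_A11 {V W : Type} [Fintype V] [DecidableEq V] [Fintype W] [DecidableEq W]
    {q : ℕ} (X : SimpleGraph V) (H : SimpleGraph W) (κ : W → V)
    (hadj : ∀ u u', X.Adj (κ u) (κ u') ↔ H.Adj u u') (F : V → Fin q) (hF : PrG X F) :
    PrG H (fun u => F (κ u)) := by
  intro x y hxy
  exact hF _ _ ((hadj _ _).2 hxy)

private theorem ext_eq_A11 {V W : Type} {q : ℕ} (κ : W → V) (hinj : Function.Injective κ)
    (F : V → Fin q) (g : W → Fin q) :
    Function.extend κ (fun u => F (κ u)) (Function.extend κ g F) = F := by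
  funext v
  by_cases hv : ∃ u, κ u = v
  · obtain ⟨u, rfl⟩ := hv
    rw [hinj.extend_apply]
  · rw [Function.extend_apply' _ _ _ hv, Function.extend_apply' _ _ _ hv]

private theorem step_A11 {V W : Type} [Fintype V] [DecidableEq V] [Fintype W] [DecidableEq W]
    {q : ℕ} (X : SimpleGraph V) (H : SimpleGraph W) (κ : W → V) (hinj : Function.Injective κ)
    (hadj : ∀ u u', X.Adj (κ u) (κ u') ↔ H.Adj u u')
    (hcl : ∀ u v, X.Adj (κ u) v → ∃ u', v = κ u') (Q : (V → Fin q) → Prop)
    (hQ : ∀ F F' : V → Fin q, (∀ v, (¬ ∃ u, κ u = v) → F v = F' v) → Q F → Q F')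
    (P : (W → Fin q) → Prop) :
    cG X (fun F : V → Fin q => Q F ∧ P fun u => F (κ u)) * cG H (fun _ : W → Fin q => True) =
      cG X Q * cG H P := by
  classical
  unfold cG
  rw [← Nat.cast_mul, ← Nat.cast_mul, ← Finset.card_product, ← Finset.card_product]
  refine congrArg _ (Finset.card_nbij'
    (fun p => (Function.extend κ p.2 p.1, fun u => p.1 (κ u)))
    (fun p => (Function.extend κ p.2 p.1, fun u => p.1 (κ u))) ?_ ?_ ?_ ?_)
  · intro p hp
    simp only [Finset.coe_product, Set.mem_prod, Finset.mem_coe, Finset.mem_filter,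
      Finset.mem_univ, true_and, and_true] at hp ⊢
    obtain ⟨⟨h1, h2, h3⟩, h4⟩ := hp
    refine ⟨⟨ext_pr_A11 X H κ hinj hadj hcl _ _ h1 h4, hQ _ _ ?_ h2⟩,
      res_pr_A11 X H κ hadj _ h1, h3⟩
    intro v hv
    rw [Function.extend_apply' _ _ _ hv]
  · intro p hp
    simp only [Finset.coe_product, Set.mem_prod, Finset.mem_coe, Finset.mem_filter,
      Finset.mem_univ, true_and, and_true] at hp ⊢
    obtain ⟨⟨h1, h2⟩, h3, h4⟩ := hp
    refine ⟨⟨ext_pr_A11 X H κ hinj hadj hcl _ _ h1 h3, hQ _ _ ?_ h2, ?_⟩,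
      res_pr_A11 X H κ hadj _ h1⟩
    · intro v hv
      rw [Function.extend_apply' _ _ _ hv]
    · have h5 : (fun u => Function.extend κ p.2 p.1 (κ u)) = p.2 := by
        funext u
        rw [hinj.extend_apply]
      rw [h5]
      exact h4
  · intro p _
    refine Prod.ext (ext_eq_A11 κ hinj p.1 p.2) ?_
    funext u
    exact hinj.extend_apply _ _ _
  · intro p _
    refine Prod.ext (ext_eq_A11 κ hinj p.1 p.2) ?_
    funext u
    exact hinj.extend_apply _ _ _

/-- the general form: `H j` any finite graphs -/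
theorem prod_cells {V ι : Type} [Fintype V] [DecidableEq V] (W : ι → Type) [∀ j, Fintype (W j)] [∀ j, DecidableEq (W j)]
    {q : ℕ} (hq : 1 ≤ q) (X : SimpleGraph V) (S : Finset ι) (H : ∀ j, SimpleGraph (W j)) (κ : ∀ j, W j → V)
    (hinj : ∀ j ∈ S, Function.Injective (κ j)) (hdis : ∀ j ∈ S, ∀ j' ∈ S, j ≠ j' → ∀ u u', κ j u ≠ κ j' u')
    (hadj : ∀ j ∈ S, ∀ u u', X.Adj (κ j u) (κ j u') ↔ (H j).Adj u u')
    (hcl : ∀ j ∈ S, ∀ u v, X.Adj (κ j u) v → ∃ u', v = κ j u') (P : ∀ j, (W j → Fin q) → Prop) :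
    cG X (fun F : V → Fin q => ∀ j ∈ S, P j fun u => F (κ j u)) *
        ∏ j ∈ S, cG (H j) (fun _ : W j → Fin q => True) =
      cG X (fun _ : V → Fin q => True) * ∏ j ∈ S, cG (H j) (P j) := by
  classical
  induction S using Finset.induction_on with
  | empty => simp
  | insert j S hj ih =>
    have ih' := ih (fun a ha => hinj a (mem_insert_of_mem ha))
      (fun a ha b hb => hdis a (mem_insert_of_mem ha) b (mem_insert_of_mem hb))
      (fun a ha => hadj a (mem_insert_of_mem ha)) (fun a ha => hcl a (mem_insert_of_mem ha))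
    have h1 := step_A11 X (H j) (κ j) (hinj j (mem_insert_self j S))
      (hadj j (mem_insert_self j S)) (hcl j (mem_insert_self j S))
      (fun F : V → Fin q => ∀ j' ∈ S, P j' fun u => F (κ j' u)) (by
        intro F F' hFF hF j' hj'
        have h2 : (fun u => F' (κ j' u)) = fun u => F (κ j' u) := by
          funext u
          refine (hFF _ ?_).symm
          rintro ⟨u', hu'⟩
          exact hdis j (mem_insert_self j S) j' (mem_insert_of_mem hj')
            (fun e => hj (e ▸ hj')) u' u hu'
        rw [h2]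
        exact hF j' hj') (P j)
    have h3 : (fun F : V → Fin q => ∀ j' ∈ insert j S, P j' fun u => F (κ j' u)) =
        fun F : V → Fin q => (∀ j' ∈ S, P j' fun u => F (κ j' u)) ∧ P j fun u => F (κ j u) := by
      funext F
      rw [Finset.forall_mem_insert, and_comm]
    rw [h3, Finset.prod_insert hj, Finset.prod_insert hj, ← mul_assoc, h1, mul_right_comm, ih']
    ring

end Pool.Agent.LC
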