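import Pool.Agent.Lib_MP_2c424f_lc2.A10
import Pool.Agent.Lib_MP_2c424f_lc2.A11
import Pool.Agent.Lib_MP_2c424f_cor.K03

/-!
# LC2 A12: the box event in many cells of a graph

`X₀` := `X` without the edges which join a vertex of the image of a cell `κ j`, `j ∈ S`, to a vertex outside this image.  The cut edges
start at boundary points (`Cells.cl`: `inn 1` points have no neighbours outside), so there are at most
`|S| · |bdy| · 4 d` of them.  `prod_cells` for `X₀` (`P = EvB K`) and `box_rare'`: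
`cG X E ≤ cG X₀ E ≤ cG X₀ True (q^|bdy| exp (-l^d/d^C))^|S|` (`l = 2^s`), and `COR.add_edges` (`G = X₀`, `G' = X`):
`cG X₀ True ≤ (1 - 1/q)^(-|S| |bdy| 4 d) cG X True`.  `|bdy| = (l+1)^d - (l-1)^d ≤ 4 d l^(d-1)` if `l ≥ 2 d` (Bernoulli:
`(1+1/l)^d ≤ exp (d/l) ≤ 1 + 2 d/l`, `(1-1/l)^d ≥ 1 - d/l`); `log q + 8 d/q·.. ≤ d`
(`-log (1 - 1/q) ≤ 2/q`, `4 d · 2/q ≤ 4000·..`), so the total exponent is
`≤ |S| (4 d l^(d-1) · (d + 8000) - l^d/d^C) ≤ -|S| l^d/d^(C+4)` for `l ≥ d^(C+4)` and `d` large.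
-/

set_option autoImplicit false

open Finset Filter

namespace Pool.Agent.LC

open Pool.Agent.LO Pool.Agent.LIN Pool.Agent.THR Pool.Agent.COR

/-- `X` without the edges which leave a cell -/
def A12_cut {V ι U : Type} (X : SimpleGraph V) (S : Finset ι) (κ : ι → U → V) : SimpleGraph V where
  Adj v w := X.Adj v w ∧ ∀ j ∈ S, (∃ u, v = κ j u) ↔ (∃ u, w = κ j u)
  symm := ⟨fun _ _ h => ⟨h.1.symm, fun j hj => (h.2 j hj).symm⟩⟩
  loopless := ⟨fun v h => X.loopless.irrefl v h.1⟩

theorem A12_exp {x : ℝ} (h0 : 0 ≤ x) (h1 : x ≤ 1 / 2) : Real.exp (-(2 * x)) ≤ 1 - x := by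
  have h2 : 0 < 1 + 2 * x := by linarith
  have h3 : 1 + 2 * x ≤ Real.exp (2 * x) := by
    have := Real.add_one_le_exp (2 * x)
    linarith
  rw [Real.exp_neg]
  calc (Real.exp (2 * x))⁻¹ ≤ (1 + 2 * x)⁻¹ := inv_anti₀ h2 h3
    _ ≤ 1 - x := by
      rw [inv_le_iff_one_le_mul₀ h2]
      nlinarith

/-- `(l+1)^d - (l-1)^d ≤ 4 d l^d / l` -/
theorem A12_bern {d : ℕ} {l : ℝ} (hd : 1 ≤ d) (hl : 2 * d ≤ l) :
    (l + 1) ^ d - (l - 1) ^ d ≤ 4 * d * (l ^ d / l) := by
  have hd' : (1 : ℝ) ≤ d := by exact_mod_cast hd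
  have hl0 : 0 < l := by linarith
  have hx0 : (0 : ℝ) ≤ 1 / l := by positivity
  have hx2 : (d : ℝ) / l ≤ 1 / 2 := by
    rw [div_le_iff₀ hl0]
    linarith
  have hx1 : (1 : ℝ) / l ≤ 1 := by
    rw [div_le_one hl0]
    linarith
  have h1 : (l + 1) ^ d = l ^ d * (1 + 1 / l) ^ d := by
    rw [← mul_pow]
    congr 1
    field_simp
  have h2 : (l - 1) ^ d = l ^ d * (1 + (-(1 / l))) ^ d := by
    rw [← mul_pow]
    congr 1
    field_simp
    ring
  have h3 : (1 + 1 / l) ^ d ≤ 1 + 2 * (d / l) := by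
    have h4 : (1 + 1 / l) ^ d ≤ Real.exp (d / l) := by
      calc (1 + 1 / l) ^ d ≤ (Real.exp (1 / l)) ^ d := by
            refine pow_le_pow_left₀ (by positivity) ?_ _
            have := Real.add_one_le_exp (1 / l)
            linarith
        _ = Real.exp (d / l) := by
            rw [← Real.exp_nat_mul]
            congr 1
            ring
    have h5 : Real.exp (d / l) ≤ 1 + 2 * (d / l) := by
      have hy0 : (0 : ℝ) ≤ d / l := by positivity
      have h6 := A12_exp (x := 1 - 1 / (1 + 2 * (d / l))) (by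
        rw [sub_nonneg, div_le_one (by positivity)]
        linarith) (by
        have : (1 : ℝ) / 2 ≤ 1 / (1 + 2 * (d / l)) := by
          rw [div_le_div_iff₀ (by norm_num) (by positivity)]
          linarith
        linarith)
      have h7 : Real.exp (-(d / l)) ≥ 1 / (1 + 2 * (d / l)) := by
        have h8 := Real.add_one_le_exp (-(d / l))
        have h9 : 1 / (1 + 2 * ((d : ℝ) / l)) ≤ -(d / l) + 1 := by
          rw [div_le_iff₀ (by positivity)]
          nlinarith
        linarith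
      rw [Real.exp_neg] at h7
      have h8 : (0 : ℝ) < 1 + 2 * (d / l) := by positivity
      rw [ge_iff_le, one_div] at h7
      exact (inv_le_inv₀ h8 (Real.exp_pos _)).1 h7
    exact h4.trans h5
  have h4 : 1 - d / l ≤ (1 + (-(1 / l))) ^ d := by
    have h5 := one_add_mul_le_pow (a := -(1 / l)) (by linarith) d
    refine le_trans (le_of_eq ?_) h5
    ring
  have hp : 0 < l ^ d := pow_pos hl0 d
  rw [h1, h2]
  have h5 : l ^ d * (1 + 1 / l) ^ d ≤ l ^ d * (1 + 2 * (d / l)) := mul_le_mul_of_nonneg_left h3 hp.le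
  have h6 : l ^ d * (1 - d / l) ≤ l ^ d * (1 + (-(1 / l))) ^ d := mul_le_mul_of_nonneg_left h4 hp.le
  have h7 : l ^ d * (1 + 2 * (d / l)) - l ^ d * (1 - d / l) = 3 * d * (l ^ d / l) := by ring
  have h8 : 3 * d * (l ^ d / l) ≤ 4 * d * (l ^ d / l) := by
    have : 0 ≤ (d : ℝ) * (l ^ d / l) := by positivity
    linarith
  linarith

theorem A12_pos {d l q : ℕ} (hq : 2 ≤ q) : 0 < cG (bG d l) (fun _ : BxV d l → Fin q => True) := by
  classical
  unfold cG
  rw [Nat.cast_pos, Finset.card_pos]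
  refine ⟨fun u => if bev u then ⟨0, by omega⟩ else ⟨1, by omega⟩, ?_⟩
  simp only [Finset.mem_filter, Finset.mem_univ, true_and, and_true]
  rintro x y ⟨i, h1, h2⟩
  have hsum : (∑ j, (x j).val) + (y i).val = (∑ j, (y j).val) + (x i).val := by
    rw [← Finset.add_sum_erase _ _ (Finset.mem_univ i), ← Finset.add_sum_erase (a := i) univ (fun j => (y j).val)
      (Finset.mem_univ i)]
    have : ∑ j ∈ univ.erase i, (x j).val = ∑ j ∈ univ.erase i, (y j).val :=
      Finset.sum_congr rfl fun j hj => by rw [h1 j (Finset.ne_of_mem_erase hj)]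
    omega
  have hpar : bev x ↔ ¬ bev y := by
    unfold bev
    rw [Nat.not_even_iff_odd, Nat.even_iff, Nat.odd_iff]
    omega
  by_cases hx : bev x
  · have hy := hpar.1 hx
    simp [hx, hy]
  · have hy : bev y := by
      by_contra h
      exact hx (hpar.2 h)
    simp [hx, hy]

theorem A12_main {K C0 d q l : ℕ} (hd200 : 200 ≤ d) (hR : Rg d q) (hl1 : 1 ≤ l) (hdC : (d : ℝ) ^ (C0 + 4) ≤ l)
    (hbox : cG (bG d l) (fun F : BxV d l → Fin q => EvB K F) ≤
      cG (bG d l) (fun _ : BxV d l → Fin q => True) * (q : ℝ) ^ ((l + 1) ^ d - (l - 1) ^ d) *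
        Real.exp (-(l : ℝ) ^ d / (d : ℝ) ^ C0))
    (V ι : Type) [Fintype V] [DecidableEq V] (X : SimpleGraph V) (ev : V → Prop) (κ : ι → BxV d l → V)
    (hP : Par X ev) (hC : Cells d l X ev κ) (hdeg : ∀ v, (nb X v).card ≤ 4 * d) (S : Finset ι) :
    cG X (fun F : V → Fin q => ∀ j ∈ S, EvB K fun u => F (κ j u)) ≤
      cG X (fun _ : V → Fin q => True) * Real.exp (-(S.card * (l : ℝ) ^ d / (d : ℝ) ^ (C0 + 4))) := by
  classical
  have hd200' : (200 : ℝ) ≤ d := by exact_mod_cast hd200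
  obtain ⟨hqe, hq1, hq2⟩ := hR
  have hq : 2 ≤ q := by
    obtain ⟨r, hr⟩ := hqe
    omega
  have hqd : q ≤ d := by omega
  have hd1 : (1 : ℝ) ≤ d := by linarith
  have hdpow : (d : ℝ) ^ 4 ≤ (d : ℝ) ^ (C0 + 4) := pow_le_pow_right₀ hd1 (by omega)
  have hl2 : 2 * (d : ℝ) ≤ l := by
    have : 2 * (d : ℝ) ≤ (d : ℝ) ^ 4 := by
      have h1 : (d : ℝ) ^ 4 = d * d ^ 3 := by ring
      have h2 : (2 : ℝ) ≤ (d : ℝ) ^ 3 := by
        calc (2 : ℝ) ≤ d := by linarith
          _ = d ^ 1 := (pow_one _).symm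
          _ ≤ d ^ 3 := pow_le_pow_right₀ hd1 (by omega)
      rw [h1, mul_comm]
      exact mul_le_mul_of_nonneg_left h2 (by linarith)
    linarith
  have hl0 : (0 : ℝ) < l := by linarith
  -- the cut graph
  set X0 := A12_cut X S κ with hX0
  have hle : X0 ≤ X := fun v w h => h.1
  set E : Finset (V × V) := S.biUnion fun j => (bdy d l).biUnion fun u => (nb X (κ j u)).image fun w => (κ j u, w)
    with hE
  have hbd : ∀ j u v, X.Adj (κ j u) v → (∀ u', v ≠ κ j u') → u ∈ bdy d l := by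
    intro j u v h1 h2
    by_contra h3
    have h4 : inn 1 u := by
      intro i
      have h5 : ¬ ((u i).val = 0 ∨ (u i).val = l) := fun h => h3 (by
        unfold bdy
        rw [Finset.mem_filter]
        exact ⟨Finset.mem_univ _, i, h⟩)
      rw [not_or] at h5
      have h6 := (u i).isLt
      constructor
      · omega
      · omega
    obtain ⟨u', hu'⟩ := hC.cl j u h4 v h1
    exact h2 u' hu'
  have hcardE : E.card ≤ S.card * ((bdy d l).card * (4 * d)) := by
    refine Finset.card_biUnion_le.trans ?_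
    calc _ ≤ ∑ _j ∈ S, (bdy d l).card * (4 * d) := by
          refine Finset.sum_le_sum fun j _ => Finset.card_biUnion_le.trans ?_
          calc _ ≤ ∑ _u ∈ bdy d l, 4 * d :=
                Finset.sum_le_sum fun u _ => Finset.card_image_le.trans (hdeg _)
            _ = _ := by rw [Finset.sum_const, smul_eq_mul]
      _ = _ := by rw [Finset.sum_const, smul_eq_mul]
  have hadd := add_edges (q := q) hP hle (by omega) E (by
    intro x y hxy
    by_cases h : ∀ j ∈ S, (∃ u, x = κ j u) ↔ (∃ u, y = κ j u)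
    · left
      exact ⟨hxy, h⟩
    · right
      push Not at h
      obtain ⟨j, hj, h⟩ := h
      rcases h with ⟨⟨u, rfl⟩, h2⟩ | ⟨h1, ⟨u, rfl⟩⟩
      · left
        refine Finset.mem_biUnion.2 ⟨j, hj, Finset.mem_biUnion.2 ⟨u, hbd j u y hxy h2, ?_⟩⟩
        exact Finset.mem_image.2 ⟨y, by simp [nb, hxy], rfl⟩
      · right
        refine Finset.mem_biUnion.2 ⟨j, hj, Finset.mem_biUnion.2 ⟨u, hbd j u x hxy.symm h1, ?_⟩⟩
        exact Finset.mem_image.2 ⟨x, by simp [nb, hxy.symm], rfl⟩)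
  -- the product formula
  have hprod := prod_cells (V := V) (ι := ι) (fun _ => BxV d l) (q := q) (by omega) X0 S (fun _ => bG d l) κ
    (fun j _ u u' h => (hC.inj j j u u' h).2) (fun j _ j' _ hne u u' h => hne (hC.inj j j' u u' h).1)
    (fun j hj u u' => by
      constructor
      · intro h
        exact (hC.adj j u u').1 h.1
      · intro h
        refine ⟨(hC.adj j u u').2 h, fun j' hj' => ?_⟩
        constructor
        · rintro ⟨w, hw⟩
          obtain ⟨h1, -⟩ := hC.inj _ _ _ _ hw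
          exact ⟨u', by rw [h1]⟩
        · rintro ⟨w, hw⟩
          obtain ⟨h1, -⟩ := hC.inj _ _ _ _ hw
          exact ⟨u, by rw [h1]⟩)
    (fun j hj u v h => by
      obtain ⟨u', hu'⟩ := (h.2 j hj).1 ⟨u, rfl⟩
      exact ⟨u', hu'⟩) (fun _ => EvB K)
  rw [Finset.prod_const, Finset.prod_const] at hprod
  set Zb := cG (bG d l) (fun _ : BxV d l → Fin q => True) with hZb
  have hZb0 : 0 < Zb := A12_pos hq
  set b : ℕ := (l + 1) ^ d - (l - 1) ^ d with hb
  have hbc : (bdy d l).card = b := card_bdy d l hl1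
  have hev : cG (bG d l) (fun F : BxV d l → Fin q => EvB K F) ≤
      Zb * ((q : ℝ) ^ b * Real.exp (-(l : ℝ) ^ d / (d : ℝ) ^ C0)) := by
    rw [← mul_assoc]
    exact hbox
  have hn : ∀ (G : SimpleGraph V) (P : (V → Fin q) → Prop), 0 ≤ cG G P := fun G P => by
    unfold cG
    positivity
  set e0 : ℝ := (q : ℝ) ^ b * Real.exp (-(l : ℝ) ^ d / (d : ℝ) ^ C0) with he0
  have he00 : 0 ≤ e0 := by positivity
  have h1 : cG X0 (fun F : V → Fin q => ∀ j ∈ S, EvB K fun u => F (κ j u)) ≤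
      cG X0 (fun _ : V → Fin q => True) * e0 ^ S.card := by
    have h2 : cG X0 (fun F : V → Fin q => ∀ j ∈ S, EvB K fun u => F (κ j u)) * Zb ^ S.card ≤
        (cG X0 (fun _ : V → Fin q => True) * e0 ^ S.card) * Zb ^ S.card := by
      rw [hprod]
      calc _ ≤ cG X0 (fun _ : V → Fin q => True) * (Zb * e0) ^ S.card := by
            refine mul_le_mul_of_nonneg_left (pow_le_pow_left₀ ?_ hev _) (hn _ _)
            unfold cG
            positivity
        _ = _ := by rw [mul_pow]; ring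
    exact le_of_mul_le_mul_right h2 (pow_pos hZb0 _)
  have h2 : cG X (fun F : V → Fin q => ∀ j ∈ S, EvB K fun u => F (κ j u)) ≤
      cG X0 (fun F : V → Fin q => ∀ j ∈ S, EvB K fun u => F (κ j u)) := by
    unfold cG
    refine Nat.cast_le.2 (Finset.card_le_card fun F hF => ?_)
    simp only [Finset.mem_filter, Finset.mem_univ, true_and] at hF ⊢
    exact ⟨fun x y hxy => hF.1 x y (hle hxy), hF.2⟩
  -- the cost of the cut
  have hqR : (2 : ℝ) ≤ q := by exact_mod_cast hq
  have hqdR : (q : ℝ) ≤ d := by exact_mod_cast hqd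
  have hdq : (d : ℝ) / q ≤ 1000 := by
    rw [div_le_iff₀ (by linarith)]
    have : (2 * d : ℝ) ≤ 2000 * q := by exact_mod_cast hq2
    linarith
  have h3 : cG X0 (fun _ : V → Fin q => True) ≤
      cG X (fun _ : V → Fin q => True) * Real.exp (S.card * (b * 8000)) := by
    have h4 := A12_exp (x := 1 / (q : ℝ)) (by positivity) (one_div_le_one_div_of_le (by norm_num) hqR)
    have h5 : Real.exp (-(S.card * (b * 8000))) ≤ (1 - 1 / (q : ℝ)) ^ E.card := by
      calc Real.exp (-(S.card * (b * 8000))) ≤ Real.exp (E.card * -(2 * (1 / (q : ℝ)))) := by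
            apply Real.exp_le_exp.2
            have h6 : (E.card : ℝ) ≤ S.card * (b * (4 * d)) := by
              rw [hbc] at hcardE
              exact_mod_cast hcardE
            have h7 : (E.card : ℝ) * (2 * (1 / (q : ℝ))) ≤ S.card * (b * (4 * d)) * (2 * (1 / (q : ℝ))) :=
              mul_le_mul_of_nonneg_right h6 (by positivity)
            have h8 : (S.card : ℝ) * (b * (4 * d)) * (2 * (1 / (q : ℝ))) = S.card * (b * (8 * (d / q))) := by ring
            have h9 : (S.card : ℝ) * (b * (8 * (d / q))) ≤ S.card * (b * 8000) := by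
              refine mul_le_mul_of_nonneg_left (mul_le_mul_of_nonneg_left ?_ (Nat.cast_nonneg _))
                (Nat.cast_nonneg _)
              linarith
            linarith
        _ = Real.exp (-(2 * (1 / (q : ℝ)))) ^ E.card := by rw [Real.exp_nat_mul]
        _ ≤ _ := pow_le_pow_left₀ (Real.exp_pos _).le h4 _
    have h6 : Real.exp (-(S.card * (b * 8000))) * cG X0 (fun _ : V → Fin q => True) ≤
        cG X (fun _ : V → Fin q => True) := (mul_le_mul_of_nonneg_right h5 (hn _ _)).trans hadd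
    calc cG X0 (fun _ : V → Fin q => True)
        = Real.exp (-(S.card * (b * 8000))) * cG X0 (fun _ : V → Fin q => True) *
            Real.exp (S.card * (b * 8000)) := by
          rw [mul_right_comm, ← Real.exp_add]
          simp
      _ ≤ _ := mul_le_mul_of_nonneg_right h6 (Real.exp_pos _).le
  -- the exponent
  have hexp : b * 8000 + (b * Real.log q - (l : ℝ) ^ d / (d : ℝ) ^ C0) ≤
      -((l : ℝ) ^ d / (d : ℝ) ^ (C0 + 4)) := by
    have hbR : (b : ℝ) ≤ 4 * d * ((l : ℝ) ^ d / l) := by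
      have h5 : (b : ℝ) = ((l : ℝ) + 1) ^ d - ((l : ℝ) - 1) ^ d := by
        rw [hb, Nat.cast_sub (Nat.pow_le_pow_left (by omega) _)]
        push_cast [Nat.cast_sub hl1]
        ring
      rw [h5]
      exact A12_bern (by omega) hl2
    have hlog : Real.log q ≤ d := (Real.log_le_self (by linarith)).trans hqdR
    have hp : 0 < (l : ℝ) ^ d := pow_pos hl0 _
    have h5 : (b : ℝ) * 8000 + b * Real.log q ≤ 4 * d * ((l : ℝ) ^ d / l) * (8000 + d) := by
      have h6 : (b : ℝ) * 8000 + b * Real.log q = b * (8000 + Real.log q) := by ring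
      rw [h6]
      have h7 : 0 ≤ Real.log q := Real.log_nonneg (by linarith)
      calc (b : ℝ) * (8000 + Real.log q) ≤ b * (8000 + d) :=
            mul_le_mul_of_nonneg_left (by linarith) (Nat.cast_nonneg _)
        _ ≤ _ := mul_le_mul_of_nonneg_right hbR (by linarith)
    have hdC0 : 0 < (d : ℝ) ^ C0 := by positivity
    have h6 : 4 * d * ((l : ℝ) ^ d / l) * (8000 + d) ≤ (l : ℝ) ^ d / (d : ℝ) ^ (C0 + 1) := by
      have h7 : (l : ℝ) ^ d / l ≤ (l : ℝ) ^ d / (d : ℝ) ^ (C0 + 4) :=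
        div_le_div_of_nonneg_left hp.le (by positivity) hdC
      have h8 : 4 * (d : ℝ) * (8000 + d) ≤ (d : ℝ) ^ 3 := by nlinarith [hd200', sq_nonneg (d : ℝ)]
      calc 4 * d * ((l : ℝ) ^ d / l) * (8000 + d) = (4 * (d : ℝ) * (8000 + d)) * ((l : ℝ) ^ d / l) := by ring
        _ ≤ (d : ℝ) ^ 3 * ((l : ℝ) ^ d / (d : ℝ) ^ (C0 + 4)) :=
          mul_le_mul h8 h7 (by positivity) (by positivity)
        _ = (l : ℝ) ^ d / (d : ℝ) ^ (C0 + 1) := by
          rw [pow_add, pow_add]
          field_simp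
    have h7 : (l : ℝ) ^ d / (d : ℝ) ^ (C0 + 1) ≤ 1 / 200 * ((l : ℝ) ^ d / (d : ℝ) ^ C0) := by
      rw [pow_succ]
      have h8 : (l : ℝ) ^ d / ((d : ℝ) ^ C0 * d) = (1 / d) * ((l : ℝ) ^ d / (d : ℝ) ^ C0) := by
        field_simp
      rw [h8]
      refine mul_le_mul_of_nonneg_right ?_ (by positivity)
      exact one_div_le_one_div_of_le (by norm_num) hd200'
    have h8 : (l : ℝ) ^ d / (d : ℝ) ^ (C0 + 4) ≤ (l : ℝ) ^ d / (d : ℝ) ^ (C0 + 1) :=
      div_le_div_of_nonneg_left hp.le (by positivity) (pow_le_pow_right₀ hd1 (by omega))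
    have h9 : 0 < (l : ℝ) ^ d / (d : ℝ) ^ C0 := by positivity
    linarith
  have h4 : e0 = Real.exp (b * Real.log q - (l : ℝ) ^ d / (d : ℝ) ^ C0) := by
    rw [he0, sub_eq_add_neg, Real.exp_add, ← neg_div]
    congr 1
    rw [Real.exp_nat_mul, Real.exp_log (by linarith)]
  calc _ ≤ _ := h2
    _ ≤ _ := h1
    _ ≤ (cG X (fun _ : V → Fin q => True) * Real.exp (S.card * (b * 8000))) * e0 ^ S.card :=
        mul_le_mul_of_nonneg_right h3 (pow_nonneg he00 _)
    _ = cG X (fun _ : V → Fin q => True) * Real.exp (S.card * (b * 8000 +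
          (b * Real.log q - (l : ℝ) ^ d / (d : ℝ) ^ C0))) := by
        rw [h4, ← Real.exp_nat_mul, mul_assoc, ← Real.exp_add]
        congr 2
        ring
    _ ≤ _ := by
        refine mul_le_mul_of_nonneg_left (Real.exp_le_exp.2 ?_) (hn _ _)
        calc (S.card : ℝ) * (b * 8000 + (b * Real.log q - (l : ℝ) ^ d / (d : ℝ) ^ C0))
            ≤ S.card * -((l : ℝ) ^ d / (d : ℝ) ^ (C0 + 4)) :=
              mul_le_mul_of_nonneg_left hexp (Nat.cast_nonneg _)
          _ = _ := by ring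

theorem cells_rare' (K : ℕ) : ∃ C d₀ : ℕ, ∀ d q : ℕ, d₀ ≤ d → Rg d q → ∀ s : ℕ, (d : ℝ) ^ C ≤ 2 ^ s →
    ∀ (V ι : Type) [Fintype V] [DecidableEq V] (X : SimpleGraph V) (ev : V → Prop) (κ : ι → BxV d (2 ^ s) → V),
      Par X ev → Cells d (2 ^ s) X ev κ → (∀ v, (nb X v).card ≤ 4 * d) → ∀ S : Finset ι,
      cG X (fun F : V → Fin q => ∀ j ∈ S, EvB K fun u => F (κ j u)) ≤
        cG X (fun _ : V → Fin q => True) * Real.exp (-(S.card * ((2 : ℝ) ^ s) ^ d / (d : ℝ) ^ C)) := by
  obtain ⟨C0, d0, hbox⟩ := box_rare' K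
  refine ⟨C0 + 4, max d0 200, ?_⟩
  intro d q hd hR s hs V ι _ _ X ev κ hP hC hdeg S
  have hd200 : 200 ≤ d := (le_max_right _ _).trans hd
  have hd1 : (1 : ℝ) < d := by
    have : (200 : ℝ) ≤ d := by exact_mod_cast hd200
    linarith
  have hs1 : 1 ≤ s := by
    by_contra h
    have h1 : s = 0 := by omega
    rw [h1, pow_zero] at hs
    have h2 : (1 : ℝ) < (d : ℝ) ^ (C0 + 4) := one_lt_pow₀ hd1 (by omega)
    linarith
  have h := A12_main (l := 2 ^ s) hd200 hR Nat.one_le_two_pow (by push_cast; exact hs) (by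
    have := hbox d q ((le_max_left _ _).trans hd) hR s hs1
    push_cast
    exact this) V ι X ev κ hP hC hdeg S
  push_cast at h
  exact h

end Pool.Agent.LC
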