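import Pool.Agent.Lib_MP_2c424f_lc2.Defs

/-!
# LC2 A01: reflected patterns

`od (xr r a) (xr r b) ↔ od a b`; `inS (some (j, β)) (xr r a) (xr r b) ↔ inS (some (j, xor β (r j))) a b`.
So `frq e s c (rP r g) = frq e s' c g` (reindex the sums by the involution `p ↦ (xr r p.1, xr r p.2)`), and the events, which
are about all shapes, do not change.
-/

set_option autoImplicit false

open Finset Filter

namespace Pool.Agent.LC

open Pool.Agent.LO Pool.Agent.LIN Pool.Agent.THR Pool.Agent.COR

theorem xr_xr {d : ℕ} (r a : Bt d) : xr r (xr r a) = a := by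
  funext i
  simp [xr]

theorem A01_ne {d : ℕ} (r a b : Bt d) (i : Fin d) : xr r a i ≠ xr r b i ↔ a i ≠ b i := by
  unfold xr
  cases a i <;> cases b i <;> cases r i <;> simp

theorem od_xr {d : ℕ} (r a b : Bt d) : od (xr r a) (xr r b) ↔ od a b := by
  unfold od
  simp only [A01_ne]

/-- reflected shape -/
def A01_sh {d : ℕ} (r : Bt d) (s : Shp d) : Shp d :=
  match s with
  | none => none
  | some (j, β) => some (j, xor β (r j))

theorem A01_sh_sh {d : ℕ} (r : Bt d) (s : Shp d) : A01_sh r (A01_sh r s) = s := by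
  rcases s with _ | ⟨j, β⟩
  · rfl
  · simp [A01_sh]

theorem A01_inS {d : ℕ} (r : Bt d) (s : Shp d) (a b : Bt d) :
    inS s (xr r a) (xr r b) ↔ inS (A01_sh r s) a b := by
  rcases s with _ | ⟨j, β⟩
  · exact Iff.rfl
  · simp only [inS, A01_sh, xr]
    cases a j <;> cases b j <;> cases r j <;> cases β <;> simp

open scoped Classical in
theorem A01_mem {d : ℕ} (r : Bt d) (e : Bool) (s : Shp d) (p : Bt d × Bt d) :
    (xr r p.1, xr r p.2) ∈ (if e then eS s else oS s) ↔ p ∈ (if e then eS (A01_sh r s) else oS (A01_sh r s)) := by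
  cases e
  · simp only [oS, Finset.mem_filter, Finset.mem_univ, true_and, od_xr, A01_inS, Bool.false_eq_true, if_false]
  · simp only [eS, Finset.mem_filter, Finset.mem_univ, true_and, od_xr, A01_inS, if_true]

theorem A01_frq {d q : ℕ} (r : Bt d) (e : Bool) (s : Shp d) (c : Fin q) (g : Pat d q) :
    frq e s c (rP r g) = frq e (A01_sh r s) c g := by
  have hmap : ∀ p ∈ (if e then eS s else oS s),
      (xr r p.1, xr r p.2) ∈ (if e then eS (A01_sh r s) else oS (A01_sh r s)) := by
    intro p hp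
    have h := A01_mem r e s (xr r p.1, xr r p.2)
    simp only [xr_xr] at h
    exact h.1 hp
  have hmap' : ∀ p ∈ (if e then eS (A01_sh r s) else oS (A01_sh r s)),
      (xr r p.1, xr r p.2) ∈ (if e then eS s else oS s) := fun p hp => (A01_mem r e s p).2 hp
  have hinv : ∀ p : Bt d × Bt d, (xr r (xr r p.1, xr r p.2).1, xr r (xr r p.1, xr r p.2).2) = p := by
    intro p
    simp [xr_xr]
  unfold frq
  congr 1
  · exact Finset.sum_nbij' (fun p => (xr r p.1, xr r p.2)) (fun p => (xr r p.1, xr r p.2)) hmap hmap'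
      (fun p _ => hinv p) (fun p _ => hinv p) (fun p _ => rfl)
  · exact congrArg Nat.cast (Finset.card_nbij' (fun p => (xr r p.1, xr r p.2)) (fun p => (xr r p.1, xr r p.2))
      hmap hmap' (fun p _ => hinv p) (fun p _ => hinv p))

theorem st_rP {d q : ℕ} (r : Bt d) (η : ℝ) (hi : Bool) (c : Fin q) (g : Pat d q) :
    st η hi c (rP r g) ↔ st η hi c g := by
  unfold st
  simp only [A01_frq]
  constructor
  · intro h s
    have := h (A01_sh r s)
    rwa [A01_sh_sh] at this
  · intro h s
    exact h (A01_sh r s)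

theorem bdP_rP {d q : ℕ} (r : Bt d) (η : ℝ) (c : Fin q) (g : Pat d q) : bdP η c (rP r g) ↔ bdP η c g := by
  unfold bdP
  rw [st_rP, st_rP]

theorem G0P_rP {d q : ℕ} (r : Bt d) (g : Pat d q) : G0P (rP r g) ↔ G0P g := by
  unfold G0P
  simp only [bdP_rP]

theorem ALP_rP {d q : ℕ} (r : Bt d) (g : Pat d q) : ALP (rP r g) = ALP g := by
  unfold ALP
  ext c
  simp only [Finset.mem_filter, st_rP]

theorem GDP_rP {d q : ℕ} (r : Bt d) (g : Pat d q) : GDP (rP r g) ↔ GDP g := by
  unfold GDP
  rw [G0P_rP, ALP_rP]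

theorem BDP_rP {d q : ℕ} (r : Bt d) (τ : Option (Fin q)) (g : Pat d q) : BDP τ (rP r g) ↔ BDP τ g := by
  rcases τ with _ | c
  · simp only [BDP, UBP]
    rw [G0P_rP, ALP_rP]
  · exact bdP_rP r et c g

/-- a pattern which is not good is bad of one of the kinds -/
theorem not_GDP {d q : ℕ} (g : Pat d q) : ¬ GDP g ↔ ∃ τ, BDP τ g := by
  constructor
  · intro h
    by_cases h0 : G0P g
    · exact ⟨none, h0, fun h1 => h ⟨h0, h1⟩⟩
    · unfold G0P at h0
      push Not at h0
      obtain ⟨c, hc⟩ := h0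
      exact ⟨some c, hc⟩
  · rintro ⟨τ, hτ⟩ h
    rcases τ with _ | c
    · exact hτ.2 h.2
    · exact h.1 c hτ

end Pool.Agent.LC
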