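import Pool.Agent.Lib_MP_2c424f_lc2.A01
import Pool.Agent.Lib_MP_2c424f_thr.B6a

/-!
# LC2 A02: the block events are local and symmetric

As `bdT_loc`, `bdT_sym` (`Lib_MP_2c424f_thr/B3b.lean`, `B3c.lean`, `B6a.lean`): the reflection `rs j α` maps the closed
block `rb j α t` onto `t` with the bits of the direction `j` flipped (look for the lemma on `rs j α (pt (rb j α t) a b)` in
`Lib_MP_2c424f_lo/Refl.lean` or `RP.lean`), so the pattern of the reflected colouring at `rb j α t` is `rP r (pat f t)` with
`r = Pi.single`-like bit vector of `j`; `BDP_rP`.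
-/

set_option autoImplicit false

open Finset Filter

namespace Pool.Agent.LC

open Pool.Agent.LO Pool.Agent.LIN Pool.Agent.THR Pool.Agent.COR

theorem BDP_loc {d k q : ℕ} (τ : Option (Fin q)) (t : Blk d k) (f g : Site d (k + 1) → Fin q)
    (h : ∀ a b, f (pt t a b) = g (pt t a b)) (hb : BDP τ (pat f t)) : BDP τ (pat g t) := by
  have e : pat f t = pat g t := by
    funext a b
    exact h a b
  rw [← e]
  exact hb

private theorem A02_xr {d : ℕ} (j : Fin d) (a : Bt d) : xr (fun i => decide (i = j)) a = flp a j := by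
  funext i
  unfold xr flp
  by_cases hi : i = j
  · subst hi
    rw [Function.update_self]
    simp
  · rw [Function.update_of_ne hi]
    simp [hi]

theorem BDP_sym {d k q : ℕ} (τ : Option (Fin q)) (j : Fin d) (α : ZMod (2 ^ k)) (t : Blk d k)
    (f : Site d (k + 1) → Fin q) (hb : BDP τ (pat f t)) : BDP τ (pat (fun x => f (rs j α x)) (rb j α t)) := by
  have e : pat (fun x => f (rs j α x)) (rb j α t) = rP (fun i => decide (i = j)) (pat f t) := by
    funext a b
    unfold rP pat
    beta_reduce
    rw [rs_pt, rb_rb, A02_xr, A02_xr]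
  rw [e]
  exact (BDP_rP _ τ _).2 hb

end Pool.Agent.LC
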