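import Pool.Agent.Lib_MP_2c424f_lc2.A02
import Pool.Agent.Lib_MP_2c424f_lc.PIII
import Pool.Agent.Lib_MP_2c424f_lo.Chess
import Pool.Agent.Lib_MP_2c424f_lo.RP

/-!
# LC2 A03: chessboard estimate for the bad blocks

As `pbadT` (`Lib_MP_2c424f_thr/B6.lean`): `LO.rp`, `LO.chess` with `r = exp (-(2^d/d^C))`; the homogeneous sets are rare by
`allbad`, `allunb` (`Rar C` with the larger of the two constants).
-/

set_option autoImplicit false

open Finset Filter

namespace Pool.Agent.LC

open Pool.Agent.LO Pool.Agent.LIN Pool.Agent.THR Pool.Agent.COR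

private theorem A03_rar {C C' d k q : ℕ} (hd : 1 ≤ d) (hC : C ≤ C') {P : (Site d k → Fin q) → Prop}
    (h : Rar C d k q P) : Rar C' d k q P := by
  unfold Rar at h ⊢
  refine h.trans ?_
  have hZ : 0 ≤ ZZ d k q := by unfold ZZ; positivity
  refine mul_le_mul_of_nonneg_left (Real.exp_le_exp.2 (neg_le_neg ?_)) hZ
  have hd' : (1 : ℝ) ≤ d := by exact_mod_cast hd
  have hN : 0 ≤ NN d k := by unfold NN; positivity
  exact div_le_div_of_nonneg_left hN (by positivity) (pow_le_pow_right₀ hd' hC)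

theorem chessB : ∃ C : ℕ, EvR fun d k q => ∀ (τ : Option (Fin q)) (Γ : Finset (Blk d k)),
    cE (fun t f => BDP τ (pat (q := q) f t)) Γ ≤ ZZ d (k + 1) q * Real.exp (-(2 ^ d / (d : ℝ) ^ C)) ^ Γ.card := by
  classical
  obtain ⟨C₁, d₁, h₁⟩ := allbad
  obtain ⟨C₂, d₂, h₂⟩ := allunb
  refine ⟨max C₁ C₂, max 1 (max d₁ d₂), fun d q hd hq => ?_⟩
  have hd1 : 1 ≤ d := (le_max_left _ _).trans hd
  have hdd1 : d₁ ≤ d := ((le_max_left _ _).trans (le_max_right _ _)).trans hd
  have hdd2 : d₂ ≤ d := ((le_max_right _ _).trans (le_max_right _ _)).trans hd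
  filter_upwards [h₁ d q hdd1 hq, h₂ d q hdd2 hq, eventually_ge_atTop 1] with k hk₁ hk₂ hk
  intro τ
  have hrar : Rar (max C₁ C₂) d (k + 1) q
      fun f : Site d (k + 1) → Fin q => ∀ t : Blk d k, BDP τ (pat f t) := by
    cases τ with
    | none => exact A03_rar hd1 (le_max_right _ _) hk₂
    | some c => exact A03_rar hd1 (le_max_left _ _) (hk₁ c)
  have hfull : cE (fun t f => BDP τ (pat (q := q) f t)) (univ : Finset (Blk d k)) ≤
      ZZ d (k + 1) q * Real.exp (-(2 ^ d / (d : ℝ) ^ (max C₁ C₂))) ^ (Fintype.card (Blk d k)) := by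
    refine le_trans ?_ (le_trans hrar ?_)
    · unfold cE
      refine Nat.cast_le.2 (card_le_card fun f hf => ?_)
      simp only [mem_filter] at hf ⊢
      exact ⟨hf.1, fun t => hf.2 t (mem_univ t)⟩
    · have hZ : 0 ≤ ZZ d (k + 1) q := by unfold ZZ; positivity
      apply mul_le_mul_of_nonneg_left _ hZ
      rw [← Real.exp_nat_mul]
      apply Real.exp_le_exp.2
      have hc : (Fintype.card (Blk d k) : ℝ) = NN d k := card_site d k
      rw [hc]
      have hNk : NN d (k + 1) = NN d k * 2 ^ d := by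
        unfold NN
        rw [pow_succ, mul_pow]
      have : NN d k * -((2 : ℝ) ^ d / (d : ℝ) ^ (max C₁ C₂)) =
          -(NN d (k + 1) / (d : ℝ) ^ (max C₁ C₂)) := by
        rw [hNk]; ring
      rw [this]
  exact chess hk (cE (fun t f => BDP τ (pat (q := q) f t))) (ZZ d (k + 1) q)
    (Real.exp (-(2 ^ d / (d : ℝ) ^ (max C₁ C₂))))
    (Real.exp_pos _)
    (by unfold ZZ; positivity) (fun Γ => by unfold cE; positivity)
    (fun j α Γ => rp hk (fun t f => BDP τ (pat (q := q) f t))
      (fun t f g h hb => BDP_loc τ t f g h hb)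
      (fun j α t f hb => BDP_sym τ j α t f hb) j α Γ)
    (by
      unfold cE ZZ
      exact_mod_cast Finset.card_le_card (Finset.filter_subset _ _))
    hfull

end Pool.Agent.LC
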