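import Pool.Agent.Lib_MP_2c424f_lc2.A03

/-!
# LC2 A04: few bad blocks

If more than `N'/d^K` blocks are not good (`N' = (2^k)^d` blocks) then for some `τ` (`q + 1` kinds) the set
`Γ = {t : BDP τ (pat f t)}` has at least `N' / (d^K (q+1))` elements.  Union bound over `τ` and `Γ` (`2^{N'}` sets) with `chessB`:
`(q+1) 2^{N'} exp (-(2^d/d^C) N'/(d^K (q+1))) ≤ exp (-N/d^{C+K+3})`, `N = 2^d N'`, since `2^d/d^{C+K+2}` is larger than any constant for
large `d` (`q ≤ 2 d`).
-/

set_option autoImplicit false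

open Finset Filter

namespace Pool.Agent.LC

open Pool.Agent.LO Pool.Agent.LIN Pool.Agent.THR Pool.Agent.COR

open scoped Classical in
private theorem A04_pig {d k q : ℕ} (f : Site d (k + 1) → Fin q) :
    ((univ.filter fun t : Blk d k => ¬ GDP (pat f t)).card : ℝ) ≤
      ∑ τ : Option (Fin q), ((univ.filter fun t : Blk d k => BDP τ (pat f t)).card : ℝ) := by
  have h1 : (univ.filter fun t : Blk d k => ¬ GDP (pat f t)) ⊆
      (univ : Finset (Option (Fin q))).biUnion fun τ => univ.filter fun t : Blk d k => BDP τ (pat f t) := by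
    intro t ht
    rw [mem_filter] at ht
    obtain ⟨τ, hτ⟩ := (not_GDP _).1 ht.2
    rw [mem_biUnion]
    exact ⟨τ, mem_univ _, mem_filter.2 ⟨mem_univ _, hτ⟩⟩
  have h2 := (card_le_card h1).trans card_biUnion_le
  exact_mod_cast h2

private theorem A04_large (n : ℕ) : ∀ᶠ d : ℕ in atTop, 4 * (d : ℝ) ^ n ≤ 2 ^ d := by
  have h1 : ∀ᶠ d : ℕ in Filter.atTop, (d : ℝ) ^ n / (2 : ℝ) ^ d < 1 / 4 :=
    (tendsto_pow_const_div_const_pow_of_one_lt n (by norm_num : (1 : ℝ) < 2)).eventually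
      (gt_mem_nhds (by norm_num))
  filter_upwards [h1] with d hd
  rw [div_lt_div_iff₀ (by positivity) (by norm_num)] at hd
  linarith

open scoped Classical in
theorem few_bad (K : ℕ) : ∃ C : ℕ, EvR fun d k q => Rar C d (k + 1) q fun f =>
    ((2 : ℝ) ^ k) ^ d / (d : ℝ) ^ K < ((univ.filter fun t : Blk d k => ¬ GDP (pat f t)).card : ℝ) := by
  obtain ⟨C0, d0, hC0⟩ := chessB
  obtain ⟨d1, hd1⟩ := eventually_atTop.1 (A04_large (C0 + K + 1))
  refine ⟨C0 + K + 2, max (max d0 d1) 2, fun d q hd hR => ?_⟩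
  have hdd0 : d0 ≤ d := le_trans (le_trans (le_max_left _ _) (le_max_left _ _)) hd
  have hdd1 : d1 ≤ d := le_trans (le_trans (le_max_right _ _) (le_max_left _ _)) hd
  have hd2 : 2 ≤ d := le_trans (le_max_right _ _) hd
  have hL := hd1 d hdd1
  filter_upwards [hC0 d q hdd0 hR, eventually_ge_atTop 1] with k hk hk1
  have hd2r : (2 : ℝ) ≤ d := by exact_mod_cast hd2
  have hdp : (0 : ℝ) < d := by linarith
  have hqn : q + 1 ≤ d := by
    have := hR.2.1
    omega
  have hq : (q : ℝ) + 1 ≤ d := by exact_mod_cast hqn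
  have hq0 : (0 : ℝ) < (q : ℝ) + 1 := by positivity
  set N : ℝ := ((2 : ℝ) ^ k) ^ d with hN
  have hNd : (d : ℝ) ≤ N := by
    have h1 : (d : ℝ) ≤ 2 ^ d := by exact_mod_cast (Nat.lt_two_pow_self (n := d)).le
    have h2 : (2 : ℝ) ^ d ≤ ((2 : ℝ) ^ k) ^ d := by
      refine pow_le_pow_left₀ (by norm_num) ?_ d
      calc (2 : ℝ) = 2 ^ 1 := by norm_num
        _ ≤ 2 ^ k := pow_le_pow_right₀ (by norm_num) hk1
    exact h1.trans h2
  have hNp : 0 < N := lt_of_lt_of_le hdp hNd
  have hcard : (Fintype.card (Blk d k) : ℝ) = N := card_site d k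
  have hN1 : NN d (k + 1) = N * 2 ^ d := by
    unfold NN
    rw [pow_succ, mul_pow]
  have hZ : 0 ≤ ZZ d (k + 1) q := by unfold ZZ; positivity
  set S : Finset (Option (Fin q) × Finset (Blk d k)) :=
    univ.filter fun p => N / (d : ℝ) ^ K < ((q : ℝ) + 1) * (p.2.card : ℝ) with hS
  -- the union bound
  have hU : (((prps d (k + 1) q).filter fun f => N / (d : ℝ) ^ K <
      ((univ.filter fun t : Blk d k => ¬ GDP (pat f t)).card : ℝ)).card : ℝ) ≤
      ∑ p ∈ S, cE (fun t f => BDP p.1 (pat (q := q) f t)) p.2 := by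
    have h1 : ((prps d (k + 1) q).filter fun f => N / (d : ℝ) ^ K <
        ((univ.filter fun t : Blk d k => ¬ GDP (pat f t)).card : ℝ)) ⊆
        S.biUnion fun p => (prps d (k + 1) q).filter fun f => ∀ t ∈ p.2, BDP p.1 (pat f t) := by
      intro f hf
      rw [mem_filter] at hf
      obtain ⟨hf1, hf2⟩ := hf
      by_contra hcon
      have h2 : ∀ τ : Option (Fin q), ((univ.filter fun t : Blk d k => BDP τ (pat f t)).card : ℝ) ≤
          N / (d : ℝ) ^ K / ((q : ℝ) + 1) := by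
        intro τ
        by_contra h3
        push Not at h3
        rw [div_lt_iff₀ hq0] at h3
        refine hcon (mem_biUnion.2 ⟨(τ, univ.filter fun t : Blk d k => BDP τ (pat f t)), ?_, ?_⟩)
        · rw [hS, mem_filter]
          refine ⟨mem_univ _, ?_⟩
          show N / (d : ℝ) ^ K < ((q : ℝ) + 1) * ((univ.filter fun t : Blk d k => BDP τ (pat f t)).card : ℝ)
          linarith
        · rw [mem_filter]
          exact ⟨hf1, fun t ht => (mem_filter.1 ht).2⟩
      have h3 := (A04_pig f).trans (sum_le_card_nsmul univ _ _ fun τ _ => h2 τ)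
      rw [nsmul_eq_mul, card_univ, Fintype.card_option, Fintype.card_fin] at h3
      push_cast at h3
      rw [mul_div_cancel₀ _ hq0.ne'] at h3
      linarith
    have h2 := (card_le_card h1).trans card_biUnion_le
    unfold cE
    exact_mod_cast h2
  -- each summand
  have hE : ∀ p ∈ S, cE (fun t f => BDP p.1 (pat (q := q) f t)) p.2 ≤
      ZZ d (k + 1) q * Real.exp (-(2 ^ d * N / (d : ℝ) ^ (C0 + K + 1))) := by
    intro p hp
    rw [hS, mem_filter] at hp
    refine (hk p.1 p.2).trans (mul_le_mul_of_nonneg_left ?_ hZ)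
    rw [← Real.exp_nat_mul]
    refine Real.exp_le_exp.2 ?_
    have h1 : N / (d : ℝ) ^ K ≤ (d : ℝ) * (p.2.card : ℝ) :=
      hp.2.le.trans (mul_le_mul_of_nonneg_right hq (Nat.cast_nonneg _))
    rw [div_le_iff₀ (by positivity)] at h1
    have h2 : 2 ^ d * N / (d : ℝ) ^ (C0 + K + 1) ≤ (p.2.card : ℝ) * (2 ^ d / (d : ℝ) ^ C0) := by
      rw [div_le_iff₀ (by positivity)]
      have e : (p.2.card : ℝ) * (2 ^ d / (d : ℝ) ^ C0) * (d : ℝ) ^ (C0 + K + 1) =
          2 ^ d * ((d : ℝ) * (p.2.card : ℝ) * (d : ℝ) ^ K) := by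
        rw [pow_succ, pow_add]
        field_simp
      rw [e]
      exact mul_le_mul_of_nonneg_left h1 (by positivity)
    linarith
  have hSc : (S.card : ℝ) ≤ Real.exp (2 * N) := by
    have h1 : (S.card : ℝ) ≤ ((q : ℝ) + 1) * 2 ^ (Fintype.card (Blk d k)) := by
      have h2 : S.card ≤ Fintype.card (Option (Fin q) × Finset (Blk d k)) := card_le_univ _
      rw [Fintype.card_prod, Fintype.card_option, Fintype.card_fin, Fintype.card_finset] at h2
      exact_mod_cast h2
    have h2 : (2 : ℝ) ^ (Fintype.card (Blk d k)) ≤ Real.exp N := by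
      have h3 : (2 : ℝ) ≤ Real.exp 1 := by
        have := Real.add_one_le_exp (1 : ℝ)
        linarith
      calc (2 : ℝ) ^ (Fintype.card (Blk d k)) ≤ Real.exp 1 ^ (Fintype.card (Blk d k)) :=
            pow_le_pow_left₀ (by norm_num) h3 _
        _ = Real.exp N := by
            rw [← Real.exp_nat_mul, mul_one, hcard]
    have h3 : (q : ℝ) + 1 ≤ Real.exp N := by
      have := Real.add_one_le_exp N
      linarith
    calc (S.card : ℝ) ≤ ((q : ℝ) + 1) * 2 ^ (Fintype.card (Blk d k)) := h1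
      _ ≤ Real.exp N * Real.exp N := mul_le_mul h3 h2 (by positivity) (Real.exp_pos _).le
      _ = Real.exp (2 * N) := by rw [← Real.exp_add, two_mul]
  unfold Rar
  refine le_trans ?_ (le_trans (hU.trans (sum_le_card_nsmul S _ _ hE)) ?_)
  · refine le_of_eq ?_
    congr 2
  · rw [nsmul_eq_mul]
    have h1 : (S.card : ℝ) * (ZZ d (k + 1) q * Real.exp (-(2 ^ d * N / (d : ℝ) ^ (C0 + K + 1)))) ≤
        Real.exp (2 * N) * (ZZ d (k + 1) q * Real.exp (-(2 ^ d * N / (d : ℝ) ^ (C0 + K + 1)))) :=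
      mul_le_mul_of_nonneg_right hSc (mul_nonneg hZ (Real.exp_pos _).le)
    refine h1.trans ?_
    rw [mul_left_comm, ← Real.exp_add]
    refine mul_le_mul_of_nonneg_left (Real.exp_le_exp.2 ?_) hZ
    rw [hN1]
    have e1 : 2 ^ d * N / (d : ℝ) ^ (C0 + K + 1) = (d : ℝ) * (N * 2 ^ d / (d : ℝ) ^ (C0 + K + 2)) := by
      rw [pow_succ (d : ℝ) (C0 + K + 1)]
      field_simp
    have h2 : 4 * N ≤ 2 ^ d * N / (d : ℝ) ^ (C0 + K + 1) := by
      rw [le_div_iff₀ (by positivity)]
      nlinarith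
    have h3 : 0 ≤ N * 2 ^ d / (d : ℝ) ^ (C0 + K + 2) := by positivity
    have h4 : 2 * (N * 2 ^ d / (d : ℝ) ^ (C0 + K + 2)) ≤ 2 ^ d * N / (d : ℝ) ^ (C0 + K + 1) := by
      rw [e1]
      exact mul_le_mul_of_nonneg_right hd2r h3
    linarith

end Pool.Agent.LC
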