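import Pool.Agent.Lib_MP_2c424f_lc2.WDefs

/-!
# LC2 B01: sums over rings and paths of states as traces and matrix elements

`S` a finite set of states.  Induction on the length (see also `e2a` lemmas in `Lib_MP_2c424f_lin/E2a.lean`: ring sums as traces).
* `ring_pow`: `∑_{σ : Fin (n+1) → S} ∏_i M (σ i) (σ (i+1 mod n+1)) = Tr (M^(n+1))`.
* `path_mat`: `∑_{σ : Fin (n+1) → S} u (σ 0) w (σ n) ∏_{i<n} (A i) (σ i) (σ (i+1)) = u ⬝ᵥ (A 0 ⋯ A (n-1)) *ᵥ w`.
* `ring_mat`: the same for rings with different matrices.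
-/

set_option autoImplicit false

open Finset Matrix

namespace Pool.Agent.LC

variable {S : Type} [Fintype S] [DecidableEq S]

theorem path_mat (n : ℕ) (A : ℕ → Matrix S S ℝ) (u w : S → ℝ) :
    ∑ σ : Fin (n + 1) → S, u (σ 0) * w (σ (Fin.last n)) * ∏ i : Fin n, A i (σ i.castSucc) (σ i.succ) =
      u ⬝ᵥ (((List.range n).map A).prod *ᵥ w) := by
  induction n generalizing A u with
  | zero =>
    have e : (∑ σ : Fin 1 → S, u (σ 0) * w (σ 0)) = ∑ s : S, u s * w s :=
      Fintype.sum_equiv (Equiv.funUnique (Fin 1) S) _ _ fun σ => rfl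
    simpa [dotProduct] using e
  | succ n ih =>
    rw [← Equiv.sum_comp (Fin.consEquiv fun _ : Fin (n + 2) => S), Fintype.sum_prod_type]
    rw [List.range_succ_eq_map, List.map_cons, List.prod_cons, List.map_map,
      ← Matrix.mulVec_mulVec, Matrix.dotProduct_mulVec]
    have h := ih (fun i => A (i + 1)) (u ᵥ* A 0)
    have h2 : (A ∘ Nat.succ) = fun i => A (i + 1) := rfl
    rw [h2, ← h, Finset.sum_comm]
    refine Finset.sum_congr rfl fun τ _ => ?_
    have h3 : ∀ s : S, u ((Fin.consEquiv fun _ : Fin (n + 2) => S) (s, τ) 0) *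
        w ((Fin.consEquiv fun _ : Fin (n + 2) => S) (s, τ) (Fin.last (n + 1))) *
        ∏ i : Fin (n + 1), A i ((Fin.consEquiv fun _ : Fin (n + 2) => S) (s, τ) i.castSucc)
          ((Fin.consEquiv fun _ : Fin (n + 2) => S) (s, τ) i.succ) =
        u s * A 0 s (τ 0) * (w (τ (Fin.last n)) *
          ∏ i : Fin n, A (i + 1) (τ i.castSucc) (τ i.succ)) := by
      intro s
      have e0 : (Fin.consEquiv fun _ : Fin (n + 2) => S) (s, τ) 0 = s := rfl
      have e1 : ∀ j : Fin (n + 1), (Fin.consEquiv fun _ : Fin (n + 2) => S) (s, τ) j.succ = τ j :=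
        fun j => rfl
      rw [Fin.prod_univ_succ, ← Fin.succ_last]
      have e2 : (Fin.castSucc (0 : Fin (n + 1))) = 0 := rfl
      simp only [e0, e1, e2, ← Fin.succ_castSucc, Fin.val_zero, Fin.val_succ]
      ring
    rw [Finset.sum_congr rfl fun s _ => h3 s, ← Finset.sum_mul]
    have h4 : ∑ s, u s * A 0 s (τ 0) = (u ᵥ* A 0) (τ 0) := rfl
    rw [h4]
    ring

theorem ring_mat (n : ℕ) (A : ℕ → Matrix S S ℝ) :
    ∑ σ : Fin (n + 1) → S, ∏ i : Fin (n + 1), A i (σ i) (σ (i + 1)) =
      (((List.range (n + 1)).map A).prod).trace := by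
  rw [List.range_succ, List.map_append, List.prod_append, List.map_singleton, List.prod_singleton]
  set P := ((List.range n).map A).prod with hP
  have h1 : ∀ s t : S, P s t = ∑ σ : Fin (n + 1) → S,
      (Pi.single s 1 : S → ℝ) (σ 0) * (Pi.single t 1 : S → ℝ) (σ (Fin.last n)) *
        ∏ i : Fin n, A i (σ i.castSucc) (σ i.succ) := by
    intro s t
    rw [path_mat n A (Pi.single s 1) (Pi.single t 1), ← hP]
    simp
  have h2 : (P * A n).trace = ∑ s, ∑ t, P s t * A n t s := by
    simp [Matrix.trace, Matrix.mul_apply]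
  rw [h2]
  simp_rw [h1, Finset.sum_mul]
  rw [Finset.sum_congr rfl fun s _ => Finset.sum_comm, Finset.sum_comm]
  refine Finset.sum_congr rfl fun σ _ => ?_
  rw [Finset.sum_eq_single (σ 0), Finset.sum_eq_single (σ (Fin.last n))]
  · rw [Fin.prod_univ_castSucc, Fin.last_add_one]
    simp only [Pi.single_eq_same, one_mul, Fin.val_castSucc, Fin.coeSucc_eq_succ, Fin.val_last]
  · intro t _ ht
    rw [Pi.single_eq_of_ne (Ne.symm ht)]
    simp
  · intro h
    exact absurd (Finset.mem_univ _) h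
  · intro s _ hs
    refine Finset.sum_eq_zero fun t _ => ?_
    rw [Pi.single_eq_of_ne (Ne.symm hs)]
    simp
  · intro h
    exact absurd (Finset.mem_univ _) h

theorem ring_pow (n : ℕ) (M : Matrix S S ℝ) :
    ∑ σ : Fin (n + 1) → S, ∏ i : Fin (n + 1), M (σ i) (σ (i + 1)) = (M ^ (n + 1)).trace := by
  have h := ring_mat n fun _ => M
  simpa using h

end Pool.Agent.LC
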