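import Pool.Agent.Lib_MP_2c424f_lc2.B01

/-!
# LC2 B02: splitting off one direction

`∀ i, Fin (n i)` is `Fin (n j) × ∀ i : {i // i ≠ j}, Fin (n i)` (`Equiv.piSplitAt`); a colouring is a family of layers
`σ : Fin (n j) → S`, `S = (∀ i : {i // i ≠ j}, Fin (n i)) → Fin q`; it is proper iff every layer is proper (`prG` over the index type
`{i // i ≠ j}`) and layers which are neighbours in `R j` differ everywhere.

`Zt_double`: `T σ σ' = 1[σ, σ' proper, σ y ≠ σ' y for all y]` is symmetric, `Zt n = Tr (T^(n j))` (`ring_pow`; for `n j ≥ 2`), and for even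
`n j = 2 r`: `T^(2 r) = T^r (T^r)ᵀ` is positive semidefinite, so `Tr (P^2) = ∑ P_ab^2 ≤ ∑ P_aa P_bb = (Tr P)^2` for `P = T^(n j)`
(cf. `zig_mono` in `Lib_MP_2c424f_lin/E2.lean`).
-/

set_option autoImplicit false

open Finset Matrix

namespace Pool.Agent.LC

open Pool.Agent.LO Pool.Agent.LIN Pool.Agent.THR Pool.Agent.COR

/-- put the coordinate `j` -/
def inj {I : Type} [DecidableEq I] {n : I → ℕ} (j : I) (a : Fin (n j)) (y : ∀ i : {i // i ≠ j}, Fin (n i)) : ∀ i, Fin (n i) :=
  (Equiv.piSplitAt j fun i => Fin (n i)).symm (a, y)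

private theorem inj_same {I : Type} [DecidableEq I] {n : I → ℕ} (j : I) (a : Fin (n j))
    (y : ∀ i : {i // i ≠ j}, Fin (n i)) : inj j a y j = a := by
  unfold inj
  simp [Equiv.piSplitAt]

private theorem inj_ne {I : Type} [DecidableEq I] {n : I → ℕ} (j : I) (a : Fin (n j))
    (y : ∀ i : {i // i ≠ j}, Fin (n i)) (i : I) (h : i ≠ j) : inj j a y i = y ⟨i, h⟩ := by
  unfold inj
  simp [Equiv.piSplitAt, h]

private theorem inj_surj {I : Type} [DecidableEq I] {n : I → ℕ} (j : I) (x : ∀ i, Fin (n i)) :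
    inj j (x j) (fun i => x i) = x := by
  funext i
  by_cases h : i = j
  · subst h
    exact inj_same _ _ _
  · rw [inj_ne j _ _ i h]

/-- proper colourings in layers -/
theorem split_proper {I : Type} [DecidableEq I] {n : I → ℕ} {q : ℕ} (j : I) (R : ∀ i, SimpleGraph (Fin (n i)))
    (f : (∀ i, Fin (n i)) → Fin q) :
    PrG (prG n R) f ↔
      (∀ a, PrG (prG (fun i : {i // i ≠ j} => n i) fun i => R i) fun y => f (inj j a y)) ∧
        ∀ a a', (R j).Adj a a' → ∀ y, f (inj j a y) ≠ f (inj j a' y) := by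
  constructor
  · intro h
    refine ⟨fun a y y' hy => h _ _ ?_, fun a a' ha y => h _ _ ?_⟩
    · obtain ⟨i, h1, h2⟩ := hy
      refine ⟨i.1, fun k hk => ?_, ?_⟩
      · by_cases hkj : k = j
        · subst hkj
          rw [inj_same, inj_same]
        · rw [inj_ne j _ _ k hkj, inj_ne j _ _ k hkj]
          exact h1 ⟨k, hkj⟩ fun h3 => hk (congrArg Subtype.val h3)
      · rw [inj_ne j _ _ i.1 i.2, inj_ne j _ _ i.1 i.2]
        exact h2
    · refine ⟨j, fun k hk => ?_, ?_⟩
      · rw [inj_ne j _ _ k hk, inj_ne j _ _ k hk]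
      · rw [inj_same, inj_same]
        exact ha
  · rintro ⟨h1, h2⟩ x y ⟨i, h3, h4⟩
    by_cases hij : i = j
    · subst hij
      have e : (fun k : {k // k ≠ i} => x k) = fun k : {k // k ≠ i} => y k := by
        funext k
        exact h3 k.1 k.2
      have h5 := h2 (x i) (y i) h4 fun k => x k
      rw [inj_surj, e, inj_surj] at h5
      exact h5
    · have e : x j = y j := h3 j fun h => hij h.symm
      have h5 := h1 (x j) (fun k => x k) (fun k => y k) ⟨⟨i, hij⟩, fun k hk => h3 k.1 fun h =>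
        hk (Subtype.ext h), h4⟩
      simp only at h5
      rw [inj_surj] at h5
      rw [e, inj_surj] at h5
      exact h5

/-- the equivalence of colourings and families of layers -/
def layE {I : Type} [DecidableEq I] {n : I → ℕ} (C : Type) (j : I) :
    ((∀ i, Fin (n i)) → C) ≃ (Fin (n j) → (∀ i : {i // i ≠ j}, Fin (n i)) → C) :=
  ((Equiv.piSplitAt j fun i => Fin (n i)).arrowCongr (Equiv.refl C)).trans (Equiv.curry _ _ _)

theorem layE_apply {I : Type} [DecidableEq I] {n : I → ℕ} (C : Type) (j : I) (f : (∀ i, Fin (n i)) → C) (a : Fin (n j))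
    (y : ∀ i : {i // i ≠ j}, Fin (n i)) : layE C j f a y = f (inj j a y) := rfl

open scoped Classical in
/-- the transfer matrix -/
private noncomputable def B02_M {J : Type} [Fintype J] [DecidableEq J] (n : J → ℕ) (q : ℕ) :
    Matrix ((∀ i, Fin (n i)) → Fin q) ((∀ i, Fin (n i)) → Fin q) ℝ := fun σ σ' =>
  if (PrG (prG n fun i => lnG true (n i)) σ ∧ PrG (prG n fun i => lnG true (n i)) σ' ∧ ∀ y, σ y ≠ σ' y) then 1 else 0

private theorem B02_symm {J : Type} [Fintype J] [DecidableEq J] (n : J → ℕ) (q : ℕ) :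
    (B02_M n q)ᵀ = B02_M n q := by
  ext σ σ'
  rw [Matrix.transpose_apply]
  unfold B02_M
  have : (PrG (prG n fun i => lnG true (n i)) σ' ∧ PrG (prG n fun i => lnG true (n i)) σ ∧ ∀ y, σ' y ≠ σ y) ↔
      (PrG (prG n fun i => lnG true (n i)) σ ∧ PrG (prG n fun i => lnG true (n i)) σ' ∧ ∀ y, σ y ≠ σ' y) := by
    constructor
    · rintro ⟨h1, h2, h3⟩
      exact ⟨h2, h1, fun y => (h3 y).symm⟩
    · rintro ⟨h1, h2, h3⟩
      exact ⟨h2, h1, fun y => (h3 y).symm⟩
  by_cases h : (PrG (prG n fun i => lnG true (n i)) σ ∧ PrG (prG n fun i => lnG true (n i)) σ' ∧ ∀ y, σ y ≠ σ' y)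
  · rw [if_pos h, if_pos (this.2 h)]
  · rw [if_neg h, if_neg (fun h' => h (this.1 h'))]

private theorem lnG_succ (m : ℕ) (hm : 1 ≤ m) (a : Fin (m + 1)) : (lnG true (m + 1)).Adj a (a + 1) := by
  have hm' : 1 % (m + 1) = 1 := Nat.mod_eq_of_lt (by omega)
  have hv : (a + 1).val = if a.val = m then 0 else a.val + 1 := by
    rw [Fin.val_add_one]
    by_cases h : a.val = m
    · have h1 : a = Fin.last m := Fin.ext h
      rw [if_pos h1, if_pos h]
    · have h1 : a ≠ Fin.last m := fun h2 => h (congrArg Fin.val h2)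
      rw [if_neg h1, if_neg h]
  refine ⟨?_, ?_⟩
  · intro h
    have h1 := congrArg Fin.val h
    rw [hv] at h1
    split_ifs at h1 <;> omega
  · rw [hv]
    split_ifs with h
    · exact Or.inr (Or.inr ⟨rfl, Or.inr ⟨rfl, by omega⟩⟩)
    · exact Or.inl rfl

private theorem lnG_adj (m : ℕ) (a b : Fin (m + 1)) (h : (lnG true (m + 1)).Adj a b) :
    b = a + 1 ∨ a = b + 1 := by
  have hv : ∀ a : Fin (m + 1), (a + 1).val = if a.val = m then 0 else a.val + 1 := by
    intro a
    rw [Fin.val_add_one]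
    by_cases h : a.val = m
    · have h1 : a = Fin.last m := Fin.ext h
      rw [if_pos h1, if_pos h]
    · have h1 : a ≠ Fin.last m := fun h2 => h (congrArg Fin.val h2)
      rw [if_neg h1, if_neg h]
  obtain ⟨h1, h2⟩ := h
  have ha := a.2
  have hb := b.2
  rcases h2 with h2 | h2 | ⟨-, h2 | h2⟩
  · left
    apply Fin.ext
    rw [hv a, if_neg (by omega)]
    omega
  · right
    apply Fin.ext
    rw [hv b, if_neg (by omega)]
    omega
  · right
    apply Fin.ext
    rw [hv b, if_pos (by omega)]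
    omega
  · left
    apply Fin.ext
    rw [hv a, if_pos (by omega)]
    omega

open scoped Classical in
private theorem B02_ring {J : Type} [Fintype J] [DecidableEq J] (n : J → ℕ) (q N : ℕ) (hN : 2 ≤ N) :
    ((univ.filter fun σ : Fin N → (∀ i, Fin (n i)) → Fin q =>
      (∀ a, PrG (prG n fun i => lnG true (n i)) (σ a)) ∧
        ∀ a a', (lnG true N).Adj a a' → ∀ y, σ a y ≠ σ a' y).card : ℝ) = ((B02_M n q) ^ N).trace := by
  obtain ⟨m, rfl⟩ : ∃ m, N = m + 1 := ⟨N - 1, by omega⟩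
  rw [← ring_pow m (B02_M n q), Finset.card_filter]
  push_cast
  refine Finset.sum_congr rfl fun σ _ => ?_
  by_cases h : (∀ a, PrG (prG n fun i => lnG true (n i)) (σ a)) ∧
        ∀ a a', (lnG true (m + 1)).Adj a a' → ∀ y, σ a y ≠ σ a' y
  · rw [if_pos h]
    symm
    refine Finset.prod_eq_one fun i _ => ?_
    unfold B02_M
    rw [if_pos ⟨h.1 _, h.1 _, h.2 _ _ (lnG_succ m (by omega) i)⟩]
  · rw [if_neg h]
    symm
    by_contra h0
    apply h
    have h1 : ∀ i, B02_M n q (σ i) (σ (i + 1)) ≠ 0 := by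
      intro i hi
      exact h0 (Finset.prod_eq_zero (Finset.mem_univ i) hi)
    have h2 : ∀ i, PrG (prG n fun i => lnG true (n i)) (σ i) ∧
        PrG (prG n fun i => lnG true (n i)) (σ (i + 1)) ∧ ∀ y, σ i y ≠ σ (i + 1) y := by
      intro i
      by_contra h3
      apply h1 i
      unfold B02_M
      rw [if_neg h3]
    refine ⟨fun a => (h2 a).1, fun a a' ha y => ?_⟩
    rcases lnG_adj m a a' ha with h3 | h3
    · rw [h3]
      exact (h2 a).2.2 y
    · rw [h3]
      exact ((h2 a').2.2 y).symm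

private theorem B02_tr {d q : ℕ} (n : Fin d → ℕ) (j : Fin d) (h2 : 2 ≤ n j) :
    Zt q n = ((B02_M (fun i : {i // i ≠ j} => n i) q) ^ (n j)).trace := by
  classical
  rw [← B02_ring _ q (n j) h2]
  unfold Zt cG
  rw [Nat.cast_inj]
  refine Finset.card_equiv (layE (Fin q) j) fun f => ?_
  simp only [Finset.mem_filter, Finset.mem_univ, true_and, and_true]
  exact split_proper j _ f

theorem Zt_double {d q : ℕ} (n : Fin d → ℕ) (j : Fin d) (hn : Even (n j)) (h2 : 2 ≤ n j) :
    Zt q (Function.update n j (2 * n j)) ≤ Zt q n ^ 2 := by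
  classical
  have e1 : Zt q (Function.update n j (2 * n j)) =
      ((B02_M (fun i : {i // i ≠ j} => n i) q) ^ (2 * n j)).trace := by
    rw [B02_tr (Function.update n j (2 * n j)) j (by rw [Function.update_self]; omega)]
    have h3 : ∀ (n' : {i // i ≠ j} → ℕ) (N : ℕ), n' = (fun i : {i // i ≠ j} => n i) → N = 2 * n j →
        ((B02_M n' q) ^ N).trace = ((B02_M (fun i : {i // i ≠ j} => n i) q) ^ (2 * n j)).trace := by
      rintro _ _ rfl rfl
      rfl
    refine h3 _ _ ?_ (Function.update_self _ _ _)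
    funext i
    exact Function.update_of_ne i.2 _ _
  rw [e1, B02_tr n j h2]
  obtain ⟨r, hr⟩ := hn
  obtain ⟨M, hM⟩ : ∃ M, M = B02_M (fun i : {i // i ≠ j} => n i) q := ⟨_, rfl⟩
  have hMs : Mᵀ = M := by
    rw [hM]
    exact B02_symm _ _
  rw [← hM]
  obtain ⟨G, hG⟩ : ∃ G, G = M ^ r := ⟨_, rfl⟩
  have hGs : Gᵀ = G := by
    rw [hG, Matrix.transpose_pow, hMs]
  obtain ⟨P, hP⟩ : ∃ P, P = M ^ (n j) := ⟨_, rfl⟩
  have hPG : P = G * Gᵀ := by
    rw [hGs, hP, hG, hr, pow_add]
  have hPP : M ^ (2 * n j) = P * Pᵀ := by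
    have : Pᵀ = P := by rw [hP, Matrix.transpose_pow, hMs]
    rw [this, hP, two_mul, pow_add]
  rw [hPP, ← hP]
  have h4 : ∀ a b, P a b ^ 2 ≤ P a a * P b b := by
    intro a b
    have h5 : ∀ a b, P a b = ∑ c, G a c * G b c := by
      intro a b
      rw [hPG, Matrix.mul_apply]
      simp only [Matrix.transpose_apply]
    rw [h5 a b, h5 a a, h5 b b]
    have := Finset.sum_mul_sq_le_sq_mul_sq univ (fun c => G a c) (fun c => G b c)
    calc (∑ c, G a c * G b c) ^ 2 ≤ (∑ c, G a c ^ 2) * ∑ c, G b c ^ 2 := this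
      _ = (∑ c, G a c * G a c) * ∑ c, G b c * G b c := by simp only [sq]
  unfold Matrix.trace
  simp only [Matrix.diag_apply, Matrix.mul_apply, Matrix.transpose_apply]
  rw [sq, Finset.sum_mul_sum]
  refine Finset.sum_le_sum fun a _ => Finset.sum_le_sum fun b _ => ?_
  rw [← sq]
  exact h4 a b

end Pool.Agent.LC
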