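import Pool.Agent.Lib_MP_2c424f_lc2.B02

/-!
# LC2 B03: upper bound of the number of colourings of the big torus

`ZZ d (k+1) q = Zt (fun _ => 2^(k+1))` (`ZMod (2^(k+1))` is `Fin (2^(k+1))`; neighbours are `x ± e_i`), and `Zt_double` iterated:
`Zt (fun i => 2^(e i) n i) ≤ (Zt n)^(2^(∑ e i))`.
-/

set_option autoImplicit false

open Finset

namespace Pool.Agent.LC

open Pool.Agent.LO Pool.Agent.LIN Pool.Agent.THR Pool.Agent.COR

theorem Zt_pow {d q : ℕ} (n e : Fin d → ℕ) (hn : ∀ i, Even (n i) ∧ 2 ≤ n i) :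
    Zt q (fun i => 2 ^ e i * n i) ≤ Zt q n ^ (2 ^ ∑ i, e i) := by
  classical
  have key : ∀ (N : ℕ) (e : Fin d → ℕ), ∑ i, e i = N →
      Zt q (fun i => 2 ^ e i * n i) ≤ Zt q n ^ (2 ^ N) := by
    intro N
    induction N with
    | zero =>
      intro e he
      have h0 : ∀ i, e i = 0 := fun i => (Finset.sum_eq_zero_iff.1 he) i (Finset.mem_univ i)
      have h1 : (fun i => 2 ^ e i * n i) = n := by
        funext i
        rw [h0 i, pow_zero, one_mul]
      rw [h1, pow_zero, pow_one]
    | succ N ih =>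
      intro e he
      obtain ⟨j, hj⟩ : ∃ j, e j ≠ 0 := by
        by_contra h
        push Not at h
        rw [Finset.sum_eq_zero fun i _ => h i] at he
        omega
      obtain ⟨e', he'⟩ : ∃ e' : Fin d → ℕ, e' = Function.update e j (e j - 1) := ⟨_, rfl⟩
      have hj' : e' j = e j - 1 := by rw [he', Function.update_self]
      have hne : ∀ i, i ≠ j → e' i = e i := fun i hi => by rw [he', Function.update_of_ne hi]
      have hs : ∑ i, e' i = N := by
        have h1 := Finset.add_sum_erase univ e' (Finset.mem_univ j)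
        have h2 := Finset.add_sum_erase univ e (Finset.mem_univ j)
        have h3 : ∑ i ∈ univ.erase j, e' i = ∑ i ∈ univ.erase j, e i :=
          Finset.sum_congr rfl fun i hi => hne i (Finset.mem_erase.1 hi).1
        omega
      have h1 : (fun i => 2 ^ e i * n i) =
          Function.update (fun i => 2 ^ e' i * n i) j (2 * (fun i => 2 ^ e' i * n i) j) := by
        funext i
        by_cases hi : i = j
        · subst hi
          have h4 : e i = e' i + 1 := by omega
          rw [Function.update_self, h4, pow_succ]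
          ring
        · rw [Function.update_of_ne hi, hne i hi]
      rw [h1]
      refine (Zt_double (fun i => 2 ^ e' i * n i) j ?_ ?_).trans ?_
      · exact (hn j).1.mul_left _
      · have h2 := (hn j).2
        have h3 : 1 ≤ 2 ^ e' j := Nat.one_le_two_pow
        change 2 ≤ 2 ^ e' j * n j
        nlinarith
      · have h0 : 0 ≤ Zt q (fun i => 2 ^ e' i * n i) := by
          unfold Zt cG
          exact Nat.cast_nonneg _
        calc Zt q (fun i => 2 ^ e' i * n i) ^ 2 ≤ (Zt q n ^ (2 ^ N)) ^ 2 :=
              pow_le_pow_left₀ h0 (ih e' hs) 2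
          _ = Zt q n ^ (2 ^ (N + 1)) := by rw [← pow_mul, pow_succ]
  exact key _ e rfl

private theorem B03_val (N : ℕ) (hN : 2 ≤ N) (z : ZMod N) :
    (z + 1).val = if z.val + 1 = N then 0 else z.val + 1 := by
  have : NeZero N := ⟨by omega⟩
  have : Fact (1 < N) := ⟨by omega⟩
  have h1 := ZMod.val_lt z
  rw [ZMod.val_add, ZMod.val_one]
  split_ifs with h
  · rw [h, Nat.mod_self]
  · exact Nat.mod_eq_of_lt (by omega)

private theorem B03_adj (N : ℕ) (hN : 2 ≤ N) (z w : ZMod N) (a b : Fin N) (ha : a.val = z.val) (hb : b.val = w.val) :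
    (lnG true N).Adj a b ↔ w = z + 1 ∨ z = w + 1 := by
  have hne : NeZero N := ⟨by omega⟩
  have hz := ZMod.val_lt z
  have hw := ZMod.val_lt w
  have h1 : ∀ z w : ZMod N, w = z + 1 ↔ w.val = if z.val + 1 = N then 0 else z.val + 1 := by
    intro z w
    rw [← B03_val N hN z]
    exact ⟨fun h => by rw [h], fun h => ZMod.val_injective N h⟩
  rw [h1 z w, h1 w z]
  constructor
  · rintro ⟨h2, h3⟩
    rw [ha, hb] at h3
    rcases h3 with h3 | h3 | ⟨-, h3 | h3⟩
    · left
      rw [if_neg (by omega)]
      omega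
    · right
      rw [if_neg (by omega)]
      omega
    · right
      rw [if_pos (by omega)]
      omega
    · left
      rw [if_pos (by omega)]
      omega
  · intro h
    refine ⟨fun h2 => ?_, ?_⟩
    · have h3 : z.val = w.val := by rw [← ha, ← hb, h2]
      rw [h3] at h
      rcases h with h | h <;> split_ifs at h <;> omega
    · rw [ha, hb]
      rcases h with h | h
      · split_ifs at h with h4
        · exact Or.inr (Or.inr ⟨rfl, Or.inr ⟨h, h4⟩⟩)
        · exact Or.inl h.symm
      · split_ifs at h with h4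
        · exact Or.inr (Or.inr ⟨rfl, Or.inl ⟨h, h4⟩⟩)
        · exact Or.inr (Or.inl h.symm)

theorem ZZ_Zt (d k q : ℕ) : ZZ d (k + 1) q = Zt q (fun _ : Fin d => 2 ^ (k + 1)) := by
  classical
  have hN2 : 2 ≤ 2 ^ (k + 1) := by
    rw [pow_succ]
    have : 1 ≤ 2 ^ k := Nat.one_le_two_pow
    omega
  obtain ⟨E, hE⟩ : ∃ E : Site d (k + 1) ≃ (∀ _ : Fin d, Fin (2 ^ (k + 1))), ∀ x i, (E x i).val = (x i).val :=
    ⟨Equiv.piCongrRight fun _ => ⟨fun z => ⟨z.val, ZMod.val_lt z⟩, fun a => (a.val : ZMod (2 ^ (k + 1))),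
      fun z => by simp, fun a => by
        apply Fin.ext
        exact ZMod.val_cast_of_lt a.2⟩, fun x i => rfl⟩
  unfold ZZ Zt cG prps
  rw [Nat.cast_inj]
  refine Finset.card_equiv (E.arrowCongr (Equiv.refl (Fin q))) fun f => ?_
  simp only [Finset.mem_filter, Finset.mem_univ, true_and, and_true]
  constructor
  · rintro h x y ⟨i, h1, h2⟩
    obtain ⟨x, rfl⟩ := E.surjective x
    obtain ⟨y, rfl⟩ := E.surjective y
    change f (E.symm (E x)) ≠ f (E.symm (E y))
    rw [Equiv.symm_apply_apply, Equiv.symm_apply_apply]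
    have h3 : ∀ j, j ≠ i → x j = y j := by
      intro j hj
      apply ZMod.val_injective
      rw [← hE, ← hE, h1 j hj]
    have h4 := (B03_adj _ hN2 (x i) (y i) _ _ (hE x i) (hE y i)).1 h2
    rcases h4 with h4 | h4
    · have h5 : y = x + sv (i, true) := by
        funext j
        by_cases hj : j = i
        · subst hj
          rw [Pi.add_apply]
          unfold sv
          simp [h4]
        · rw [Pi.add_apply]
          unfold sv
          simp [hj, h3 j hj]
      rw [h5]
      exact (h x (i, true)).symm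
    · have h5 : x = y + sv (i, true) := by
        funext j
        by_cases hj : j = i
        · subst hj
          rw [Pi.add_apply]
          unfold sv
          simp [h4]
        · rw [Pi.add_apply]
          unfold sv
          simp [hj, h3 j hj]
      rw [h5]
      exact h y (i, true)
  · intro h x σ
    have h1 := h (E (x + sv σ)) (E x) ⟨σ.1, fun j hj => ?_, ?_⟩
    · change f (E.symm (E (x + sv σ))) ≠ f (E.symm (E x)) at h1
      rw [Equiv.symm_apply_apply, Equiv.symm_apply_apply] at h1
      exact h1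
    · apply Fin.ext
      rw [hE, hE, Pi.add_apply]
      unfold sv
      simp [hj]
    · refine (B03_adj _ hN2 _ _ _ _ (hE (x + sv σ) σ.1) (hE x σ.1)).2 ?_
      rw [Pi.add_apply]
      unfold sv
      rw [Pi.single_eq_same]
      rcases σ with ⟨i, b⟩
      cases b
      · left
        simp
      · right
        simp

/-- `r i ≤ k`; the sides are `2^(r i + 1)` -/
theorem ZZ_le_Zt {d k q : ℕ} (r : Fin d → ℕ) (hr : ∀ i, r i ≤ k) :
    ZZ d (k + 1) q ≤ Zt q (fun i => 2 ^ (r i + 1)) ^ (2 ^ ∑ i, (k - r i)) := by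
  rw [ZZ_Zt]
  have h1 := Zt_pow (q := q) (fun i => 2 ^ (r i + 1)) (fun i => k - r i) fun i =>
    ⟨⟨2 ^ r i, by rw [pow_succ]; ring⟩, by
      rw [pow_succ]
      have : 1 ≤ 2 ^ r i := Nat.one_le_two_pow
      omega⟩
  have h2 : (fun _ : Fin d => 2 ^ (k + 1)) = fun i => 2 ^ (k - r i) * 2 ^ (r i + 1) := by
    funext i
    rw [← pow_add]
    congr 1
    have := hr i
    omega
  rw [h2]
  exact h1

end Pool.Agent.LC
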