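import Pool.Agent.Lib_MP_2c424f_lc2.WDefs

/-!
# LC2 B04: tiling the big torus by translates of a small torus

Small torus: `WV (fun _ => true) L s` with `L i = 2^(r i)`: `Fin (2 L i - 1 + 1)` in direction `i`.  `M = ∏ 2^(k - r i)` tiles.
Boundary `{x : ∃ i, x i = 0}`, at most `∑_i N / (2 L i)` points (`N` = number of points).  For a function `ξ` on the boundary and a family
`(F_T)` of proper colourings of the small torus, all equal to `ξ` on the boundary, with all blocks `BDP τ`, the function
`f (2 L T + u) = F_T u` is proper on the big torus with all blocks `BDP τ` (a neighbour or a point of a block in the next tile is in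
the boundary, where `F_T` and the colouring of the next tile agree; `Wpt` is taken modulo `2 L i`).  Then the power mean inequality as in
`A06`.
-/

set_option autoImplicit false

open Finset

namespace Pool.Agent.LC

open Pool.Agent.LO Pool.Agent.LIN Pool.Agent.THR Pool.Agent.COR

section B04

variable {d k q s : ℕ} {r : Fin d → ℕ}

private theorem B04_n (ρ s : ℕ) : lm true (2 ^ ρ) s + 1 = 2 ^ (ρ + 1) := by
  have h : 1 ≤ 2 ^ ρ := Nat.one_le_two_pow
  unfold lm
  rw [if_pos rfl, pow_succ]
  omega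

private abbrev B04W (r : Fin d → ℕ) (s : ℕ) : Type := WV (fun _ : Fin d => true) (fun i => 2 ^ r i) s

private abbrev B04T (k : ℕ) (r : Fin d → ℕ) : Type := ∀ i : Fin d, Fin (2 ^ (k - r i))

/-- the point of the small torus -/
private def B04red (r : Fin d → ℕ) (s : ℕ) (m : Fin d → ℕ) : B04W r s := fun i => Fin.ofNat _ (m i)

/-- the tile -/
private def B04tile (k : ℕ) (r : Fin d → ℕ) (m : Fin d → ℕ) : B04T k r := fun i =>
  ⟨m i / 2 ^ (r i + 1) % 2 ^ (k - r i), Nat.mod_lt _ (by positivity)⟩

private theorem B04red_val (m : Fin d → ℕ) (i : Fin d) :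
    (B04red r s m i).val = m i % 2 ^ (r i + 1) := by
  rw [← B04_n (r i) s]
  rfl

/-- the colouring of the big torus -/
private def B04big (F : B04T k r → B04W r s → Fin q) (x : Site d (k + 1)) : Fin q :=
  F (B04tile k r fun i => (x i).val) (B04red r s fun i => (x i).val)

private theorem B04_cast (hr : ∀ i, r i ≤ k) (F : B04T k r → B04W r s → Fin q) (m : Fin d → ℕ) :
    B04big F (fun i => ((m i : ℕ) : ZMod (2 ^ (k + 1)))) = F (B04tile k r m) (B04red r s m) := by
  have hp : ∀ i, 2 ^ (k + 1) = 2 ^ (r i + 1) * 2 ^ (k - r i) := by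
    intro i
    rw [← pow_add]
    congr 1
    have := hr i
    omega
  have h1 : (B04tile k r fun i => (((m i : ℕ) : ZMod (2 ^ (k + 1)))).val) = B04tile k r m := by
    funext i
    refine Fin.ext ?_
    change (((m i : ℕ) : ZMod (2 ^ (k + 1)))).val / 2 ^ (r i + 1) % 2 ^ (k - r i) =
      m i / 2 ^ (r i + 1) % 2 ^ (k - r i)
    rw [ZMod.val_natCast, hp i, Nat.mod_mul_right_div_self, Nat.mod_mod]
  have h2 : (B04red r s fun i => (((m i : ℕ) : ZMod (2 ^ (k + 1)))).val) = B04red r s m := by
    funext i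
    refine Fin.ext ?_
    rw [B04red_val, B04red_val, ZMod.val_natCast]
    exact Nat.mod_mod_of_dvd _ (Dvd.intro _ (hp i).symm)
  unfold B04big
  rw [h1, h2]

private theorem B04_bd {F : B04T k r → B04W r s → Fin q}
    (hF : ∀ T T' v, (∃ i, (v i).val = 0) → F T v = F T' v) (m : Fin d → ℕ) (T : B04T k r)
    (h : (∀ i, m i / 2 ^ (r i + 1) % 2 ^ (k - r i) = (T i).val) ∨ ∃ i, m i % 2 ^ (r i + 1) = 0) :
    F (B04tile k r m) (B04red r s m) = F T (B04red r s m) := by
  rcases h with h | ⟨i, hi⟩
  · have h1 : B04tile k r m = T := by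
      funext i
      exact Fin.ext (h i)
    rw [h1]
  · refine hF _ _ _ ⟨i, ?_⟩
    rw [B04red_val]
    exact hi

private theorem B04_adj (m : Fin d → ℕ) (j : Fin d) :
    (WG (fun _ : Fin d => true) (fun i => 2 ^ r i) s).Adj (B04red r s m)
      (B04red r s (Function.update m j (m j + 1))) := by
  refine ⟨j, fun i hi => ?_, ?_⟩
  · refine Fin.ext ?_
    rw [B04red_val, B04red_val, Function.update_of_ne hi]
  · have h1 := B04red_val (s := s) (r := r) m j
    have h2 := B04red_val (s := s) (r := r) (Function.update m j (m j + 1)) j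
    rw [Function.update_self] at h2
    have hn := B04_n (r j) s
    have hpos : 2 ≤ 2 ^ (r j + 1) := by
      rw [pow_succ]
      have := Nat.one_le_two_pow (n := r j)
      omega
    have hlt : m j % 2 ^ (r j + 1) < 2 ^ (r j + 1) := Nat.mod_lt _ (by omega)
    have h3 : (m j + 1) % 2 ^ (r j + 1) = (m j % 2 ^ (r j + 1) + 1) % 2 ^ (r j + 1) := by
      rw [Nat.add_mod, Nat.mod_eq_of_lt (show 1 < 2 ^ (r j + 1) by omega)]
    rcases Nat.lt_or_ge (m j % 2 ^ (r j + 1) + 1) (2 ^ (r j + 1)) with h4 | h4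
    · rw [h3, Nat.mod_eq_of_lt h4] at h2
      refine ⟨fun he => ?_, Or.inl ?_⟩
      · have h5 := congrArg Fin.val he
        rw [h1, h2] at h5
        omega
      · rw [h1, h2]
    · have h5 : m j % 2 ^ (r j + 1) + 1 = 2 ^ (r j + 1) := by omega
      rw [h3, h5, Nat.mod_self] at h2
      refine ⟨fun he => ?_, Or.inr (Or.inr ⟨rfl, Or.inr ⟨h2, ?_⟩⟩)⟩
      · have h6 := congrArg Fin.val he
        rw [h1, h2] at h6
        omega
      · rw [h1]
        exact h5.trans hn.symm

private theorem B04_step (hr : ∀ i, r i ≤ k) {F : B04T k r → B04W r s → Fin q}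
    (hF : ∀ T T' v, (∃ i, (v i).val = 0) → F T v = F T' v)
    (hP : ∀ T, PrG (WG (fun _ : Fin d => true) (fun i => 2 ^ r i) s) (F T))
    (x : Site d (k + 1)) (j : Fin d) : B04big F (x + Pi.single j 1) ≠ B04big F x := by
  set m : Fin d → ℕ := fun i => (x i).val with hm
  have hx : x = fun i => ((m i : ℕ) : ZMod (2 ^ (k + 1))) := by
    funext i
    exact (ZMod.natCast_zmod_val (x i)).symm
  have hx' : x + Pi.single j 1 =
      fun i => ((Function.update m j (m j + 1) i : ℕ) : ZMod (2 ^ (k + 1))) := by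
    funext i
    by_cases hi : i = j
    · subst hi
      rw [Pi.add_apply, Pi.single_eq_same, Function.update_self, Nat.cast_add, Nat.cast_one]
      congr 1
      exact (ZMod.natCast_zmod_val (x i)).symm
    · rw [Pi.add_apply, Pi.single_eq_of_ne hi, Function.update_of_ne hi, add_zero]
      exact (ZMod.natCast_zmod_val (x i)).symm
  have h1 : B04big F x = F (B04tile k r m) (B04red r s m) := by
    rw [hx]
    exact B04_cast hr F m
  have h2 : B04big F (x + Pi.single j 1) =
      F (B04tile k r (Function.update m j (m j + 1))) (B04red r s (Function.update m j (m j + 1))) := by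
    rw [hx']
    exact B04_cast hr F _
  have h3 : F (B04tile k r (Function.update m j (m j + 1)))
      (B04red r s (Function.update m j (m j + 1))) =
      F (B04tile k r m) (B04red r s (Function.update m j (m j + 1))) := by
    refine B04_bd hF _ _ ?_
    by_cases hb : (m j + 1) % 2 ^ (r j + 1) = 0
    · exact Or.inr ⟨j, by rw [Function.update_self]; exact hb⟩
    · refine Or.inl fun i => ?_
      by_cases hi : i = j
      · subst hi
        rw [Function.update_self]
        have h4 : (m i + 1) / 2 ^ (r i + 1) = m i / 2 ^ (r i + 1) := by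
          rw [Nat.succ_div, if_neg, add_zero]
          intro h5
          exact hb (Nat.mod_eq_zero_of_dvd h5)
        rw [h4]
        rfl
      · rw [Function.update_of_ne hi]
        rfl
  rw [h1, h2, h3]
  exact (hP _ _ _ (B04_adj m j)).symm

private theorem B04_prp (hr : ∀ i, r i ≤ k) {F : B04T k r → B04W r s → Fin q}
    (hF : ∀ T T' v, (∃ i, (v i).val = 0) → F T v = F T' v)
    (hP : ∀ T, PrG (WG (fun _ : Fin d => true) (fun i => 2 ^ r i) s) (F T)) : Prp (B04big F) := by
  rintro x ⟨j, b⟩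
  cases b with
  | true => exact B04_step hr hF hP x j
  | false =>
    have h1 := B04_step hr hF hP (x + Pi.single j (-1)) j
    have h2 : x + Pi.single j (-1) + Pi.single j (1 : ZMod (2 ^ (k + 1))) = x := by
      rw [add_assoc, ← Pi.single_add, neg_add_cancel, Pi.single_zero, add_zero]
    rw [h2] at h1
    exact h1.symm

private theorem B04_pat (hr : ∀ i, r i ≤ k) {F : B04T k r → B04W r s → Fin q}
    (hF : ∀ T T' v, (∃ i, (v i).val = 0) → F T v = F T' v) (t : Blk d k) :
    pat (B04big F) t = fun a b => F (fun i => ⟨(t i).val / 2 ^ r i, by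
      have h1 := (t i).val_lt
      have h2 : 2 ^ k = 2 ^ r i * 2 ^ (k - r i) := by
        rw [← pow_add]
        congr 1
        have := hr i
        omega
      exact Nat.div_lt_of_lt_mul (by rw [← h2]; exact h1)⟩)
      (Wpt (fun _ : Fin d => true) (fun i => 2 ^ r i) s (fun i => (t i).val % 2 ^ r i) a b) := by
  funext a b
  set m : Fin d → ℕ := fun i => 2 * (t i).val + b01 (a i) + b01 (b i) with hm
  have hx : pt t a b = fun i => ((m i : ℕ) : ZMod (2 ^ (k + 1))) := by
    funext i
    have e : ∀ c : Bool, ((b01 c : ℕ) : ZMod (2 ^ (k + 1))) = if c then 1 else 0 := by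
      intro c
      cases c <;> simp [b01]
    rw [hm]
    simp only [Nat.cast_add]
    rw [e, e]
    rfl
  have h1 : pat (B04big F) t a b = F (B04tile k r m) (B04red r s m) := by
    change B04big F (pt t a b) = _
    rw [hx]
    exact B04_cast hr F m
  have hb : ∀ c : Bool, b01 c ≤ 1 := by
    intro c
    unfold b01
    split_ifs <;> omega
  have hpw : ∀ i, 2 ^ (r i + 1) = 2 * 2 ^ r i := fun i => by rw [pow_succ, mul_comm]
  have hdm : ∀ i, m i = 2 ^ (r i + 1) * ((t i).val / 2 ^ r i) +
      (2 * ((t i).val % 2 ^ r i) + b01 (a i) + b01 (b i)) := by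
    intro i
    have h2 := Nat.div_add_mod (t i).val (2 ^ r i)
    have h3 : m i = 2 * (t i).val + b01 (a i) + b01 (b i) := rfl
    rw [h3, hpw i]
    conv_lhs => rw [← h2]
    ring
  have h2 : B04red r s m =
      Wpt (fun _ : Fin d => true) (fun i => 2 ^ r i) s (fun i => (t i).val % 2 ^ r i) a b := by
    funext i
    refine Fin.ext ?_
    rw [B04red_val, hdm i, Nat.mul_add_mod]
    rw [← B04_n (r i) s]
    change _ = (off true s + 2 * ((t i).val % 2 ^ r i) + b01 (a i) + b01 (b i)) % _
    have h4 : off true s = 0 := rfl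
    rw [h4, zero_add]
  rw [h1, ← h2]
  refine B04_bd hF m _ ?_
  by_cases hall : ∀ i, 2 * ((t i).val % 2 ^ r i) + b01 (a i) + b01 (b i) < 2 ^ (r i + 1)
  · refine Or.inl fun i => ?_
    have h5 : m i / 2 ^ (r i + 1) = (t i).val / 2 ^ r i := by
      rw [hdm i, Nat.mul_add_div (by positivity), Nat.div_eq_of_lt (hall i), add_zero]
    rw [h5]
    refine Nat.mod_eq_of_lt ?_
    have h6 := (t i).val_lt
    have h7 : 2 ^ k = 2 ^ r i * 2 ^ (k - r i) := by
      rw [← pow_add]
      congr 1
      have := hr i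
      omega
    exact Nat.div_lt_of_lt_mul (by rw [← h7]; exact h6)
  · push Not at hall
    obtain ⟨i, hi⟩ := hall
    refine Or.inr ⟨i, ?_⟩
    have h5 : (t i).val % 2 ^ r i < 2 ^ r i := Nat.mod_lt _ (by positivity)
    have h6 := hb (a i)
    have h7 := hb (b i)
    have h8 := hpw i
    have h9 : 2 * ((t i).val % 2 ^ r i) + b01 (a i) + b01 (b i) = 2 ^ (r i + 1) := by omega
    rw [hdm i, h9, Nat.mul_add_mod, Nat.mod_self]

private theorem B04_inj (hr : ∀ i, r i ≤ k) :
    Function.Injective (B04big : (B04T k r → B04W r s → Fin q) → Site d (k + 1) → Fin q) := by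
  intro F F' h
  funext T v
  set m : Fin d → ℕ := fun i => 2 ^ (r i + 1) * (T i).val + (v i).val with hm
  have hv : ∀ i, (v i).val < 2 ^ (r i + 1) := by
    intro i
    rw [← B04_n (r i) s]
    exact (v i).isLt
  have h1 : B04tile k r m = T := by
    funext i
    refine Fin.ext ?_
    change (2 ^ (r i + 1) * (T i).val + (v i).val) / 2 ^ (r i + 1) % 2 ^ (k - r i) = (T i).val
    rw [Nat.mul_add_div (by positivity), Nat.div_eq_of_lt (hv i), add_zero,
      Nat.mod_eq_of_lt (T i).isLt]
  have h2 : B04red r s m = v := by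
    funext i
    refine Fin.ext ?_
    rw [B04red_val]
    change (2 ^ (r i + 1) * (T i).val + (v i).val) % 2 ^ (r i + 1) = (v i).val
    rw [Nat.mul_add_mod, Nat.mod_eq_of_lt (hv i)]
  have h3 := congrFun h fun i => ((m i : ℕ) : ZMod (2 ^ (k + 1)))
  rw [B04_cast hr, B04_cast hr, h1, h2] at h3
  exact h3

end B04

open scoped Classical in
theorem tile_trans {d k q s : ℕ} (hq : 1 ≤ q) (r : Fin d → ℕ) (hr : ∀ i, r i ≤ k) (τ : Option (Fin q)) :
    (cG (WG (fun _ : Fin d => true) (fun i => 2 ^ r i) s) (fun f : WV (fun _ : Fin d => true) (fun i => 2 ^ r i) s → Fin q =>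
      WE (fun _ => true) (fun i => 2 ^ r i) s (fun _ => some τ) f)) ^ (2 ^ ∑ i, (k - r i)) ≤
      ((q : ℝ) ^ ((univ.filter fun x : WV (fun _ : Fin d => true) (fun i => 2 ^ r i) s => ∃ i, (x i).val = 0).card)) ^
        (2 ^ ∑ i, (k - r i)) * cE (fun (t : Blk d k) f => BDP τ (pat (q := q) f t)) univ := by
  set B : Finset (B04W r s) := univ.filter fun x => ∃ i, (x i).val = 0 with hB
  set S : Finset (B04W r s → Fin q) := univ.filter fun f =>
    PrG (WG (fun _ : Fin d => true) (fun i => 2 ^ r i) s) f ∧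
      WE (fun _ => true) (fun i => 2 ^ r i) s (fun _ => some τ) f with hS
  have hne : Nonempty (Fin q) := ⟨⟨0, hq⟩⟩
  -- a frequent boundary function
  obtain ⟨ξ, -, hξ⟩ := Finset.exists_max_image (univ : Finset (B → Fin q))
    (fun ξ => (S.filter fun f => (fun x : B => f x.1) = ξ).card) Finset.univ_nonempty
  set Sξ : Finset (B04W r s → Fin q) := S.filter fun f => (fun x : B => f x.1) = ξ with hSξ
  have h1 : (S.card : ℝ) ≤ (q : ℝ) ^ B.card * (Sξ.card : ℝ) := by
    have h2 : S.card = ∑ ξ' : B → Fin q, (S.filter fun f => (fun x : B => f x.1) = ξ').card :=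
      Finset.card_eq_sum_card_fiberwise fun f _ => Finset.mem_coe.2 (Finset.mem_univ _)
    have h3 : S.card ≤ q ^ B.card * Sξ.card := by
      rw [h2]
      refine le_trans (Finset.sum_le_card_nsmul _ _ _ fun ξ' h => hξ ξ' h) (le_of_eq ?_)
      rw [Finset.card_univ, Fintype.card_fun, Fintype.card_fin, Fintype.card_coe, smul_eq_mul]
    exact_mod_cast h3
  have hMc : Fintype.card (B04T k r) = 2 ^ ∑ i, (k - r i) := by
    rw [Fintype.card_pi]
    simp only [Fintype.card_fin]
    exact Finset.prod_pow_eq_pow_sum _ _ _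
  have hcG : cG (WG (fun _ : Fin d => true) (fun i => 2 ^ r i) s)
      (fun f : WV (fun _ : Fin d => true) (fun i => 2 ^ r i) s → Fin q =>
        WE (fun _ => true) (fun i => 2 ^ r i) s (fun _ => some τ) f) = (S.card : ℝ) := by
    unfold cG
    rw [hS]
  have h4 : (Sξ.card : ℝ) ^ (2 ^ ∑ i, (k - r i)) ≤
      cE (fun (t : Blk d k) f => BDP τ (pat (q := q) f t)) univ := by
    have h5 : Sξ.card ^ (2 ^ ∑ i, (k - r i)) =
        (Fintype.piFinset fun _ : B04T k r => Sξ).card := by
      rw [Fintype.card_piFinset, Finset.prod_const, Finset.card_univ, hMc]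
    unfold cE
    rw [← Nat.cast_pow, h5]
    refine Nat.cast_le.2 (Finset.card_le_card_of_injOn B04big ?_ (B04_inj hr).injOn)
    intro F hF
    have hF1 : ∀ T, F T ∈ Sξ := Fintype.mem_piFinset.1 (Finset.mem_coe.1 hF)
    have hF2 : ∀ T, PrG (WG (fun _ : Fin d => true) (fun i => 2 ^ r i) s) (F T) ∧
        WE (fun _ => true) (fun i => 2 ^ r i) s (fun _ => some τ) (F T) := by
      intro T
      have h6 := (Finset.mem_filter.1 (hF1 T)).1
      exact (Finset.mem_filter.1 h6).2
    have hF3 : ∀ T T' v, (∃ i, (v i).val = 0) → F T v = F T' v := by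
      intro T T' v hv
      have h6 := (Finset.mem_filter.1 (hF1 T)).2
      have h7 := (Finset.mem_filter.1 (hF1 T')).2
      have hvB : v ∈ B := Finset.mem_filter.2 ⟨Finset.mem_univ _, hv⟩
      have h8 := congrFun h6 ⟨v, hvB⟩
      have h9 := congrFun h7 ⟨v, hvB⟩
      exact h8.trans h9.symm
    refine Finset.mem_coe.2 (Finset.mem_filter.2 ⟨Finset.mem_filter.2 ⟨Finset.mem_univ _, ?_⟩, ?_⟩)
    · exact B04_prp hr hF3 fun T => (hF2 T).1
    · intro t _
      rw [B04_pat hr hF3 t]
      refine (hF2 _).2 (fun i => (t i).val % 2 ^ r i) (fun i => ?_) τ rfl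
      exact Nat.mod_lt _ (by positivity)
  rw [hcG]
  have h0 : (0 : ℝ) ≤ (q : ℝ) ^ B.card := by positivity
  calc (S.card : ℝ) ^ (2 ^ ∑ i, (k - r i))
      ≤ ((q : ℝ) ^ B.card * (Sξ.card : ℝ)) ^ (2 ^ ∑ i, (k - r i)) :=
        pow_le_pow_left₀ (Nat.cast_nonneg _) h1 _
    _ = ((q : ℝ) ^ B.card) ^ (2 ^ ∑ i, (k - r i)) * (Sξ.card : ℝ) ^ (2 ^ ∑ i, (k - r i)) := mul_pow _ _ _
    _ ≤ _ := mul_le_mul_of_nonneg_left h4 (pow_nonneg h0 _)

end Pool.Agent.LC
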