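import Pool.Agent.Lib_MP_2c424f_lc2.A03
import Pool.Agent.Lib_MP_2c424f_lc2.B03
import Pool.Agent.Lib_MP_2c424f_lc2.B04

/-!
# LC2 B05: homogeneous bad configurations on small tori

`chessB` with `Γ = univ` for `k` large: `cE .. univ ≤ ZZ exp (-N_big/d^C)`, `N_big = M N`, `N = ∏ 2 L i`; `tile_trans`, `ZZ_le_Zt`
(`cG (WG (fun _ => true) ..) True = Zt (fun i => lm true (L i) s + 1)` is `rfl`, and `(fun i => lm true (2^r i) s + 1) = fun i => 2^(r i+1)`); `M`-th root: `≤ Z q^|bdy| exp (-N/d^C)`, `|bdy| ≤ N d/(2 min L)`,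
`log q ≤ d`, so for `L i ≥ d^(C+3)` it is `≤ Z exp (-N/d^(C+1))`.
-/

set_option autoImplicit false

open Finset

namespace Pool.Agent.LC

open Pool.Agent.LO Pool.Agent.LIN Pool.Agent.THR Pool.Agent.COR

private theorem b05_lm (r s : ℕ) : lm true (2 ^ r) s + 1 = 2 ^ (r + 1) := by
  unfold lm
  have h : 1 ≤ 2 ^ r := Nat.one_le_two_pow
  rw [if_pos rfl, pow_succ]
  omega

open scoped Classical in
private theorem b05_face {d s : ℕ} (r : Fin d → ℕ) (i : Fin d) :
    (((univ.filter fun x : WV (fun _ : Fin d => true) (fun i => 2 ^ r i) s =>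
      (x i).val = 0).card : ℕ) : ℝ) = (∏ j, (2 : ℝ) * 2 ^ r j) / (2 * 2 ^ r i) := by
  have h1 : (univ.filter fun x : WV (fun _ : Fin d => true) (fun i => 2 ^ r i) s =>
      (x i).val = 0) = Fintype.piFinset (fun j => if j = i then {0} else univ) := by
    ext x
    simp only [mem_filter, mem_univ, true_and, Fintype.mem_piFinset]
    constructor
    · intro h j
      by_cases hj : j = i
      · subst hj
        rw [if_pos rfl, mem_singleton]
        exact Fin.ext h
      · rw [if_neg hj]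
        exact mem_univ _
    · intro h
      have h2 := h i
      rw [if_pos rfl, mem_singleton] at h2
      rw [h2]
      rfl
  rw [h1, Fintype.card_piFinset]
  have h2 : ∀ j, ((if j = i then {0} else univ : Finset (Fin (lm true (2 ^ r j) s + 1))).card : ℝ) =
      if j = i then 1 else 2 * 2 ^ r j := by
    intro j
    by_cases hj : j = i
    · rw [if_pos hj, if_pos hj, card_singleton]
      simp
    · rw [if_neg hj, if_neg hj, card_univ, Fintype.card_fin, b05_lm]
      push_cast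
      ring
  rw [Nat.cast_prod]
  have h3 : ∏ j, ((if j = i then {0} else univ : Finset (Fin (lm true (2 ^ r j) s + 1))).card : ℝ) =
      ∏ j, (if j = i then (1 : ℝ) else 2 * 2 ^ r j) := prod_congr rfl fun j _ => h2 j
  refine Eq.trans h3 ?_
  rw [eq_div_iff (by positivity), ← mul_prod_erase univ _ (mem_univ i),
    ← mul_prod_erase univ (fun j => (2 : ℝ) * 2 ^ r j) (mem_univ i), if_pos rfl, one_mul,
    mul_comm]
  congr 1
  apply prod_congr rfl
  intro j hj
  rw [if_neg (ne_of_mem_erase hj)]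

open scoped Classical in
private theorem b05_bdy {d s : ℕ} (r : Fin d → ℕ) {D : ℝ} (hD : 0 < D) (hr : ∀ i, D ≤ 2 ^ r i) :
    (((univ.filter fun x : WV (fun _ : Fin d => true) (fun i => 2 ^ r i) s =>
      ∃ i, (x i).val = 0).card : ℕ) : ℝ) ≤ d * ((∏ j, (2 : ℝ) * 2 ^ r j) / D) := by
  have h1 : (univ.filter fun x : WV (fun _ : Fin d => true) (fun i => 2 ^ r i) s =>
      ∃ i, (x i).val = 0) ⊆ univ.biUnion fun i =>
        univ.filter fun x : WV (fun _ : Fin d => true) (fun i => 2 ^ r i) s => (x i).val = 0 := by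
    intro x hx
    simp only [mem_filter, mem_univ, true_and, mem_biUnion] at hx ⊢
    exact hx
  have h2 := (card_le_card h1).trans card_biUnion_le
  have h3 : (((univ.filter fun x : WV (fun _ : Fin d => true) (fun i => 2 ^ r i) s =>
      ∃ i, (x i).val = 0).card : ℕ) : ℝ) ≤ ∑ i, (((univ.filter fun x :
        WV (fun _ : Fin d => true) (fun i => 2 ^ r i) s => (x i).val = 0).card : ℕ) : ℝ) := by
    exact_mod_cast h2
  refine h3.trans ?_
  have h4 : ∑ i, (((univ.filter fun x :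
        WV (fun _ : Fin d => true) (fun i => 2 ^ r i) s => (x i).val = 0).card : ℕ) : ℝ) ≤
      ∑ _i : Fin d, (∏ j, (2 : ℝ) * 2 ^ r j) / D := by
    apply sum_le_sum
    intro i _
    rw [b05_face]
    apply div_le_div_of_nonneg_left (by positivity) hD
    have := hr i
    have h5 : (0 : ℝ) < 2 ^ r i := by positivity
    linarith
  refine h4.trans (le_of_eq ?_)
  rw [sum_const, card_univ, Fintype.card_fin, nsmul_eq_mul]

private theorem b05_root {x y : ℝ} {m : ℕ} (hx : 0 ≤ x) (hy : 0 ≤ y) (hm : m ≠ 0)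
    (h : x ^ m ≤ y ^ m) : x ≤ y := (pow_le_pow_iff_left₀ hx hy hm).mp h

theorem small_torus : ∃ C d₀ : ℕ, ∀ d q : ℕ, d₀ ≤ d → Rg d q → ∀ (r : Fin d → ℕ) (s : ℕ),
    (∀ i, (d : ℝ) ^ C ≤ 2 ^ r i) → ∀ τ : Option (Fin q),
    cG (WG (fun _ : Fin d => true) (fun i => 2 ^ r i) s) (fun f : WV (fun _ : Fin d => true) (fun i => 2 ^ r i) s → Fin q =>
      WE (fun _ => true) (fun i => 2 ^ r i) s (fun _ => some τ) f) ≤
      cG (WG (fun _ : Fin d => true) (fun i => 2 ^ r i) s)
          (fun _ : WV (fun _ : Fin d => true) (fun i => 2 ^ r i) s → Fin q => True) *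
        Real.exp (-((∏ i, (2 : ℝ) * 2 ^ r i) / (d : ℝ) ^ C)) := by
  classical
  obtain ⟨C₁, d₁, hC⟩ := chessB
  refine ⟨C₁ + 3, max d₁ 2, ?_⟩
  intro d q hd hq r s hr τ
  have hd1 : d₁ ≤ d := (le_max_left _ _).trans hd
  have hd2 : 2 ≤ d := (le_max_right _ _).trans hd
  have hdR : (2 : ℝ) ≤ d := by exact_mod_cast hd2
  have hd0 : (0 : ℝ) < d := by linarith
  have hq1 : 1 ≤ q := by
    obtain ⟨_, _, h3⟩ := hq
    omega
  have hqd : q ≤ d := by
    obtain ⟨_, h2, _⟩ := hq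
    omega
  obtain ⟨k, hk, hkr⟩ := ((hC d q hd1 hq).and
    (Filter.eventually_ge_atTop (∑ i, r i))).exists
  have hrk : ∀ i, r i ≤ k := fun i =>
    (single_le_sum (f := r) (fun _ _ => Nat.zero_le _) (mem_univ i)).trans hkr
  have h1 := tile_trans (s := s) hq1 r hrk τ
  have h2 := hk τ univ
  have h3 := ZZ_le_Zt (q := q) r hrk
  set M : ℕ := 2 ^ ∑ i, (k - r i) with hM
  set N : ℝ := ∏ i, (2 : ℝ) * 2 ^ r i with hN
  have hN0 : 0 < N := by
    rw [hN]
    positivity
  have hM0 : M ≠ 0 := by rw [hM]; positivity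
  -- the two ways to write the number of the colourings of the small torus
  have hZ : cG (WG (fun _ : Fin d => true) (fun i => 2 ^ r i) s)
      (fun _ : WV (fun _ : Fin d => true) (fun i => 2 ^ r i) s → Fin q => True) =
      Zt q (fun i => 2 ^ (r i + 1)) := by
    have e1 : (fun i : Fin d => lm true (2 ^ r i) s + 1) = fun i => 2 ^ (r i + 1) :=
      funext fun i => b05_lm (r i) s
    rw [← e1]
    rfl
  -- number of the points
  have hcard : (2 : ℝ) ^ d / (d : ℝ) ^ C₁ * ((univ : Finset (Blk d k)).card : ℝ) =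
      N / (d : ℝ) ^ C₁ * M := by
    have e1 : ((univ : Finset (Blk d k)).card : ℝ) = (2 ^ k) ^ d := by
      rw [card_univ]
      have : Fintype.card (Blk d k) = (2 ^ k) ^ d := by
        simp [ZMod.card]
      rw [this]
      push_cast
      ring
    have e2 : N * M = 2 ^ d * (2 ^ k) ^ d := by
      have e3 : (M : ℝ) = ∏ i, (2 : ℝ) ^ (k - r i) := by
        rw [hM]
        push_cast
        rw [prod_pow_eq_pow_sum]
      rw [e3, hN, ← prod_mul_distrib]
      have e4 : ∀ i : Fin d, (2 : ℝ) * 2 ^ r i * 2 ^ (k - r i) = 2 * 2 ^ k := by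
        intro i
        rw [mul_assoc, ← pow_add, Nat.add_sub_cancel' (hrk i)]
      rw [prod_congr rfl fun i _ => e4 i, prod_const, card_univ, Fintype.card_fin, mul_pow]
    rw [e1, div_mul_eq_mul_div, div_mul_eq_mul_div, e2]
  have hexp : Real.exp (-(2 ^ d / (d : ℝ) ^ C₁)) ^ (univ : Finset (Blk d k)).card =
      Real.exp (-(N / (d : ℝ) ^ C₁)) ^ M := by
    rw [← Real.exp_nat_mul, ← Real.exp_nat_mul]
    congr 1
    linarith [hcard]
  set b : ℕ := (univ.filter fun x : WV (fun _ : Fin d => true) (fun i => 2 ^ r i) s =>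
    ∃ i, (x i).val = 0).card with hb
  have hcG0 : ∀ P : (WV (fun _ : Fin d => true) (fun i => 2 ^ r i) s → Fin q) → Prop,
      0 ≤ cG (WG (fun _ : Fin d => true) (fun i => 2 ^ r i) s) P := fun P => by
    unfold cG
    positivity
  have hZ0 : 0 ≤ Zt q (fun i => 2 ^ (r i + 1)) := by
    rw [← hZ]
    exact hcG0 _
  have hroot : cG (WG (fun _ : Fin d => true) (fun i => 2 ^ r i) s)
      (fun f : WV (fun _ : Fin d => true) (fun i => 2 ^ r i) s → Fin q =>
      WE (fun _ => true) (fun i => 2 ^ r i) s (fun _ => some τ) f) ≤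
      (q : ℝ) ^ b * (Zt q (fun i => 2 ^ (r i + 1)) * Real.exp (-(N / (d : ℝ) ^ C₁))) := by
    apply b05_root (hcG0 _) (by positivity) hM0
    refine h1.trans ?_
    rw [mul_pow]
    have h0 : (0 : ℝ) ≤ ((q : ℝ) ^ b) ^ M := by positivity
    refine le_trans (mul_le_mul_of_nonneg_left h2 h0) ?_
    have h4 : ZZ d (k + 1) q * Real.exp (-(2 ^ d / (d : ℝ) ^ C₁)) ^ (univ : Finset (Blk d k)).card ≤
        (Zt q (fun i => 2 ^ (r i + 1)) * Real.exp (-(N / (d : ℝ) ^ C₁))) ^ M := by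
      rw [hexp, mul_pow]
      exact mul_le_mul_of_nonneg_right h3 (by positivity)
    exact mul_le_mul_of_nonneg_left h4 h0
  -- the boundary
  have hbb : (b : ℝ) ≤ d * (N / (d : ℝ) ^ (C₁ + 3)) := b05_bdy r (by positivity) hr
  have hqb : (q : ℝ) ^ b ≤ Real.exp (N / (d : ℝ) ^ (C₁ + 1)) := by
    have hq0 : (0 : ℝ) < q := by exact_mod_cast hq1
    have e1 : (q : ℝ) ≤ Real.exp d := by
      have : (q : ℝ) ≤ d := by exact_mod_cast hqd
      have e2 := Real.add_one_le_exp (d : ℝ)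
      linarith
    calc (q : ℝ) ^ b ≤ Real.exp d ^ b := pow_le_pow_left₀ hq0.le e1 b
      _ = Real.exp (b * d) := (Real.exp_nat_mul _ _).symm
      _ ≤ Real.exp (N / (d : ℝ) ^ (C₁ + 1)) := by
        apply Real.exp_le_exp.mpr
        have e3 : (b : ℝ) * d ≤ d * (N / (d : ℝ) ^ (C₁ + 3)) * d :=
          mul_le_mul_of_nonneg_right hbb hd0.le
        refine e3.trans (le_of_eq ?_)
        rw [pow_add, pow_add]
        field_simp
  rw [hZ]
  refine hroot.trans ?_
  have e5 : (q : ℝ) ^ b * (Zt q (fun i => 2 ^ (r i + 1)) * Real.exp (-(N / (d : ℝ) ^ C₁))) ≤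
      Real.exp (N / (d : ℝ) ^ (C₁ + 1)) *
        (Zt q (fun i => 2 ^ (r i + 1)) * Real.exp (-(N / (d : ℝ) ^ C₁))) :=
    mul_le_mul_of_nonneg_right hqb (by positivity)
  refine e5.trans ?_
  have e6 : Real.exp (N / (d : ℝ) ^ (C₁ + 1)) * Real.exp (-(N / (d : ℝ) ^ C₁)) ≤
      Real.exp (-(N / (d : ℝ) ^ (C₁ + 3))) := by
    rw [← Real.exp_add]
    apply Real.exp_le_exp.mpr
    have e7 : N / (d : ℝ) ^ C₁ = N / (d : ℝ) ^ (C₁ + 3) * d ^ 3 := by
      rw [pow_add]
      field_simp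
    have e8 : N / (d : ℝ) ^ (C₁ + 1) = N / (d : ℝ) ^ (C₁ + 3) * d ^ 2 := by
      rw [pow_add, pow_add]
      field_simp
    rw [e7, e8]
    have e9 : 0 < N / (d : ℝ) ^ (C₁ + 3) := by positivity
    have e10 : (d : ℝ) ^ 2 + 1 ≤ d ^ 3 := by nlinarith [sq_nonneg (d : ℝ)]
    nlinarith
  calc Real.exp (N / (d : ℝ) ^ (C₁ + 1)) *
        (Zt q (fun i => 2 ^ (r i + 1)) * Real.exp (-(N / (d : ℝ) ^ C₁))) =
      Zt q (fun i => 2 ^ (r i + 1)) *
        (Real.exp (N / (d : ℝ) ^ (C₁ + 1)) * Real.exp (-(N / (d : ℝ) ^ C₁))) := by ring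
    _ ≤ _ := mul_le_mul_of_nonneg_left e6 hZ0

end Pool.Agent.LC
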