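import Pool.Agent.Lib_MP_2c424f_lc.Defs

/-!
# MP_2c424f_pr, corners in the linear regime, part II: definitions
-/

set_option autoImplicit false

open Finset Filter

namespace Pool.Agent.LC

open Pool.Agent.LO Pool.Agent.LIN Pool.Agent.THR Pool.Agent.COR

/-- bits changed in the directions of `r` -/
def xr {d : ℕ} (r a : Bt d) : Bt d := fun i => xor (a i) (r i)

/-- pattern reflected in the directions of `r` -/
def rP {d q : ℕ} (r : Bt d) (g : Pat d q) : Pat d q := fun a b => g (xr r a) (xr r b)

/-- bits of the parity of a tile -/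
def tb {d n : ℕ} (T : Fin d → Fin n) : Bt d := fun i => decide ((T i).val % 2 = 1)

/-- the chart of the tile `T`: copies of the box of side `2^s`, reflected in the directions with odd `T i` -/
def un {d k s : ℕ} (T : Fin d → Fin (2 ^ (k + 1 - s))) (u : BxV d (2 ^ s)) : Site d (k + 1) := fun i =>
  ((if (T i).val % 2 = 1 then 2 ^ s * ((T i).val + 1) - (u i).val else 2 ^ s * (T i).val + (u i).val : ℕ) :
    ZMod (2 ^ (k + 1)))

/-- the blocks of a tile -/
def unB {d k s : ℕ} (T : Fin d → Fin (2 ^ (k + 1 - s))) (t : Fin d → Fin (2 ^ s / 2)) : Blk d k := fun i =>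
  ((if (T i).val % 2 = 1 then 2 ^ s / 2 * ((T i).val + 1) - 1 - (t i).val else 2 ^ s / 2 * (T i).val + (t i).val : ℕ) :
    ZMod (2 ^ k))

open scoped Classical in
/-- the boundary of the box -/
noncomputable def bdy (d l : ℕ) : Finset (BxV d l) := univ.filter fun u => ∃ i, (u i).val = 0 ∨ (u i).val = l

end Pool.Agent.LC
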