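import Pool.Agent.Lib_MP_2c424f_lc2.Defs

/-!
# MP_2c424f_pr, corners in the linear regime: product domains with two sheets
-/

set_option autoImplicit false

open Finset Filter

namespace Pool.Agent.LC

open Pool.Agent.LO Pool.Agent.LIN Pool.Agent.THR Pool.Agent.COR

/-- path (`p = false`) or cycle (`p = true`) with `n` vertices -/
def lnG (p : Bool) (n : ℕ) : SimpleGraph (Fin n) where
  Adj a b := a ≠ b ∧ (a.val + 1 = b.val ∨ b.val + 1 = a.val ∨
    (p = true ∧ ((a.val = 0 ∧ b.val + 1 = n) ∨ (b.val = 0 ∧ a.val + 1 = n))))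
  symm := ⟨fun a b ⟨h, h'⟩ => ⟨h.symm, by tauto⟩⟩
  loopless := ⟨fun a h => h.1 rfl⟩

/-- product of one-dimensional graphs -/
def prG {I : Type} (n : I → ℕ) (R : ∀ i, SimpleGraph (Fin (n i))) : SimpleGraph (∀ i, Fin (n i)) where
  Adj x y := ∃ i, (∀ j, j ≠ i → x j = y j) ∧ (R i).Adj (x i) (y i)
  symm := ⟨fun _ _ ⟨i, h, h'⟩ => ⟨i, fun j hj => (h j hj).symm, h'.symm⟩⟩
  loopless := ⟨fun _ ⟨_, _, h'⟩ => h'.ne rfl⟩

section two
variable {W : Type}

/-- two sheets glued along `gl`; the points `(x, true)` with `gl x` are isolated -/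
def D2 (B : SimpleGraph W) (gl : W → Prop) : SimpleGraph (W × Bool) where
  Adj p p' := B.Adj p.1 p'.1 ∧ ¬ (p.2 = true ∧ gl p.1) ∧ ¬ (p'.2 = true ∧ gl p'.1) ∧ (p.2 = p'.2 ∨ gl p.1 ∨ gl p'.1)
  symm := ⟨fun p p' h => ⟨h.1.symm, h.2.2.1, h.2.1, by rcases h.2.2.2 with h | h | h <;> simp [h]⟩⟩
  loopless := ⟨fun p h => h.1.ne rfl⟩

open scoped Classical in
/-- number of pairs of proper colourings which agree on `gl`; an event for the first one -/
noncomputable def N2 [Fintype W] [DecidableEq W] {q : ℕ} (B : SimpleGraph W) (gl : W → Prop)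
    (P : (W → Fin q) → Prop) : ℝ :=
  ((univ.filter fun p : (W → Fin q) × (W → Fin q) =>
    PrG B p.1 ∧ PrG B p.2 ∧ (∀ x, gl x → p.1 x = p.2 x) ∧ P p.1).card : ℝ)

end two

/-! ## The domains `W_per` -/

/-- last index in a direction -/
def lm (p : Bool) (L s : ℕ) : ℕ := if p then 2 * L - 1 else 2 * (L - 1) + 2 * s

/-- position of the first block -/
def off (p : Bool) (s : ℕ) : ℕ := if p then 0 else s

/-- number of blocks -/
def nbk (p : Bool) (L : ℕ) : ℕ := if p then L else L - 1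

section dom
variable {d : ℕ} (per : Fin d → Bool) (L : Fin d → ℕ) (s : ℕ)

/-- the vertices of the base -/
abbrev WV := ∀ i, Fin (lm (per i) (L i) s + 1)

/-- the base graph -/
def WG : SimpleGraph (WV per L s) := prG (fun i => lm (per i) (L i) s + 1) fun i => lnG (per i) (lm (per i) (L i) s + 1)

/-- the glue set -/
def Wgl (x : WV per L s) : Prop := ∃ i, per i = false ∧ ((x i).val = 0 ∨ (x i).val = lm (per i) (L i) s)

/-- the points of the blocks -/
def Wpt (t : Fin d → ℕ) (a b : Bt d) : WV per L s := fun i =>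
  Fin.ofNat (lm (per i) (L i) s + 1) (off (per i) s + 2 * t i + b01 (a i) + b01 (b i))

/-- the event of a family of types of bad blocks -/
def WE {q : ℕ} (Γ : (Fin d → ℕ) → Option (Option (Fin q))) (f : WV per L s → Fin q) : Prop :=
  ∀ t, (∀ i, t i < nbk (per i) (L i)) → ∀ τ, Γ t = some τ → BDP τ fun a b => f (Wpt per L s t a b)

open scoped Classical in
/-- number of the bad blocks -/
noncomputable def Wn {q : ℕ} (Γ : (Fin d → ℕ) → Option (Option (Fin q))) : ℕ :=
  (univ.filter fun t : ∀ i, Fin (nbk (per i) (L i)) => Γ (fun i => (t i).val) ≠ none).card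

end dom

/-- number of proper colourings of the torus with the sides `n i` -/
noncomputable def Zt {d : ℕ} (q : ℕ) (n : Fin d → ℕ) : ℝ :=
  cG (prG n fun i => lnG true (n i)) (fun _ : (∀ i, Fin (n i)) → Fin q => True)

end Pool.Agent.LC
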